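import Pool.Agent.MP_7ebdba_gt.w.Spec

/-! Row BLK: the sixth iterate of the substitution has corners of all classes. -/

open DihedralGroup

namespace Pool.Agent.MP_7ebdba_gt.w

namespace BlkP

abbrev Dh : Type := DihedralGroup 6

/-- A corner of class `κ`. -/
def Site (κ : Dh) (β : G) : Prop :=
  ∃ (p r : List Bool) (e : ℕ), β = pw p * gU * gR * gU ^ (e + 1) * gR * gU * pw r ∧
    chi (pw p * gU * gR * gU ^ (e + 1)) = κ

theorem pw_append (l l' : List Bool) : pw (l ++ l') = pw l * pw l' := by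
  simp [pw]

/-- A positive word with its class and a list of classes of corners. -/
structure Ok (β : G) (x : Dh × List Dh) : Prop where
  pos : ∃ l, β = pw l
  cls : chi β = x.1
  st : ∀ κ ∈ x.2, Site κ β

def mt (x y : Dh × List Dh) : Dh × List Dh := (x.1 * y.1, x.2 ++ y.2.map (x.1 * ·))

theorem Ok.mul {β β' : G} {x y : Dh × List Dh} (h : Ok β x) (h' : Ok β' y) :
    Ok (β * β') (mt x y) := by
  obtain ⟨l, hl⟩ := h.pos
  obtain ⟨l', hl'⟩ := h'.pos
  refine ⟨⟨l ++ l', by rw [pw_append, hl, hl']⟩, by rw [map_mul, h.cls, h'.cls]; rfl, fun κ hκ => ?_⟩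
  rcases List.mem_append.1 hκ with k | k
  · obtain ⟨p, r, e, h1, h2⟩ := h.st κ k
    exact ⟨p, r ++ l', e, by rw [h1, hl', pw_append, mul_assoc], h2⟩
  · obtain ⟨κ', k1, rfl⟩ := List.mem_map.1 k
    obtain ⟨p, r, e, h1, h2⟩ := h'.st κ' k1
    refine ⟨l ++ p, r, e, by rw [h1, hl, pw_append]; simp only [mul_assoc], ?_⟩
    rw [← h2, ← h.cls, hl, ← map_mul, pw_append]
    simp only [mul_assoc]

theorem Ok.le {β : G} {x y : Dh × List Dh} (h : Ok β y) (e : y.1 = x.1 ∧ ∀ κ ∈ x.2, κ ∈ y.2) :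
    Ok β x := ⟨h.pos, h.cls.trans e.1, fun κ k => h.st κ (e.2 κ k)⟩

variable {t2 th : MulAut G}

theorem psiR (T : Tw t2 th) : (t2 * th * th) gR = gR * gU := by
  simp only [MulAut.mul_apply, T.thR, T.t2R]

theorem psiU (T : Tw t2 th) :
    (t2 * th * th) gU = gR * gU * gR * gU * gU * gR * gU * gR * gU := by
  simp only [MulAut.mul_apply, T.thR, T.thU, T.t2R, T.t2U, map_mul, mul_assoc]

theorem succR (T : Tw t2 th) (n : ℕ) : ((t2 * th * th) ^ (n + 1)) gR =
    ((t2 * th * th) ^ n) gR * ((t2 * th * th) ^ n) gU := by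
  rw [pow_succ, MulAut.mul_apply, psiR T, map_mul]

theorem succU (T : Tw t2 th) (n : ℕ) : ((t2 * th * th) ^ (n + 1)) gU =
    ((t2 * th * th) ^ n) gR * ((t2 * th * th) ^ n) gU * ((t2 * th * th) ^ n) gR *
      ((t2 * th * th) ^ n) gU * ((t2 * th * th) ^ n) gU * ((t2 * th * th) ^ n) gR *
      ((t2 * th * th) ^ n) gU * ((t2 * th * th) ^ n) gR * ((t2 * th * th) ^ n) gU := by
  rw [pow_succ, MulAut.mul_apply, psiU T]
  simp only [map_mul]

theorem step (T : Tw t2 th) {n : ℕ} {x y : Dh × List Dh}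
    (h : Ok (((t2 * th * th) ^ n) gR) x ∧ Ok (((t2 * th * th) ^ n) gU) y) (x' y' : Dh × List Dh)
    (e1 : (mt x y).1 = x'.1 ∧ ∀ κ ∈ x'.2, κ ∈ (mt x y).2)
    (e2 : (mt (mt (mt (mt (mt (mt (mt (mt x y) x) y) y) x) y) x) y).1 = y'.1 ∧
      ∀ κ ∈ y'.2, κ ∈ (mt (mt (mt (mt (mt (mt (mt (mt x y) x) y) y) x) y) x) y).2) :
    Ok (((t2 * th * th) ^ (n + 1)) gR) x' ∧ Ok (((t2 * th * th) ^ (n + 1)) gU) y' := by
  rw [succR T, succU T]
  exact ⟨(h.1.mul h.2).le e1,
    ((((((((h.1.mul h.2).mul h.1).mul h.2).mul h.2).mul h.1).mul h.2).mul h.1).mul h.2).le e2⟩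

theorem base (T : Tw t2 th) : Ok (((t2 * th * th) ^ 1) gR) (sr 4, []) ∧
    Ok (((t2 * th * th) ^ 1) gU) (r 1, [r 1, sr 3]) := by
  rw [pow_one, psiR T, psiU T]
  refine ⟨⟨⟨[false, true], by simp [pw]⟩, ?_, by simp⟩,
    ⟨⟨[false, true, false, true, true, false, true, false, true], by simp [pw, mul_assoc]⟩, ?_,
      fun κ k => ?_⟩⟩
  · simp only [map_mul, chi_R, chi_U]; decide
  · simp only [map_mul, chi_R, chi_U]; decide
  · simp only [List.mem_cons, List.not_mem_nil, or_false] at k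
    rcases k with rfl | rfl
    · refine ⟨[false], [false, true], 1, by simp [pw, mul_assoc, pow_succ], ?_⟩
      simp only [pw, List.map_cons, List.map_nil, List.prod_cons, List.prod_nil, cond_false,
        map_mul, map_pow, map_one, chi_R, chi_U]
      decide
    · refine ⟨[false, true, false, true], [], 0, by simp [pw, mul_assoc], ?_⟩
      simp only [pw, List.map_cons, List.map_nil, List.prod_cons, List.prod_nil, cond_false,
        cond_true, map_mul, map_pow, map_one, chi_R, chi_U]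
      decide

theorem cls (T : Tw t2 th) (n : ℕ) : (∃ i, chi (((t2 * th * th) ^ n) gR) = sr i) ∧
    chi (((t2 * th * th) ^ n) gU) = r 1 := by
  induction n with
  | zero => exact ⟨⟨3, by simp⟩, by simp⟩
  | succ n ih =>
    obtain ⟨⟨i, h1⟩, h2⟩ := ih
    rw [succR T, succU T]
    simp only [map_mul, h1, h2]
    exact ⟨⟨i + 1, rfl⟩, by clear h1; revert i; decide⟩

end BlkP

open BlkP in
theorem blk : BlkStmt := by
  intro t2 th T
  refine ⟨⟨6, ?_⟩, fun n => (cls T n).2⟩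
  have h2 := step T (base T) (sr 5, [r 5, sr 5]) (r 1, [r 0, r 1, r 5, sr 3, sr 4, sr 5])
    (by decide) (by decide)
  have h3 := step T h2 (sr 0, [r 0, r 4, r 5, sr 0, sr 4, sr 5])
    (r 1, [r 0, r 1, r 4, r 5, sr 0, sr 3, sr 4, sr 5]) (by decide) (by decide +kernel)
  have h4 := step T h3 (sr 1, [r 0, r 3, r 4, r 5, sr 0, sr 1, sr 4, sr 5])
    (r 1, [r 0, r 1, r 3, r 4, r 5, sr 0, sr 1, sr 3, sr 4, sr 5]) (by decide) (by decide +kernel)
  have h5 := step T h4 (sr 2, [r 0, r 2, r 3, r 4, r 5, sr 0, sr 1, sr 2, sr 4, sr 5])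
    (r 1, [r 0, r 1, r 2, r 3, r 4, r 5, sr 0, sr 1, sr 2, sr 3, sr 4, sr 5])
    (by decide) (by decide +kernel)
  have h6 := step T h5 (sr 3, [r 0, r 1, r 2, r 3, r 4, r 5, sr 0, sr 1, sr 2, sr 3, sr 4, sr 5])
    (r 1, [r 0, r 1, r 2, r 3, r 4, r 5, sr 0, sr 1, sr 2, sr 3, sr 4, sr 5])
    (by decide) (by decide +kernel)
  have hall : ∀ κ : Dh,
      κ ∈ [r 0, r 1, r 2, r 3, r 4, r 5, sr 0, sr 1, sr 2, sr 3, sr 4, sr 5] := by decide
  exact ⟨fun κ => h6.1.st κ (hall κ), fun κ => h6.2.st κ (hall κ)⟩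

end Pool.Agent.MP_7ebdba_gt.w
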