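import Pool.Agent.MP_7ebdba_gt.w.Spec

/-! A wall of the second family between two regions that are not adjacent. -/

namespace Pool.Agent.MP_7ebdba_gt.w

open Subgroup

namespace Br

variable {W : Type} [Group W] {a q v h : W}

/-- The six elements of the finite dihedral subgroup. -/
def S3 (v h s : W) : Prop :=
  s = 1 ∨ s = h ∨ s = v ∨ s = v * h ∨ s = h * v ∨ s = h * v * h

/-- Reduced words that start with `q`. -/
inductive T (q v h : W) : W → Prop
  | base {s : W} : S3 v h s → T q v h (q * s)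
  | step {s w : W} : S3 v h s → s ≠ 1 → s ≠ h → T q v h w → T q v h (q * (s * w))

theorem S3.mulh (r : Rel a q v h) {s : W} (hs : S3 v h s) : S3 v h (h * s) := by
  have e : ∀ x, h * (h * x) = x := fun x => by rw [← mul_assoc, r.hh, one_mul]
  unfold S3
  rcases hs with rfl | rfl | rfl | rfl | rfl | rfl <;> simp [e, r.hh, mul_assoc]

theorem S3.mulv (r : Rel a q v h) {s : W} (hs : S3 v h s) : S3 v h (v * s) := by
  have e : ∀ x, v * (v * x) = x := fun x => by rw [← mul_assoc, r.vv, one_mul]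
  have e' : v * (h * v) = h * (v * h) := by simpa only [mul_assoc] using r.vh
  have e'' : v * (h * (v * h)) = h * v := by rw [← e', e]
  unfold S3
  rcases hs with rfl | rfl | rfl | rfl | rfl | rfl <;> simp [e, e', e'', r.vv, mul_assoc]

theorem mq : q ∈ closure {q, v} := subset_closure (by simp)
theorem mv : v ∈ closure {q, v} := subset_closure (by simp)

theorem S3.mem {s : W} (hs : S3 v h s) : s ∈ closure {a, h, v} := by
  have m1 : h ∈ closure {a, h, v} := subset_closure (by simp)
  have m2 : v ∈ closure {a, h, v} := subset_closure (by simp)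
  rcases hs with rfl | rfl | rfl | rfl | rfl | rfl
  exacts [one_mem _, m1, m2, mul_mem m2 m1, mul_mem m1 m2, mul_mem (mul_mem m1 m2) m1]

theorem T.beh (r : Rel a q v h) (H : Hf q a h v) {w : W} (hw : T q v h w) : Beh q a h v w := by
  induction hw with
  | base hs => exact (H.flip _).2 (H.notB _ hs.mem)
  | step hs h1 h2 _ ih =>
    refine (H.flip _).2 (H.dis _ hs.mem ?_ _ ih)
    rcases hs with rfl | rfl | rfl | rfl | rfl | rfl
    · exact absurd rfl h1
    · exact absurd rfl h2
    · exact H.hC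
    · exact fun c => H.hC ((mul_mem_cancel_right mv).1 c)
    · exact H.vhC.1
    · exact r.vh ▸ H.vhC.2

theorem nf (r : Rel a q v h) {b : W} (hb : b ∈ closure {q, v, h}) :
    S3 v h b ∨ ∃ s w, S3 v h s ∧ T q v h w ∧ b = s * w := by
  have qq : ∀ x, q * (q * x) = x := fun x => by rw [← mul_assoc, r.qq, one_mul]
  have qh : ∀ x, q * (h * x) = h * (q * x) := fun x => by rw [← mul_assoc, r.qh, mul_assoc]
  have key : ∀ x ∈ ({q, v, h} : Set W), ∀ b, (S3 v h b ∨ ∃ s w, S3 v h s ∧ T q v h w ∧ b = s * w) →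
      S3 v h (x * b) ∨ ∃ s w, S3 v h s ∧ T q v h w ∧ x * b = s * w := by
    rintro x (rfl | rfl | rfl) b (hb | ⟨s, w, hs, hw, rfl⟩)
    · exact Or.inr ⟨1, _, Or.inl rfl, T.base hb, (one_mul _).symm⟩
    · by_cases h1 : s = 1
      · rw [h1, one_mul]
        cases hw with
        | base hs' => exact Or.inl (by rwa [qq])
        | step hs' _ _ hw' => exact Or.inr ⟨_, _, hs', hw', qq _⟩
      by_cases h2 : s = h
      · rw [h2, qh]
        cases hw with
        | base hs' => exact Or.inl (by rw [qq]; exact hs'.mulh r)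
        | step hs' _ _ hw' => exact Or.inr ⟨_, _, hs'.mulh r, hw', by rw [qq, mul_assoc]⟩
      exact Or.inr ⟨1, _, Or.inl rfl, T.step hs h1 h2 hw, (one_mul _).symm⟩
    · exact Or.inl (hb.mulv r)
    · exact Or.inr ⟨_, _, hs.mulv r, hw, (mul_assoc _ _ _).symm⟩
    · exact Or.inl (hb.mulh r)
    · exact Or.inr ⟨_, _, hs.mulh r, hw, (mul_assoc _ _ _).symm⟩
  induction hb using closure_induction_left with
  | one => exact Or.inl (Or.inl rfl)
  | mul_left x hx y _ ih => exact key x hx y ih
  | inv_mul_cancel x hx y _ ih =>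
    have : x⁻¹ = x := by
      rcases hx with rfl | rfl | rfl
      exacts [inv_eq_of_mul_eq_one_right r.qq, inv_eq_of_mul_eq_one_right r.vv,
        inv_eq_of_mul_eq_one_right r.hh]
    rw [this]
    exact key x hx y ih

/-- In `C` or in `C h C`. -/
def Bad (q v h b : W) : Prop :=
  b ∈ closure {q, v} ∨ ∃ c ∈ closure {q, v}, ∃ c' ∈ closure {q, v}, b = c * h * c'

theorem Bad.left {c b : W} (hc : c ∈ closure {q, v}) (hb : Bad q v h b) : Bad q v h (c * b) := by
  rcases hb with hb | ⟨x, hx, y, hy, rfl⟩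
  · exact Or.inl (mul_mem hc hb)
  · exact Or.inr ⟨_, mul_mem hc hx, y, hy, by simp only [mul_assoc]⟩

theorem Bad.right {c b : W} (hc : c ∈ closure {q, v}) (hb : Bad q v h b) : Bad q v h (b * c) := by
  rcases hb with hb | ⟨x, hx, y, hy, rfl⟩
  · exact Or.inl (mul_mem hb hc)
  · exact Or.inr ⟨x, hx, _, mul_mem hy hc, by simp only [mul_assoc]⟩

theorem S3.bad (r : Rel a q v h) {s : W} (hs : S3 v h s) : Bad q v h s := by
  have b : Bad q v h h := Or.inr ⟨1, one_mem _, 1, one_mem _, by simp⟩
  rcases hs with rfl | rfl | rfl | rfl | rfl | rfl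
  exacts [Or.inl (one_mem _), b, Or.inl mv, b.left mv, b.right mv, r.vh ▸ (b.left mv).right mv]

/-- The conclusion. -/
def Good (a q v h b : W) : Prop :=
  ∃ u ∈ closure {q, v, h}, u ∉ closure {q, v} ∧ h * u ∉ closure {q, v} ∧
    u * b ∉ closure {q, v} ∧ h * (u * b) ∉ closure {q, v} ∧ ¬ Beh q a h v u ∧ Beh q a h v (u * b)

theorem Good.left (h2 : NcStmt) (x : Cox a q v h) {c b : W} (hc : c ∈ closure {q, v})
    (hb : Good a q v h b) : Good a q v h (c * b) := by
  obtain ⟨u, u1, u2, u3, u4, u5, u6, u7⟩ := hb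
  have e : u * c⁻¹ * (c * b) = u * b := by simp [mul_assoc]
  refine ⟨u * c⁻¹, mul_mem u1 (closure_mono (by simp [Set.subset_def]) (inv_mem hc)),
    fun k => u2 ((mul_mem_cancel_right (inv_mem hc)).1 k),
    fun k => u3 ((mul_mem_cancel_right (inv_mem hc)).1 (by rwa [mul_assoc])), e ▸ u4, e ▸ u5,
    fun k => u6 (((h2 W a q v h x u u1 u2 u3).1 _ (inv_mem hc)).1 k), e ▸ u7⟩

theorem good_end (r : Rel a q v h) (H : Hf a q v h) (H' : Hf q a h v) {s w : W}
    (hs : s = h * v ∨ s = h * v * h) (hw : T q v h w) (hb : ¬ Bad q v h (s * w)) :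
    Good a q v h (s * w) := by
  have hh : ∀ x, h * (h * x) = x := fun x => by rw [← mul_assoc, r.hh, one_mul]
  have vv : ∀ x, v * (v * x) = x := fun x => by rw [← mul_assoc, r.vv, one_mul]
  have m1 : h ∈ closure {q, v, h} := subset_closure (by simp)
  have m2 : v ∈ closure {q, v, h} := subset_closure (by simp)
  have s1 : S3 v h (h * v) := by simp [S3]
  have s2 : S3 v h (h * v * h) := by simp [S3]
  rcases hs with rfl | rfl
  · have e : v * h * (h * v * w) = w := by simp only [mul_assoc, hh, vv]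
    refine ⟨v * h, mul_mem m2 m1, H.vhC.1, mul_assoc h v h ▸ H.vhC.2, ?_, ?_,
      H'.notB _ (S3.mem (by simp [S3])), ?_⟩ <;> rw [e]
    · exact fun c => hb ((s1.bad r).right c)
    · exact fun c => hb (by simpa only [mul_assoc, hh] using (s2.bad r).right c)
    · exact hw.beh r H'
  · have e : h * v * h * (h * v * h * w) = w := by simp only [mul_assoc, hh, vv]
    refine ⟨h * v * h, mul_mem (mul_mem m1 m2) m1, H.vhC.2,
      by simpa only [mul_assoc, hh] using H.vhC.1, ?_, ?_, H'.notB _ s2.mem, ?_⟩ <;> rw [e]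
    · exact fun c => hb ((s2.bad r).right c)
    · exact fun c => hb (by simpa only [mul_assoc] using (s1.bad r).right c)
    · exact hw.beh r H'

theorem split (r : Rel a q v h) {s : W} (hs : S3 v h s) : (s = h * v ∨ s = h * v * h) ∨
    ∃ c ∈ closure {q, v}, ∀ t, S3 v h t → ∃ t', S3 v h t' ∧ ∀ w, s * (q * (t * w)) = c * (t' * w) := by
  have qh : ∀ x, h * (q * x) = q * (h * x) := fun x => by rw [← mul_assoc, ← r.qh, mul_assoc]
  rcases hs with rfl | rfl | rfl | rfl | rfl | rfl
  · exact Or.inr ⟨q, mq, fun t ht => ⟨t, ht, fun w => one_mul _⟩⟩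
  · exact Or.inr ⟨q, mq, fun t ht => ⟨_, ht.mulh r, fun w => by rw [qh, mul_assoc]⟩⟩
  · exact Or.inr ⟨_, mul_mem mv mq, fun t ht => ⟨t, ht, fun w => (mul_assoc _ _ _).symm⟩⟩
  · exact Or.inr ⟨_, mul_mem mv mq, fun t ht => ⟨_, ht.mulh r, fun w => by
      simp only [mul_assoc, qh]⟩⟩
  · exact Or.inl (Or.inl rfl)
  · exact Or.inl (Or.inr rfl)

end Br

open Br in
theorem bridge (h1 : HfStmt) (h2 : NcStmt) : BridgeStmt := by
  intro W _ a q v h x b hb n1 n2
  have r := x.rel
  have H := h1 W a q v h x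
  have H' := h1 W q a h v x.symm
  have key : ∀ w, T q v h w → ∀ s, S3 v h s → ¬ Bad q v h (s * w) → Good a q v h (s * w) := by
    intro w hw
    induction hw with
    | @base t ht =>
      intro s hs hn
      rcases split r hs with e | ⟨c, hc, e⟩
      · exact good_end r H H' e (T.base ht) hn
      · obtain ⟨t', ht', e⟩ := e t ht
        have := e 1
        rw [mul_one, mul_one] at this
        exact absurd (this ▸ (ht'.bad r).left hc) hn
    | @step t w ht t1 t2 hw ih =>
      intro s hs hn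
      rcases split r hs with e | ⟨c, hc, e⟩
      · exact good_end r H H' e (T.step ht t1 t2 hw) hn
      · obtain ⟨t', ht', e⟩ := e t ht
        rw [e] at hn ⊢
        exact (ih t' ht' fun k => hn (k.left hc)).left h2 x hc
  have hn : ¬ Bad q v h b := by
    rintro (k | ⟨c, hc, c', hc', k⟩)
    exacts [n1 k, n2 c hc c' hc' k]
  rcases nf r hb with k | ⟨s, w, hs, hw, rfl⟩
  · exact absurd (k.bad r) hn
  · exact key w hw s hs hn

end Pool.Agent.MP_7ebdba_gt.w
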