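import Pool.Agent.MP_7ebdba_gt.w.Spec

/-! Rows CERT and K: crossing certificates and the dichotomy. -/

open Filter Set

namespace Pool.Agent.MP_7ebdba_gt.w

open ch ge

namespace Cert

section
variable {P : Type} [Group P] {g : P} {X Y X' Y' Z H : Set P}

theorem to_mono (h : To g X Y) (h1 : X ⊆ X') (h2 : Y ⊆ Y') : To g X' Y' := fun y =>
  (h y).mono fun _ e => ⟨h1 e.1, h2 e.2⟩

theorem to_tails (h : To g X Y) (h1 : ∀ x ∈ X, x ∉ Z) (h2 : ∀ x ∈ Y, x ∉ Z) : Tails g 1 Z :=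
  fun y => by
  obtain ⟨m, hm⟩ := eventually_atTop.1 (h y)
  refine (finite_Ioo (-(m : ℤ)) m).subset fun n hn => ?_
  rw [mem_ofPred_eq, one_mul] at hn
  by_contra hc
  obtain ⟨k, rfl | rfl⟩ := n.eq_nat_or_neg
  · exact h1 _ (hm k (by simp only [mem_Ioo] at hc; omega)).1 (by simpa using hn)
  · exact h2 _ (hm k (by simp only [mem_Ioo] at hc; omega)).2 (by simpa using hn)

theorem to_ord (h : To g H Hᶜ) : ¬ IsOfFinOrder g := fun ho => by
  obtain ⟨k, hk, e⟩ := isOfFinOrder_iff_pow_eq_one.1 ho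
  obtain ⟨m, hm⟩ := eventually_atTop.1 (h 1)
  have := hm (k * m) (Nat.le_mul_of_pos_left _ hk)
  rw [pow_mul, e, one_pow, inv_one] at this
  exact this.2 this.1

omit [Group P] in
theorem ind_compl (x : P) : ind Hᶜ x = ind H x + 1 := by
  unfold ind
  by_cases h : x ∈ H
  · rw [if_pos h, if_neg (fun e => e h)]; decide
  · rw [if_neg h, if_pos (show x ∈ Hᶜ from h)]; decide

theorem ai_compl (h : AI g (ind H)) : AI g (ind Hᶜ) :=
  ⟨fun x => by rw [ind_compl, ind_compl, h.1], fun y => by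
    simpa only [ind_compl, ne_eq, add_left_inj] using h.2 y⟩

theorem ai0 {s : P → ZMod 2} (h : AI g s) : AI0 g s := ⟨⟨0, fun x => by rw [h.1, add_zero]⟩, h.2⟩

theorem sep_of {s : P → ZMod 2} {N M N' M' : Set P} (hs : AI0 g s) (h1 : N.Infinite)
    (h2 : M.Infinite) (ht : Tails g 1 (N ∪ M)) (e1 : N ⊆ N') (e2 : M ⊆ M')
    (h : ∃ (a : ZMod 2) (F : Set P), F.Finite ∧ (∀ y ∈ N', y ∉ F → s y = a) ∧
      ∀ y ∈ M', y ∉ F → s y = a + 1) : Sep g N M := by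
  obtain ⟨a, F, hF, ha, hb⟩ := h
  exact ⟨h1, h2, ht, s, a, hs, hF.subset fun y hy => by_contra fun e => hy.2 (ha y (e1 hy.1) e),
    hF.subset fun y hy => by_contra fun e => hy.2 (hb y (e2 hy.1) e)⟩

end

theorem to_pull (j : G →* W) (ι : S 2 →* G) (γ : G) {g : S 2} {X Y : Set W}
    (h : To ((j γ)⁻¹ * j (ι g) * j γ) X Y) : To g (pull j ι γ X) (pull j ι γ Y) := fun y => by
  have e : ∀ n : ℕ, ((j γ)⁻¹ * j (ι g) * j γ) ^ n = (j γ)⁻¹ * j (ι g) ^ n * j γ := fun n => by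
    simpa using conj_pow (a := (j γ)⁻¹) (b := j (ι g)) (i := n)
  filter_upwards [h (j (γ⁻¹ * ι y))] with n hn
  rw [e] at hn
  simpa [pull, mul_assoc] using hn

theorem exists_c {j : G →* W} {Ψ : MulAut G} {ι : S 2 →* G} {θ : MulAut (S 2)} (E : Emb j Ψ ι θ)
    (γ : G) : (∃ c, ι c = γ * gR ^ 2 * γ⁻¹) ∧ ∃ c, ι c = γ * gU ^ 6 * γ⁻¹ := by
  have h1 : chi (gR ^ 2) = 1 := by rw [map_pow, chi_R]; decide
  have h2 : chi (gU ^ 6) = 1 := by rw [map_pow, chi_U]; decide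
  exact ⟨(E.ran _).1 (by rw [map_mul, map_mul, h1, map_inv, mul_one, mul_inv_cancel]),
    (E.ran _).1 (by rw [map_mul, map_mul, h2, map_inv, mul_one, mul_inv_cancel])⟩

theorem step_U (H : Hf wa wq wv wh) {w : W} (h : wU * w ∈ A) : w ∈ A := by
  have h1 := (H.flip _).2 (H.dis wh (Subgroup.subset_closure (by simp)) H.hC _ h)
  rwa [wU, mul_assoc wh wa, ← mul_assoc wh wh, relW_rel.hh, one_mul, ← mul_assoc, relW_rel.aa,
    one_mul] at h1

theorem det_j {j : G →* W} (M : Mod j) (x : G) : det (j x) = 1 :=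
  DFunLike.congr_fun (extG (f := det.comp j) (f' := 1) (by simp [M.o]) (by simp [M.R, wR])
    (by simp [M.U, wU])) x

theorem not_T0 {j : G →* W} (M : Mod j) {x : G} (h1 : chi x = 1) (h : T0 (j x)) : x = 1 := by
  obtain ⟨γ, hd, h⟩ := h
  obtain ⟨γ, rfl⟩ := M.ran γ hd
  have k : ∀ y, (j γ)⁻¹ * j x * j γ = j y → chi y = 1 := fun y e => by
    rw [← map_inv, ← map_mul, ← map_mul] at e
    rw [← M.inj e, map_mul, map_mul, h1, map_inv, mul_one, inv_mul_cancel]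
  have r := relW_rel
  have ia : wa⁻¹ = wa := inv_eq_of_mul_eq_one_right r.aa
  have iq : wq⁻¹ = wq := inv_eq_of_mul_eq_one_right r.qq
  have iv : wv⁻¹ = wv := inv_eq_of_mul_eq_one_right r.vv
  have ih : wh⁻¹ = wh := inv_eq_of_mul_eq_one_right r.hh
  have e1 : j (go * gR) = wa * wv := by
    rw [map_mul, M.o, M.R, wR, mul_assoc, ← mul_assoc wq, r.qq, one_mul]
  have e2 : j (go * gU⁻¹) = wq * wh := by
    rw [map_mul, map_inv, M.o, M.U, wU, mul_inv_rev, ia, ih, r.aq, mul_assoc, ← mul_assoc wa,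
      r.aa, one_mul]
  have e3 : j (gR⁻¹ * (go * gU⁻¹)) = wv * wh := by
    rw [map_mul, e2, map_inv, M.R, wR, mul_inv_rev, iq, iv, mul_assoc, ← mul_assoc wq, r.qq,
      one_mul]
  have e4 : j (gR⁻¹ * (go * gU⁻¹))⁻¹ = wh * wv := by rw [map_inv, e3, mul_inv_rev, ih, iv]
  simp only [List.mem_cons, List.not_mem_nil, or_false] at h
  rcases h with h | h | h | h | h | h
  · apply M.inj
    rw [mul_assoc, inv_mul_eq_one] at h
    rw [map_one]
    exact mul_eq_right.1 h.symm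
  · exact absurd (k _ (h.trans M.o.symm)) (by rw [chi_o]; decide)
  · exact absurd (k _ (h.trans e1.symm)) (by rw [map_mul, chi_o, chi_R]; decide)
  · exact absurd (k _ (h.trans e2.symm)) (by rw [map_mul, map_inv, chi_o, chi_U]; decide)
  · exact absurd (k _ (h.trans e3.symm))
      (by rw [map_mul, map_mul, map_inv, map_inv, chi_o, chi_U, chi_R]; decide)
  · exact absurd (k _ (h.trans e4.symm))
      (by rw [map_inv, map_mul, map_mul, map_inv, map_inv, chi_o, chi_U, chi_R]; decide)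

end Cert

open Cert

theorem cert (h1 : HfStmt) (h2 : LkStmt) (h3 : LinkStmt) (h4 : QuadStmt) (h5 : WallStmt) :
    CertStmt := by
  intro j Ψ ι θ M E g hK
  have H := h1 _ _ _ _ _ cox
  rcases hK with ⟨γ, hd, hK⟩ | ⟨γ, hd, hK⟩
  · obtain ⟨γ, rfl⟩ := M.ran γ hd
    obtain ⟨⟨c, hc⟩, c', hc'⟩ := exists_c E γ
    obtain ⟨⟨d, hd⟩, d', hd'⟩ := exists_c E (γ * gU⁻¹)
    obtain ⟨-, w2, w3, -, w5, w6, w7⟩ := h5 j Ψ ι θ M E γ c c' hc hc'
    have w1 := (h5 j Ψ ι θ M E _ d d' hd hd').1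
    have eN : ∀ y, y ∈ pull j ι (γ * gU⁻¹) A ↔ wU * j (γ⁻¹ * ι y) ∈ A := fun y => by
      simp [pull, M.U, mul_assoc]
    obtain ⟨T, hT, hA⟩ : To g (pull j ι γ Mid) (pull j ι γ Mid) ∧
        ∃ X : Set (S 2), AI c' (ind X) ∧ To g X Xᶜ := by
      rcases hK with hK | hK
      · have := to_pull j ι γ hK
        exact ⟨to_mono this (fun _ e => e.1) fun _ e => e.1, _, w3.1,
          to_mono this (fun _ e => e.2) fun _ e => e.2⟩
      · have := to_pull j ι γ hK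
        exact ⟨to_mono this (fun _ e => e.1) fun _ e => e.1, _, ai_compl w3.1,
          to_mono this (fun _ e => e.2) fun _ e e' => e' e.2⟩
    obtain ⟨s, hs, hl⟩ := h2.2 g (to_ord hA.2)
    have k : ∀ x ∈ pull j ι γ Mid, x ∉ pull j ι (γ * gU⁻¹) A ∪ pull j ι γ Aᶜ := by
      rintro x hx (e | e)
      · exact hx.1 ((eN x).1 e)
      · exact e hx.2
    have t := to_tails T k k
    have e1 : pull j ι γ Pa ⊆ pull j ι (γ * gU⁻¹) A := fun y hy => (eN y).2 hy.1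
    have e2 : pull j ι γ Fu ⊆ pull j ι γ Aᶜ := fun y hy => hy.1
    exact ⟨γ, sep_of (ai0 hs.1) w6 w7 (t.mono (union_subset_union e1 e2)) e1 e2
      (h3 _ g c' d c s hT _ _ h2.1 (ai0 hs.1) hl w1 w2 hA.1 w5 t hA.2)⟩
  · obtain ⟨γ, rfl⟩ := M.ran γ hd
    obtain ⟨⟨c, hc⟩, c', hc'⟩ := exists_c E γ
    obtain ⟨w1, -, w3, w4, w5, w6, w7⟩ := h5 j Ψ ι θ M E γ c c' hc hc'
    have T := to_pull j ι γ hK
    have e0 : pull j ι (γ * gU⁻¹) A ⊆ pull j ι γ A := fun y hy =>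
      step_U H (by simpa [pull, M.U, mul_assoc] using hy)
    obtain ⟨s, hs, hl⟩ := h2.2 g (to_ord (H := pull j ι γ Aᶜ)
      (to_mono T (fun _ e => e.1) fun _ e e' => e' e.1))
    have e1 : pull j ι γ Pa ⊆ pull j ι γ A ∩ (pull j ι γ Q)ᶜ := fun y hy => ⟨step_U H hy.1, hy.2⟩
    have e2 : pull j ι γ Fu ⊆ (pull j ι γ A)ᶜ ∩ pull j ι γ Q := fun y hy => hy
    refine ⟨γ, sep_of (ai0 hs.1) w6 w7 (to_tails T ?_ ?_) e1 e2
      (h4 _ g c c' s _ _ h2.1 (ai0 hs.1) hl w1 w3 w4 (to_mono w5 Subset.rfl e0) T)⟩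
    · rintro x hx (e | e)
      · exact hx.1 (e1 e).1
      · exact hx.2 (e2 e).2
    · rintro x hx (e | e)
      · exact (e1 e).2 hx.2
      · exact (e2 e).1 hx.1

theorem kS (h0 : CycStmt) (h1 : D1Stmt) (h2 : D2Stmt) (h3 : D3Stmt) (h4 : PsiStmt)
    (h5 : CertStmt) : KStmt := by
  intro j t2 th ι θ M T E g hg
  have hd := det_j M (ι g)
  have hP : P1 (j (ι g)) ∨ P2 (j (ι g)) → InC 1 (ι (θ g)) := fun h => by
    rw [E.psi]; exact (h4 j t2 th M T).1 _ h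
  have hE : T0 (j (ι g)) ∨ P2 (j (ι g)) → InC 1 (ι (θ g)) ∨ Cert j ι g := by
    rintro (h | h)
    · exact absurd (E.inj ((not_T0 M ((E.ran _).2 ⟨g, rfl⟩) h).trans (map_one ι).symm)) hg
    · exact Or.inl (hP (Or.inr h))
  have hC : ∀ c ∈ Subgroup.closure {wq, wv}, wa * c = c * wa := fun c hc => by
    refine ((Subgroup.closure_le (Subgroup.centralizer {wa})).2 ?_ hc) wa rfl
    rintro x (rfl | rfl) y rfl
    · exact relW_rel.aq
    · exact relW_rel.av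
  have hB : j (ι g) ∈ Subgroup.closure {wq, wv, wh} ⊔ Subgroup.zpowers wa := by
    have : (⊤ : Subgroup W) ≤ Subgroup.closure {wq, wv, wh} ⊔ Subgroup.zpowers wa := by
      rw [← cox.gen, Subgroup.closure_le]
      rintro x (rfl | hx)
      · exact Subgroup.mem_sup_right (Subgroup.mem_zpowers _)
      · exact Subgroup.mem_sup_left (Subgroup.subset_closure hx)
    exact this trivial
  obtain ⟨γ, -, h | ⟨c, -, hc, h⟩ | ⟨l, hl, hb, h⟩⟩ := h0 W wa _ _ relW_rel.aa hC _ hB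
  · exact hE (h3 _ γ hd (Or.inl h))
  · exact hE (h3 _ γ hd (Or.inr ⟨c, hc, h⟩))
  · by_cases e : ∀ b ∈ l, ∃ c ∈ Subgroup.closure {wq, wv}, ∃ c' ∈ Subgroup.closure {wq, wv},
        b = c * wh * c'
    · exact (h1 _ γ l hd hl e h).imp (fun k => hP (Or.inl k)) fun k =>
        h5 j _ ι θ M E g (Or.inr k)
    · push Not at e
      obtain ⟨b, hb', e⟩ := e
      exact Or.inr (h5 j _ ι θ M E g (Or.inl (h2 _ γ l b hb hb' e h)))

end Pool.Agent.MP_7ebdba_gt.w
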