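import Pool.Agent.MP_7ebdba_gt.w.Spec

/-! Cyclic reduction in a group generated by a subgroup and an involution. -/

namespace Pool.Agent.MP_7ebdba_gt.w

namespace Cyc

variable {W : Type} [Group W] {a : W} {B : Subgroup W}

theorem nf (ha : a * a = 1) {g : W} (hg : g ∈ B ⊔ Subgroup.zpowers a) :
    ∃ l : List W, (∀ x ∈ l, x ∈ B) ∧ ∃ b ∈ B, g = (l.map (· * a)).prod * b := by
  rw [Subgroup.zpowers_eq_closure, ← B.closure_eq, ← Subgroup.closure_union] at hg
  have key : ∀ x y : W, (y ∈ B ∨ y = a) →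
      (∃ l : List W, (∀ x ∈ l, x ∈ B) ∧ ∃ b ∈ B, x = (l.map (· * a)).prod * b) →
      ∃ l : List W, (∀ x ∈ l, x ∈ B) ∧ ∃ b ∈ B, x * y = (l.map (· * a)).prod * b := by
    rintro x y (hy | rfl) ⟨l, hl, b, hb, rfl⟩
    · exact ⟨l, hl, b * y, B.mul_mem hb hy, mul_assoc ..⟩
    · refine ⟨l ++ [b], fun x hx => ?_, 1, B.one_mem, by simp [mul_assoc]⟩
      rcases List.mem_append.1 hx with h | h
      · exact hl x h
      · exact List.mem_singleton.1 h ▸ hb
  induction hg using Subgroup.closure_induction_right with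
  | one => exact ⟨[], by simp, 1, B.one_mem, by simp⟩
  | mul_right x _ y hy ih => exact key x y hy ih
  | mul_inv_cancel x _ y hy ih =>
    exact key x y⁻¹ (hy.imp B.inv_mem fun e : y = a => by rw [e, inv_eq_of_mul_eq_one_right ha]) ih

theorem mem {l : List W} (hl : ∀ x ∈ l, x ∈ B) : (l.map (· * a)).prod ∈ B ⊔ Subgroup.zpowers a :=
  Subgroup.list_prod_mem _ fun y hy => by
    obtain ⟨x, hx, rfl⟩ := List.mem_map.1 hy
    exact Subgroup.mul_mem_sup (hl x hx) (Subgroup.mem_zpowers a)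

end Cyc

theorem cyc : CycStmt := by
  intro W _ a B C ha hc g hg
  obtain ⟨l, hl, b, hb, rfl⟩ := Cyc.nf ha hg
  clear hg
  induction hn : l.length using Nat.strong_induction_on generalizing l b with
  | _ n ih =>
  rcases l with _ | ⟨x, l⟩
  · exact ⟨1, one_mem _, Or.inl (by simpa using hb)⟩
  have hb' : b⁻¹ ∈ B ⊔ Subgroup.zpowers a := Subgroup.mem_sup_left (B.inv_mem hb)
  have h1 : ∀ y ∈ (b * x) :: l, y ∈ B := fun y hy => by
    rcases List.mem_cons.1 hy with rfl | hy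
    · exact B.mul_mem hb (hl x List.mem_cons_self)
    · exact hl y (List.mem_cons_of_mem _ hy)
  have e1 : b⁻¹⁻¹ * (((x :: l).map (· * a)).prod * b) * b⁻¹ =
      (((b * x) :: l).map (· * a)).prod := by simp [mul_assoc]
  have e2 : ((b * x) :: l).length = n := hn
  generalize (b * x) :: l = k at h1 e1 e2
  by_cases h : ∀ y ∈ k, y ∉ C
  · refine ⟨b⁻¹, hb', Or.inr (Or.inr ⟨k, ?_, fun y hy => ⟨h1 y hy, h y hy⟩, e1⟩)⟩
    rintro rfl
    rw [← e2] at hn
    simp at hn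
  simp only [not_forall, not_not] at h
  obtain ⟨c, hk, hC⟩ := h
  obtain ⟨s, t, rfl⟩ := List.append_of_mem hk
  have ht : ∀ y ∈ t, y ∈ B := fun y hy => h1 y (by simp [hy])
  have hts : ∀ y ∈ t ++ s, y ∈ B := fun y hy => h1 y (by
    rcases List.mem_append.1 hy with h | h <;> simp [h])
  have hδ := (B ⊔ Subgroup.zpowers a).mul_mem hb' (inv_mem (Cyc.mem (a := a) ht))
  have e3 : (b⁻¹ * ((t.map (· * a)).prod)⁻¹)⁻¹ * (((x :: l).map (· * a)).prod * b) *
      (b⁻¹ * ((t.map (· * a)).prod)⁻¹) = ((t ++ s).map (· * a)).prod * (c * a) := by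
    rw [mul_inv_rev, mul_assoc (_⁻¹⁻¹), ← mul_assoc _ b⁻¹, mul_assoc (_⁻¹⁻¹) _ b⁻¹, mul_assoc _ _ b⁻¹,
      ← mul_assoc b⁻¹⁻¹ _ b⁻¹, e1]
    simp [mul_assoc]
  have e4 : (t ++ s).length + 1 = n := by
    rw [← e2]
    simp only [List.length_append, List.length_cons]
    omega
  generalize t ++ s = m at hts e3 e4
  rcases List.eq_nil_or_concat m with rfl | ⟨m, y, rfl⟩
  · exact ⟨_, hδ, Or.inr (Or.inl ⟨c, h1 c hk, hC, by simpa using e3⟩)⟩
  obtain ⟨γ, hγ, h⟩ := ih m.length (by simp at e4; omega) m (fun z hz => hts z (by simp [hz]))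
    (y * c) (B.mul_mem (hts y (by simp)) (h1 c hk)) rfl
  have e5 : ((m.concat y).map (· * a)).prod * (c * a) = (m.map (· * a)).prod * (y * c) := by
    rw [← hc c hC]
    simp [mul_assoc, ← mul_assoc a a, ha]
  refine ⟨_, mul_mem hδ hγ, ?_⟩
  rw [← e5, ← e3] at h
  rwa [mul_inv_rev, mul_assoc γ⁻¹, ← mul_assoc _ _ γ, mul_assoc γ⁻¹]

end Pool.Agent.MP_7ebdba_gt.w
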