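import Pool.Agent.MP_7ebdba_gt.w.Spec

/-! Row D1: words all of whose passages are through gates. -/

open Filter

namespace Pool.Agent.MP_7ebdba_gt.w

open ch ge

namespace D1

def P (l : List ℤ) : W := (l.map fun d => wR ^ d * wU).prod

abbrev C : Subgroup W := Subgroup.closure {wq, wv}

theorem P_cons (d : ℤ) (l : List ℤ) : P (d :: l) = wR ^ d * wU * P l := by simp [P]
theorem P_append (l l' : List ℤ) : P (l ++ l') = P l * P l' := by simp [P]

theorem det_R : det wR = 1 := by simp [wR]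
theorem det_P (l : List ℤ) : det (P l) = 1 := by
  induction l with
  | nil => simp [P]
  | cons d l ih => simp [P_cons, ih, det_R, wU]

theorem qC : wq ∈ C := Subgroup.subset_closure (by simp)
theorem RC (d : ℤ) : wR ^ d ∈ C :=
  C.zpow_mem (C.mul_mem qC (Subgroup.subset_closure (by simp))) d
theorem CB {c : W} (h : c ∈ C) : c ∈ Subgroup.closure {wq, wv, wh} :=
  Subgroup.closure_mono (by intro x; simp; tauto) h
theorem hB : wh ∈ Subgroup.closure {wq, wv, wh} := Subgroup.subset_closure (by simp)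

theorem aC {c : W} (h : c ∈ C) : c * wa = wa * c := by
  have : C ≤ Subgroup.centralizer {wa} := (Subgroup.closure_le _).2 (by
    rintro x (rfl | rfl) <;> simp [Subgroup.mem_centralizer_iff, relW_rel.aq, relW_rel.av])
  exact (this h wa rfl).symm

theorem inv_q : wq⁻¹ = wq := inv_eq_of_mul_eq_one_right relW_rel.qq
theorem inv_U : wU⁻¹ = wa * wh := by
  rw [wU, mul_inv_rev, inv_eq_of_mul_eq_one_right relW_rel.aa,
    inv_eq_of_mul_eq_one_right relW_rel.hh]
theorem inv_R : wR⁻¹ = wv * wq := by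
  rw [wR, mul_inv_rev, inv_q, inv_eq_of_mul_eq_one_right relW_rel.vv]

theorem qU : wq * wU = wU * wq := by
  rw [wU, ← mul_assoc, relW_rel.qh, mul_assoc, ← relW_rel.aq, mul_assoc]

theorem qR (d : ℤ) : wq * wR ^ d = wR ^ (-d) * wq := by
  have : SemiconjBy wq wR wR⁻¹ := by
    rw [SemiconjBy, inv_R, wR, ← mul_assoc, relW_rel.qq, one_mul, mul_assoc, relW_rel.qq, mul_one]
  rw [(this.zpow_right d).eq, inv_zpow']

theorem qP (l : List ℤ) : wq * P l = P (l.map Neg.neg) * wq := by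
  induction l with
  | nil => simp [P]
  | cons d l ih =>
    rw [List.map_cons, P_cons, P_cons, mul_assoc _ _ wq, ← ih, ← mul_assoc, ← mul_assoc, qR,
      mul_assoc _ wq, qU, ← mul_assoc, ← mul_assoc]

variable (H : Hf wa wq wv wh) (K : Hf wq wa wh wv)

include H in
theorem nf (l : List W) (hl : ∀ b ∈ l, ∃ c ∈ C, ∃ c' ∈ C, b = c * wh * c') :
    ∀ c₀ ∈ C, ∃ ds : List ℤ, ds.length = l.length ∧ ∃ c₁ ∈ C,
      c₀ * (l.map (· * wa)).prod = P ds * c₁ := by
  induction l with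
  | nil => exact fun c hc => ⟨[], rfl, c, hc, by simp [P]⟩
  | cons b l ih =>
    intro c₀ h₀
    obtain ⟨c, hc, c', hc', rfl⟩ := hl b (by simp)
    have e : c₀ * ((c * wh * c') :: l |>.map (· * wa)).prod =
        c₀ * c * wU * (c' * (l.map (· * wa)).prod) := by
      rw [List.map_cons, List.prod_cons, mul_assoc (c * wh), aC hc', wU]
      simp only [mul_assoc]
    obtain ⟨n, hn | hn⟩ := H.nfC _ (C.mul_mem h₀ hc)
    · obtain ⟨ds, h1, c₁, h2, h3⟩ := ih (fun b hb => hl b (by simp [hb])) c' hc'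
      exact ⟨n :: ds, by simp [h1], c₁, h2, by rw [e, hn, h3, P_cons, ← mul_assoc]; rfl⟩
    · obtain ⟨ds, h1, c₁, h2, h3⟩ := ih (fun b hb => hl b (by simp [hb])) _ (C.mul_mem qC hc')
      refine ⟨n :: ds, by simp [h1], c₁, h2, ?_⟩
      rw [e, hn, P_cons, mul_assoc _ _ c₁, ← h3, mul_assoc _ wq, qU]
      simp only [mul_assoc, wR]

include H in
theorem stepU (d : ℤ) {w : W} (h : w ∈ A) : (wR ^ d * wU)⁻¹ * w ∈ A := by
  rw [mul_inv_rev, inv_U, mul_assoc, mul_assoc]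
  exact (H.flip _).2 (H.dis _ hB H.hC _ ((H.cinv _ (C.inv_mem (RC d)) _).2 h))

include H in
theorem stepP (l : List ℤ) : ∀ w ∈ A, (P l)⁻¹ * w ∈ A := by
  induction l with
  | nil => simp [P]
  | cons d l ih =>
    intro w h
    rw [P_cons, mul_inv_rev, mul_assoc]
    exact ih _ (stepU H d h)

include H in
theorem stepP' (l : List ℤ) : ∀ d, ∀ w ∈ A, wU * ((P (d :: l))⁻¹ * w) ∈ A := by
  induction l with
  | nil =>
    intro d w h
    simpa [P, A, mul_assoc] using (H.cinv _ (C.inv_mem (RC d)) _).2 h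
  | cons e l ih =>
    intro d w h
    rw [P_cons, mul_inv_rev, mul_assoc]
    exact ih e _ (stepU H d h)

include H in
theorem invP (d : ℤ) (l : List ℤ) : (P (d :: l))⁻¹ ∈ A := by
  rw [P_cons, mul_inv_rev]
  refine stepP H l _ ?_
  rw [mul_inv_rev, inv_U, mul_assoc]
  exact (H.flip _).2 (H.notB _ (Subgroup.mul_mem _ hB (CB (C.inv_mem (RC d)))))

include H K in
theorem x1 (h2 : NcStmt) {w : W} (h : w ∈ A) : wv * wh * w ∉ Q := fun k =>
  K.notB _ (Subgroup.mul_mem _ (Subgroup.subset_closure (by simp)) (Subgroup.subset_closure (by simp)))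
    (((h2 _ _ _ _ _ cox (wv * wh) (Subgroup.mul_mem _ (Subgroup.subset_closure (by simp)) hB)
      H.vhC.1 (by rw [← mul_assoc]; exact H.vhC.2)).2 w h).1 k)

include K in
theorem stepR (m : ℕ) {w : W} (h : w ∉ Q) : wR⁻¹ ^ m * w ∉ Q := by
  induction m with
  | zero => simpa using h
  | succ m ih =>
    rw [pow_succ', mul_assoc, inv_R, mul_assoc, ← inv_R]
    exact K.dis _ (Subgroup.subset_closure (by simp)) K.hC _ ((K.flip _).2 ih)

include H K in
theorem tails (h2 : NcStmt) {d : ℤ} (hd : d ≤ -2) (l : List ℤ) :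
    To (wR * P (d :: l) * wR⁻¹) (Aᶜ ∩ Qᶜ) (A ∩ Q) := by
  intro y
  obtain ⟨N, hN⟩ := eventually_atTop.1 (H.exh _ (stepP H _) (invP H d l) (wR⁻¹ * y))
  refine eventually_atTop.2 ⟨N + 1, fun n hn => ?_⟩
  obtain ⟨n, rfl⟩ : ∃ m, n = m + 1 := ⟨n - 1, by omega⟩
  obtain ⟨h3, h4⟩ := hN n (by omega)
  rw [conj_pow]
  constructor
  · have h5 : wa * (P l * (P (d :: l) ^ n * (wR⁻¹ * y))) ∈ A :=
      (H.flip _).2 fun k => h3 (by simpa [A] using stepP H l _ k)
    rw [show wR * P (d :: l) ^ (n + 1) * wR⁻¹ * y =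
      wR ^ (d + 1) * wh * (wa * (P l * (P (d :: l) ^ n * (wR⁻¹ * y)))) by
        rw [pow_succ', add_comm d, zpow_one_add]
        nth_rewrite 1 [P_cons]
        simp only [wU, mul_assoc]]
    refine ⟨H.dis _ (Subgroup.mul_mem _ (CB (RC _)) hB)
      (fun k => H.hC ((C.mul_mem_cancel_left (RC _)).1 k)) _ h5, ?_⟩
    obtain ⟨m, hm⟩ : ∃ m : ℕ, d + 1 = -(m + 1) := ⟨(-d - 2).toNat, by omega⟩
    rw [hm, ← inv_zpow', zpow_add_one, zpow_natCast, mul_assoc, mul_assoc]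
    refine stepR K m ?_
    have h6 := x1 H K h2 ((H.cinv _ qC _).2 h5)
    rwa [← mul_assoc, mul_assoc wv, ← relW_rel.qh, ← mul_assoc wv, ← inv_R, mul_assoc] at h6
  · have h5 := stepP' H l d _ h4
    rw [show (wR * P (d :: l) ^ (n + 1) * wR⁻¹)⁻¹ * y = wa * (wq * (wv * wh *
      (wU * ((P (d :: l))⁻¹ * ((P (d :: l) ^ n)⁻¹ * (wR⁻¹ * y)))))) by
        rw [← mul_assoc wa, relW_rel.aq, mul_assoc wq, ← mul_assoc wa, ← mul_assoc wa, relW_rel.av,
          mul_assoc wv, ← inv_U, pow_succ]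
        simp only [mul_assoc, mul_inv_rev, inv_inv, inv_mul_cancel_left, wR]]
    refine ⟨(H.flip _).2 fun k => H.dis _ (Subgroup.mul_mem _ (Subgroup.subset_closure (by simp)) hB)
      H.vhC.1 _ h5 ((H.cinv _ qC _).1 k), ?_⟩
    exact (K.cinv _ (Subgroup.subset_closure (by simp)) _).2 ((K.flip _).2 (x1 H K h2 h5))

end D1

open D1 in
theorem d1 (h1 : HfStmt) (h2 : NcStmt) : D1Stmt := by
  intro g γ l hg hl hb e
  have H := h1 _ _ _ _ _ cox
  have K := h1 _ _ _ _ _ cox.symm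
  obtain ⟨ds, k1, c, hc, k2⟩ := nf H l hb 1 C.one_mem
  rw [one_mul, ← e] at k2
  obtain ⟨d, ds, rfl⟩ := List.exists_cons_of_ne_nil (l := ds) (by
    rintro rfl; exact hl (List.length_eq_zero_iff.1 k1.symm))
  have s1 : ∃ γ' ds, ds ≠ [] ∧ γ'⁻¹ * g * γ' = P ds := by
    have k3 : (γ * c⁻¹)⁻¹ * g * (γ * c⁻¹) = c * wR ^ d * wU * P ds := by
      rw [mul_inv_rev, inv_inv, mul_assoc c, mul_assoc c, ← mul_assoc _ γ, k2, P_cons]
      simp only [mul_assoc, mul_inv_cancel, mul_one]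
    obtain ⟨n, hn | hn⟩ := H.nfC _ (C.mul_mem hc (RC d))
    · exact ⟨_, n :: ds, by simp, by rw [k3, hn, P_cons]; rfl⟩
    · have := congrArg det k3
      rw [hn] at this
      rcases Int.units_eq_one_or (det c) with a | a <;>
        rcases Int.units_eq_one_or (det γ) with b | b <;> simp [hg, det_P, wU, a, b] at this
  have s2 : ∃ γ', det γ' = 1 ∧ ∃ ds, ds ≠ [] ∧ γ'⁻¹ * g * γ' = P ds := by
    obtain ⟨γ', ds, a, b⟩ := s1
    rcases Int.units_eq_one_or (det γ') with h | h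
    · exact ⟨γ', h, ds, a, b⟩
    · refine ⟨γ' * wq, by simp [h], ds.map Neg.neg, by simpa using a, ?_⟩
      rw [mul_inv_rev, inv_q, mul_assoc wq, mul_assoc wq, ← mul_assoc _ γ', b, ← mul_assoc, qP,
        mul_assoc, relW_rel.qq, mul_one]
  obtain ⟨γ', a, ds, b, k⟩ := s2
  by_cases h : ∀ d ∈ ds, -1 ≤ d
  · exact Or.inl ⟨γ', a, ds, b, h, k⟩
  · push Not at h
    obtain ⟨d, hd, h⟩ := h
    obtain ⟨l₁, l₂, rfl⟩ := List.append_of_mem hd
    refine Or.inr ⟨γ' * P l₁ * wR⁻¹, by simp [a, det_P, det_R], ?_⟩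
    rw [show (γ' * P l₁ * wR⁻¹)⁻¹ * g * (γ' * P l₁ * wR⁻¹) =
      wR * ((P l₁)⁻¹ * (γ'⁻¹ * g * γ') * P l₁) * wR⁻¹ by group, k, P_append, inv_mul_cancel_left,
      ← P_append]
    exact tails H K h2 (by omega) _

end Pool.Agent.MP_7ebdba_gt.w
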