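import Pool.Agent.MP_7ebdba_gt.w.Spec

/-! A cyclically reduced word with a passage that is not through a gate. -/

open Filter

namespace Pool.Agent.MP_7ebdba_gt.w

open ch ge

namespace D2

variable {M : Type} [Group M] {a q v h : M}

theorem step (R : Rel a q v h) (H : Hf a q v h) {b : M} (hb : b ∈ Subgroup.closure {q, v, h})
    (hc : b ∉ Subgroup.closure {q, v}) :
    (∀ w, Beh a q v h w → Beh a q v h ((b * a)⁻¹ * w)) ∧ Beh a q v h (b * a)⁻¹ := by
  have hb' := inv_mem hb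
  have hc' : b⁻¹ ∉ Subgroup.closure {q, v} := fun e => hc (inv_mem_iff.1 e)
  rw [mul_inv_rev, inv_eq_of_mul_eq_one_right R.aa]
  refine ⟨fun w hw => ?_, (H.flip _).2 (H.notB _ hb')⟩
  rw [mul_assoc]
  exact (H.flip _).2 (H.dis _ hb' hc' w hw)

theorem steps (R : Rel a q v h) (H : Hf a q v h) (l : List M)
    (hl : ∀ b ∈ l, b ∈ Subgroup.closure {q, v, h} ∧ b ∉ Subgroup.closure {q, v}) :
    ∀ w, Beh a q v h w → Beh a q v h (((l.map (· * a)).prod)⁻¹ * w) := by
  induction l with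
  | nil => intro w hw; simpa using hw
  | cons b l ih =>
    intro w hw
    rw [List.map_cons, List.prod_cons, mul_inv_rev, mul_assoc]
    exact ih (fun c hc => hl c (List.mem_cons_of_mem _ hc)) _
      ((step R H (hl b List.mem_cons_self).1 (hl b List.mem_cons_self).2).1 w hw)

/-- The two tails of a word that starts with `b`. -/
theorem tails (R : Rel a q v h) (H : Hf a q v h) {b : M} {l : List M}
    (hl : ∀ c ∈ b :: l, c ∈ Subgroup.closure {q, v, h} ∧ c ∉ Subgroup.closure {q, v}) :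
    To ((b :: l).map (· * a)).prod {w | Beh a q v h (b⁻¹ * w)} {w | Beh a q v h w} := by
  have hx := steps R H l fun c hc => hl c (List.mem_cons_of_mem _ hc)
  have h1 : Beh a q v h (((b :: l).map (· * a)).prod)⁻¹ := by
    rw [List.map_cons, List.prod_cons, mul_inv_rev]
    exact hx _ (step R H (hl b List.mem_cons_self).1 (hl b List.mem_cons_self).2).2
  intro y
  obtain ⟨N, hN⟩ := eventually_atTop.1 (H.exh _ (steps R H _ hl) h1 y)
  refine eventually_atTop.2 ⟨N + 1, fun n hn => ⟨?_, (hN n (by omega)).2⟩⟩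
  obtain ⟨n, rfl⟩ : ∃ m, n = m + 1 := ⟨n - 1, by omega⟩
  have h2 := (hN n (by omega)).1
  rw [pow_succ', mul_assoc]
  generalize ((b :: l).map (· * a)).prod ^ n * y = z at h2 ⊢
  show Beh a q v h (b⁻¹ * (((b :: l).map (· * a)).prod * z))
  rw [List.map_cons, List.prod_cons, mul_assoc, mul_assoc, inv_mul_cancel_left]
  refine (H.flip _).2 fun e => h2 ?_
  simpa using hx _ e

theorem to_conj {g : M} {X Y X' Y' : Set M} (σ : M) (T : To g X Y) (hX : ∀ w ∈ X, σ⁻¹ * w ∈ X')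
    (hY : ∀ w ∈ Y, σ⁻¹ * w ∈ Y') : To (σ⁻¹ * g * σ) X' Y' := fun y => by
  filter_upwards [T (σ * y)] with n hn
  have e : (σ⁻¹ * g * σ) ^ n = σ⁻¹ * g ^ n * σ := by
    simpa using conj_pow (a := σ⁻¹) (b := g) (i := n)
  rw [e]
  constructor
  · simpa only [mul_assoc] using hX _ hn.1
  · simpa only [mul_inv_rev, inv_inv, mul_assoc] using hY _ hn.2

/-- A translate of the half space that lies between the two walls next to a gate. -/
theorem mid (h1 : HfStmt) (h2 : NcStmt) {t : W} (ht : t ∈ Subgroup.closure {wq, wv, wh})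
    (c1 : t ∉ Subgroup.closure {wq, wv}) (c2 : wh * t ∉ Subgroup.closure {wq, wv}) {w : W}
    (hw : w ∈ A) : wU⁻¹ * (t * w) ∈ Mid ∧ (wU⁻¹ * (t * w) ∈ Q ↔ t ∈ Q) := by
  have H := h1 _ _ _ _ _ cox
  have H' := h1 _ _ _ _ _ cox.symm
  have R := cox.rel
  have e : wU⁻¹ = wa * wh := by
    rw [wU, mul_inv_rev, inv_eq_of_mul_eq_one_right R.aa, inv_eq_of_mul_eq_one_right R.hh]
  refine ⟨⟨?_, ?_⟩, ?_⟩
  · rw [mul_inv_cancel_left]
    exact H.dis t ht c1 w hw
  · rw [e, mul_assoc, ← mul_assoc wh]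
    exact (H.flip _).2 (H.dis _ (mul_mem (Subgroup.subset_closure (by simp)) ht) c2 w hw)
  · rw [e]
    exact (H'.cinv _ (mul_mem (Subgroup.subset_closure (by simp))
      (Subgroup.subset_closure (by simp))) _).trans ((h2 _ _ _ _ _ cox t ht c1 c2).2 w hw)

theorem site (h1 : HfStmt) (h2 : NcStmt) {g b u : W} (T : To g {w | b⁻¹ * w ∈ A} A)
    (hb : b ∈ Subgroup.closure {wq, wv, wh}) (hu : u ∈ Subgroup.closure {wq, wv, wh})
    (c1 : u ∉ Subgroup.closure {wq, wv}) (c2 : wh * u ∉ Subgroup.closure {wq, wv})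
    (c3 : u * b ∉ Subgroup.closure {wq, wv}) (c4 : wh * (u * b) ∉ Subgroup.closure {wq, wv})
    {X Y : Set W} (hX : ∀ w, (w ∈ Q ↔ u * b ∈ Q) → w ∈ X) (hY : ∀ w, (w ∈ Q ↔ u ∈ Q) → w ∈ Y) :
    To ((u⁻¹ * wU)⁻¹ * g * (u⁻¹ * wU)) (Mid ∩ X) (Mid ∩ Y) := by
  refine to_conj _ T (fun w hw => ?_) fun w hw => ?_
  · have := mid h1 h2 (mul_mem hu hb) c3 c4 hw
    rw [mul_assoc u, mul_inv_cancel_left] at this
    rw [mul_inv_rev, inv_inv, mul_assoc]
    exact ⟨this.1, hX _ this.2⟩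
  · have := mid h1 h2 hu c1 c2 hw
    rw [mul_inv_rev, inv_inv, mul_assoc]
    exact ⟨this.1, hY _ this.2⟩

end D2

theorem d2 (h1 : HfStmt) (h2 : NcStmt) (h3 : BridgeStmt) : D2Stmt := by
  intro g γ l b hl hb hn e
  obtain ⟨l1, l2, rfl⟩ := List.append_of_mem hb
  have R := cox.rel
  have T := D2.tails R (h1 _ _ _ _ _ cox) (b := b) (l := l2 ++ l1) fun c hc => hl c (by
    simp only [List.mem_cons, List.mem_append] at hc ⊢
    tauto)
  obtain ⟨γ', e'⟩ : ∃ γ' : W, γ'⁻¹ * g * γ' = ((b :: (l2 ++ l1)).map (· * wa)).prod :=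
    ⟨γ * (l1.map (· * wa)).prod, by
      rw [mul_inv_rev, mul_assoc, mul_assoc, ← mul_assoc g, ← mul_assoc γ⁻¹, ← mul_assoc γ⁻¹, e]
      simp only [List.map_append, List.prod_append, List.map_cons, List.prod_cons, mul_assoc,
        inv_mul_cancel_left]⟩
  rw [← e'] at T
  obtain ⟨u, hu, c1, c2, c3, c4, s1, s2⟩ := h3 _ _ _ _ _ cox b (hl b hb).1 (hl b hb).2 hn
  have k : ∀ σ : W, (γ' * σ)⁻¹ * g * (γ' * σ) = σ⁻¹ * (γ'⁻¹ * g * γ') * σ := fun σ => by group
  rcases Int.units_eq_one_or (det (γ' * (u⁻¹ * wU))) with d | d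
  · refine ⟨_, d, Or.inl ?_⟩
    rw [k]
    exact D2.site h1 h2 T (hl b hb).1 hu c1 c2 c3 c4 (fun w hw => hw.2 s2)
      fun w hw hq => s1 (hw.1 hq)
  · have hq : wq ∈ Subgroup.closure {wq, wv} := Subgroup.subset_closure (by simp)
    have f := (h1 _ _ _ _ _ cox.symm).flip
    have m : ∀ t, t ∉ Subgroup.closure {wq, wv} → wq * t ∉ Subgroup.closure {wq, wv} :=
      fun t ht e => ht ((Subgroup.mul_mem_cancel_left _ hq).1 e)
    have m' : ∀ t, wh * (wq * t) = wq * (wh * t) := fun t => by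
      rw [← mul_assoc, ← R.qh, mul_assoc]
    refine ⟨γ' * ((wq * u)⁻¹ * wU), ?_, Or.inr ?_⟩
    · simp only [map_mul, map_inv, mul_inv_rev, det_q] at d ⊢
      rw [mul_right_comm, ← mul_assoc, d]
      rfl
    · rw [k]
      refine D2.site h1 h2 T (hl b hb).1 (mul_mem (Subgroup.subset_closure (by simp)) hu) (m _ c1)
        (by rw [m']; exact m _ c2) (by rw [mul_assoc]; exact m _ c3)
        (by rw [mul_assoc, m']; exact m _ c4) (fun w hw hq => ?_) fun w hw => hw.2 ((f u).2 s1)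
      have := hw.1 hq
      rw [mul_assoc] at this
      exact (f _).1 this s2

end Pool.Agent.MP_7ebdba_gt.w
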