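import Pool.Agent.MP_7ebdba_gt.w.Spec

/-! Elliptic elements. -/

namespace Pool.Agent.MP_7ebdba_gt.w

namespace D3

theorem inv_a : wa⁻¹ = wa := inv_eq_of_mul_eq_one_right relW_rel.aa
theorem inv_q : wq⁻¹ = wq := inv_eq_of_mul_eq_one_right relW_rel.qq
theorem inv_v : wv⁻¹ = wv := inv_eq_of_mul_eq_one_right relW_rel.vv
theorem inv_h : wh⁻¹ = wh := inv_eq_of_mul_eq_one_right relW_rel.hh
theorem aa (x : W) : wa * (wa * x) = x := by rw [← mul_assoc, relW_rel.aa, one_mul]
theorem qq (x : W) : wq * (wq * x) = x := by rw [← mul_assoc, relW_rel.qq, one_mul]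
theorem vv (x : W) : wv * (wv * x) = x := by rw [← mul_assoc, relW_rel.vv, one_mul]
theorem hh (x : W) : wh * (wh * x) = x := by rw [← mul_assoc, relW_rel.hh, one_mul]
theorem qh (x : W) : wq * (wh * x) = wh * (wq * x) := by rw [← mul_assoc, relW_rel.qh, mul_assoc]

theorem det_conj (g γ : W) : det (γ⁻¹ * g * γ) = det g := by
  rw [map_mul, map_mul, map_inv, inv_mul_cancel_comm]

theorem cj_mul (g γ δ : W) : (γ * δ)⁻¹ * g * (γ * δ) = δ⁻¹ * (γ⁻¹ * g * γ) * δ := by
  simp only [mul_inv_rev, mul_assoc]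

/-- a word in `R` and `h R h` -/
def pv (l : List Bool) : W := (l.map fun b => cond b (wh * wR * wh) wR).prod

theorem pv_cons (b : Bool) (l : List Bool) : pv (b :: l) = cond b (wh * wR * wh) wR * pv l := rfl

theorem det_R : det wR = 1 := by simp [wR]

theorem det_pv (l : List Bool) : det (pv l) = 1 := by
  induction l with
  | nil => exact map_one _
  | cons b l ih => rw [pv_cons, map_mul, ih]; cases b <;> simp [det_R]

theorem h_pv (l : List Bool) : wh * pv l = pv (l.map not) * wh := by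
  induction l with
  | nil => simp [pv]
  | cons b l ih =>
    rw [List.map_cons, pv_cons, pv_cons, mul_assoc _ (pv _) wh, ← ih]
    cases b <;> simp [mul_assoc, hh]

theorem t0 {g : W} (γ : W) (h : γ⁻¹ * g * γ ∈ [1, wa * wq, wa * wv, wq * wh, wv * wh, wh * wv]) :
    T0 g := by
  rcases Int.units_eq_one_or (det γ) with e | e
  · exact ⟨γ, e, h⟩
  simp only [List.mem_cons, List.not_mem_nil, or_false] at h
  rcases h with h | h | h | h | h | h
  · exact ⟨γ * wq, by simp [e], by rw [cj_mul, h]; simp⟩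
  · exact ⟨γ * wa, by simp [e], by rw [cj_mul, h, inv_a, aa, ← relW_rel.aq]; simp⟩
  · exact ⟨γ * wa, by simp [e], by rw [cj_mul, h, inv_a, aa, ← relW_rel.av]; simp⟩
  · exact ⟨γ * wq, by simp [e], by rw [cj_mul, h, inv_q, qq, ← relW_rel.qh]; simp⟩
  · exact ⟨γ * wv, by simp [e], by rw [cj_mul, h, inv_v, vv]; simp⟩
  · exact ⟨γ * wh, by simp [e], by rw [cj_mul, h, inv_h, hh]; simp⟩

theorem p2 {g : W} (γ : W) {l : List Bool} (hl : l ≠ []) (h : γ⁻¹ * g * γ = pv l) : P2 g := by
  rcases Int.units_eq_one_or (det γ) with e | e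
  · exact ⟨γ, e, l, hl, h⟩
  · refine ⟨γ * wh, by simp [e], l.map not, by simpa using hl, ?_⟩
    rw [cj_mul, h, inv_h, h_pv, mul_assoc, relW_rel.hh, mul_one]
    rfl

theorem s3 {x : W} (hx : x ∈ Subgroup.closure {wv, wh}) :
    x = 1 ∨ x = wh ∨ x = wv ∨ x = wv * wh ∨ x = wh * wv ∨ x = wh * wv * wh := by
  have key : ∀ x y : W, y ∈ ({wv, wh} : Set W) →
      (x = 1 ∨ x = wh ∨ x = wv ∨ x = wv * wh ∨ x = wh * wv ∨ x = wh * wv * wh) →
      (y * x = 1 ∨ y * x = wh ∨ y * x = wv ∨ y * x = wv * wh ∨ y * x = wh * wv ∨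
        y * x = wh * wv * wh) := by
    have e1 : wv * (wh * wv) = wh * wv * wh := by rw [← mul_assoc, relW_rel.vh]
    have e2 : wv * (wh * wv * wh) = wh * wv := by rw [← e1, vv]
    have e3 : wh * (wh * wv * wh) = wv * wh := by rw [mul_assoc, hh]
    rintro x y (rfl | rfl) (rfl | rfl | rfl | rfl | rfl | rfl)
    · simp
    · simp
    · simp [relW_rel.vv]
    · simp [vv]
    · simp [e1]
    · simp [e2]
    · simp
    · simp [relW_rel.hh]
    · simp
    · simp [mul_assoc]
    · simp [hh]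
    · simp [e3]
  induction hx using Subgroup.closure_induction_left with
  | one => exact Or.inl rfl
  | mul_left y hy x _ ih => exact key x y hy ih
  | inv_mul_cancel y hy x _ ih =>
    refine key x y⁻¹ ?_ ih
    rcases hy with rfl | rfl
    · rw [inv_v]; simp
    · rw [inv_h]; simp

theorem zh {x : W} (hx : x ∈ Subgroup.zpowers wh) : x = 1 ∨ x = wh := by
  obtain ⟨n, rfl⟩ := Subgroup.mem_zpowers_iff.1 hx
  have e : wh ^ (2 : ℤ) = 1 := by rw [zpow_two, relW_rel.hh]
  obtain ⟨k, rfl | rfl⟩ := Int.even_or_odd' n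
  · left; rw [zpow_mul, e, one_zpow]
  · right; rw [zpow_add_one, zpow_mul, e, one_zpow, one_mul]

theorem word (l : List W)
    (hl : ∀ b ∈ l, b ∈ Subgroup.closure {wv, wh} ∧ b ∉ Subgroup.zpowers wh) :
    ∃ k : List Bool, k.length = l.length ∧ (wq * (l.map (· * wq)).prod * wq = pv k ∨
      wq * (l.map (· * wq)).prod * wq = pv k * wh) := by
  induction l with
  | nil => exact ⟨[], rfl, Or.inl (by simp [pv, relW_rel.qq])⟩
  | cons b l ih =>
    obtain ⟨k, e, h⟩ := ih fun x hx => hl x (List.mem_cons_of_mem _ hx)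
    obtain ⟨h1, h2⟩ := hl b List.mem_cons_self
    have e0 : wq * ((b :: l).map (· * wq)).prod * wq = wq * b * (wq * (l.map (· * wq)).prod * wq) := by
      simp [mul_assoc]
    have step : ∀ c : Bool, (wq * b = cond c (wh * wR * wh) wR ∨
        wq * b = cond c (wh * wR * wh) wR * wh) → ∃ k : List Bool, k.length = (b :: l).length ∧
        (wq * ((b :: l).map (· * wq)).prod * wq = pv k ∨
          wq * ((b :: l).map (· * wq)).prod * wq = pv k * wh) := by
      rintro c (hc | hc)
      · refine ⟨c :: k, by simp [e], ?_⟩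
        rw [e0, hc, pv_cons, mul_assoc _ (pv k)]
        exact h.imp (congrArg _) (congrArg _)
      · refine ⟨c :: k.map not, by simp [e], ?_⟩
        rw [e0, hc, pv_cons, mul_assoc _ (pv _), mul_assoc _ wh, ← h_pv]
        refine h.symm.imp (fun h => congrArg _ ?_) fun h => by rw [h]
        rw [h, ← mul_assoc, h_pv, mul_assoc, relW_rel.hh, mul_one]
    rcases s3 h1 with rfl | rfl | rfl | rfl | rfl | rfl
    · exact absurd (one_mem _) h2
    · exact absurd (Subgroup.mem_zpowers _) h2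
    · exact step false (Or.inl rfl)
    · exact step false (Or.inr (mul_assoc ..).symm)
    · exact step true (Or.inr (by simp [wR, mul_assoc, qh, relW_rel.hh]))
    · exact step true (Or.inl (by simp [wR, mul_assoc, qh]))

theorem rot (n m : ℤ) : (wR ^ m)⁻¹ * (wR ^ n * wq * wa) * wR ^ m = wR ^ (n - 2 * m) * wq * wa := by
  have e1 : Commute wa wR := Commute.mul_right relW_rel.aq relW_rel.av
  have e2 : SemiconjBy wq wR wR⁻¹ := by
    simp [SemiconjBy, wR, qq, inv_q, inv_v, mul_assoc, relW_rel.qq]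
  have e3 : wq * wR ^ m = wR⁻¹ ^ m * wq := e2.zpow_right m
  rw [mul_assoc, mul_assoc, (e1.zpow_right m).eq, mul_assoc, ← mul_assoc wq, e3]
  group

end D3

open D3 in
theorem d3 (h1 : HfStmt) (h2 : CycStmt) : D3Stmt := by
  rintro g γ hg (h | ⟨c, hc, h⟩)
  · obtain ⟨δ, -, h⟩ := h2 W wq (Subgroup.closure {wv, wh}) (Subgroup.zpowers wh) relW_rel.qq
      (fun c hc => by rcases zh hc with rfl | rfl; exacts [by simp, relW_rel.qh]) (γ⁻¹ * g * γ)
      ((Subgroup.closure_le _).2 (by
        rintro x (rfl | hx)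
        · exact Subgroup.mem_sup_right (Subgroup.mem_zpowers _)
        · exact Subgroup.mem_sup_left (Subgroup.subset_closure hx)) h)
    rw [← cj_mul] at h
    have hd := (det_conj g (γ * δ)).trans hg
    rcases h with h | ⟨c, -, hc, h⟩ | ⟨l, hl, hb, h⟩
    · refine Or.inl (t0 (γ * δ) ?_)
      rcases s3 h with e | e | e | e | e | e <;> rw [e] at hd ⊢ <;> simp at hd ⊢
    · refine Or.inl (t0 (γ * δ) ?_)
      rw [h] at hd ⊢
      rcases zh hc with rfl | rfl
      · simp at hd
      · simp [relW_rel.qh]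
    · obtain ⟨k, e, hk⟩ := word l hb
      rw [← h, ← congrArg (· * _ * wq) inv_q, ← cj_mul] at hk
      rcases hk with hk | hk
      · exact Or.inr (p2 _ (fun e' => hl (List.length_eq_zero_iff.1 (by rw [← e, e']; rfl))) hk)
      · have := (det_conj g (γ * δ * wq)).trans hg
        rw [hk] at this
        simp [det_pv] at this
  · left
    have hd := (det_conj g γ).trans hg
    obtain ⟨n, rfl | rfl⟩ := (h1 W _ _ _ _ cox).nfC c hc
    · rw [h] at hd
      simp at hd
    have e : ∀ m : ℤ, (γ * wR ^ m)⁻¹ * g * (γ * wR ^ m) = wR ^ (n - 2 * m) * wq * wa := fun m => by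
      rw [cj_mul, h]; exact rot n m
    obtain ⟨m, rfl | rfl⟩ := Int.even_or_odd' n
    · exact t0 (γ * wR ^ m) (by rw [e, sub_self, zpow_zero, one_mul, ← relW_rel.aq]; simp)
    · refine t0 (γ * wR ^ m * wq) ?_
      rw [cj_mul, e, add_sub_cancel_left, zpow_one, inv_q, wR]
      simp only [mul_assoc, qq, relW_rel.aq]
      simp [relW_rel.av]

end Pool.Agent.MP_7ebdba_gt.w
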