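import Pool.Agent.MP_7ebdba_gt.w.Spec
import Pool.Agent.MP_7ebdba_gt.ge.Words

/-! The surface group inside the rotation group. -/

namespace Pool.Agent.MP_7ebdba_gt.w

namespace EmbP

open ge.W

theorem oo' (x : G) : go * (go * x) = x := by rw [← mul_assoc, relG_rel.oo, one_mul]

theorem oi : go⁻¹ = go := inv_eq_of_mul_eq_one_right relG_rel.oo

theorem Ui : gU⁻¹ = go * gU * go := inv_eq_of_mul_eq_one_left relG_rel.oU

theorem Ri : gR⁻¹ = go * gR * go := inv_eq_of_mul_eq_one_left relG_rel.oR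

/-- from the presentation by three involutions -/
def e : ge.G →* G :=
  ge.lift (gU * go) go (go * gR)
    (by rw [mul_eq_one_iff_eq_inv, mul_inv_rev, Ui, oi]; simp only [mul_assoc, oo'])
    relG_rel.oo (by simpa only [mul_assoc] using relG_rel.oR)
    (by
      have k : gU * go * go * (go * gR) = go * (gR * go * gU)⁻¹ * go⁻¹ := by
        simp only [mul_inv_rev, Ui, Ri, oi, mul_assoc, oo', relG_rel.oo, mul_one]
      rw [k, conj_pow, inv_pow, relG_rel.tri, inv_one, mul_one, mul_inv_cancel])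

theorem e_o : e ge.ro = go := ge.lift_ro
theorem e_U : e ge.U = gU := by simp [e, ge.U, mul_assoc, relG_rel.oo]
theorem e_R : e ge.R = gR := by simp [e, ge.R, oo']

theorem relE : RelG ge.ro ge.R ge.U := by
  refine ⟨ge.gen_sq 1, ?_, ?_, ?_⟩
  · simp [ge.R, mul_assoc, ge.gen_sq]
  · simp [ge.U, mul_assoc, ge.gen_sq]
  · have : evG [1, 2, 1, 0, 1, 1, 2, 1, 0, 1, 1, 2, 1, 0, 1] = evG [] := eqG (by decide +kernel)
    simpa [evG, ge.R, ge.U, pow_succ, mul_assoc] using this

theorem ext' {M : Type} [Group M] {f f' : ge.G →* M} (h1 : f ge.ro = f' ge.ro)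
    (h2 : f ge.R = f' ge.R) (h3 : f ge.U = f' ge.U) : f = f' := by
  refine ge.hom_ext fun i => ?_
  fin_cases i
  · have : ge.gen 0 = ge.U * ge.ro := by simp [ge.U, mul_assoc, ge.gen_sq]
    change f (ge.gen 0) = f' (ge.gen 0)
    rw [this, map_mul, map_mul, h1, h3]
  · exact h1
  · have : ge.gen 2 = ge.ro * ge.R := by simp [ge.R]
    change f (ge.gen 2) = f' (ge.gen 2)
    rw [this, map_mul, map_mul, h1, h2]

theorem e_inj : Function.Injective e := by
  have : (liftG relE).comp e = MonoidHom.id _ := by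
    obtain ⟨h1, h2, h3⟩ := liftG_gen relE
    exact ext' (by simp [e_o, h1]) (by simp [e_R, h2]) (by simp [e_U, h3])
  exact Function.LeftInverse.injective (g := liftG relE) (DFunLike.congr_fun this)

theorem e_surj : Function.Surjective e := by
  have : e.comp (liftG relE) = MonoidHom.id _ := by
    obtain ⟨h1, h2, h3⟩ := liftG_gen relE
    exact extG (by simp [e_o, h1]) (by simp [e_R, h2]) (by simp [e_U, h3])
  exact fun y => ⟨liftG relE y, DFunLike.congr_fun this y⟩

theorem chi_e (x : ge.G) : chi (e x) = ge.cls x := by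
  have : chi.comp e = ge.cls := by
    refine ext' ?_ ?_ ?_
    · simp [e_o, ge.cls]
    · rw [MonoidHom.comp_apply, e_R, chi_R, ge.R, map_mul, cls_gen, cls_gen]
      decide
    · rw [MonoidHom.comp_apply, e_U, chi_U, ge.U, map_mul, cls_gen, cls_gen]
      decide
  exact DFunLike.congr_fun this x

theorem kill {M : Type} [Group M] (μ : ge.G →* M)
    (e2 : ∀ x, μ (ge.gen 1) * (μ (ge.gen 2) * (μ (ge.gen 1) * x)) = μ (ge.gen 2) * x) (y : S 2)
    (h : r0 y = 1) : μ (iota y) = 1 := by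
  have e : μ.comp iota = (FreeGroup.lift ![μ (evG (io 0)), μ (evG (io 1))]).comp r0 := by
    refine Pool.Agent.MP_7ebdba_gt.hom_ext fun x => ?_
    have h1 : r0 (mk 2 (FreeGroup.of x)) = FreeGroup.of (if x.2 then Fin.rev x.1 else x.1) :=
      FreeGroup.lift_apply_of
    rw [MonoidHom.comp_apply, MonoidHom.comp_apply, h1, FreeGroup.lift_apply_of]
    refine (congrArg μ (iotaF_of x)).trans ?_
    obtain ⟨i, b⟩ := x
    fin_cases i <;> cases b
    · rfl
    · rfl
    · change μ (evG [1, 0, 1, 2, 1, 0, 1, 1, 2, 1]) = μ (evG [1, 0, 2, 0, 1, 2])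
      simp only [evG_cons, map_mul, e2]
    · change μ (evG [0, 1, 0, 1, 0, 1, 1, 2, 1]) = μ (evG [0, 1, 0, 1, 0, 1, 2])
      simp only [evG_cons, map_mul, e2]
  have := DFunLike.congr_fun e y
  rwa [MonoidHom.comp_apply, MonoidHom.comp_apply, h, map_one] at this

theorem cls_k : ge.cls (wT * th wT) = 1 := by
  have hc : ∀ w, ge.cls (evG w) = (w.map cl).prod := fun w => by
    rw [evG, map_list_prod, List.map_map]
    exact congrArg (fun f => (w.map f).prod) (funext cls_gen)
  rw [wT, map_evG th _ th_gen, ← evG_append, hc]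
  decide +kernel

end EmbP

open EmbP in
theorem emb : EmbStmt := by
  intro j t2 th hj ht
  obtain ⟨k, hk⟩ := (ge.W.iota_range _).1 cls_k
  have h2 : ∀ x, e (ge.W.t2 x) = t2 (e x) := by
    have : e.comp ge.W.t2 = t2.toMonoidHom.comp e := by
      refine ext' ?_ ?_ ?_
      · have : ge.W.t2 ge.ro = ge.U⁻¹ * ge.ro := by
          simp [ge.W.t2_gen, ge.W.evG, ge.U, mul_assoc]
        simp [this, e_o, e_U, ht.t2o]
      · simp [ge.W.t2_R, e_R, e_U, ht.t2R]
      · simp [ge.W.t2_U, e_U, ht.t2U]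
    exact DFunLike.congr_fun this
  have h3 : ∀ x, e (ge.W.th x) = th (e x) := by
    have : e.comp ge.W.th = th.toMonoidHom.comp e := by
      refine ext' ?_ ?_ ?_
      · have : ge.W.th ge.ro = ge.ro := by simp [ge.W.th_gen, ge.W.evG]
        simp [this, e_o, ht.tho]
      · simp [ge.W.th_R, e_R, ht.thR]
      · simp [ge.W.th_U, e_U, e_R, ht.thU]
    exact DFunLike.congr_fun this
  refine ⟨e.comp ge.W.iota, Tinf⁻¹ * MulAut.conj k⁻¹ * Tau ^ 2, e_inj.comp ge.W.iota_inj,
    fun x => ?_, fun g => ?_, ?_, fun g => ?_, fun κ ka kq kv kh g hg => ?_⟩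
  · obtain ⟨x, rfl⟩ := e_surj x
    rw [chi_e, ge.W.iota_range]
    exact ⟨fun ⟨y, hy⟩ => ⟨y, congrArg e hy⟩, fun ⟨y, hy⟩ => ⟨y, e_inj hy⟩⟩
  · simp [ge.W.iota_Phi, e_U]
  · exact mul_mem (mul_mem (inv_mem (Subgroup.subset_closure (Or.inl (Or.inl rfl))))
      (Subgroup.subset_closure (Or.inr ⟨_, rfl⟩))) (Subgroup.subset_closure (Or.inl (Or.inr rfl)))
  · have : ge.W.iota (MulAut.conj k⁻¹ ((Tau ^ 2) g)) = ge.W.th (ge.W.th (ge.W.iota g)) := by
      rw [MulAut.conj_apply, map_mul, map_mul, inv_inv, map_inv, hk, sq, MulAut.mul_apply,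
        ge.W.iota_Tau, ge.W.iota_Tau]
      simp [mul_assoc]
    rw [MonoidHom.comp_apply, MonoidHom.comp_apply, MulAut.mul_apply, MulAut.mul_apply,
      ge.W.iota_Tinf, this, h2, h3, h3]
    rfl
  · refine kill (κ.comp (j.comp e)) (fun x => ?_) g hg
    have e1 : κ (j (e (ge.gen 1))) = wa := by
      rw [e_o, hj.o, map_mul, ka, kq, mul_one]
    have e2 : κ (j (e (ge.gen 2))) = wa * wv := by
      rw [show e (ge.gen 2) = go * gR from ge.lift_nu, map_mul, hj.o, hj.R, wR]
      simp [ka, kq, kv]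
    simp only [MonoidHom.comp_apply, e1, e2]
    rw [← mul_assoc, ← mul_assoc, ← mul_assoc, relW_rel.aa, one_mul, relW_rel.av]

end Pool.Agent.MP_7ebdba_gt.w
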