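import Pool.Agent.MP_7ebdba_gt.w.Spec

/-! Half spaces of the Coxeter group. -/

open Filter

namespace Pool.Agent.MP_7ebdba_gt.w

open ch ge Subgroup

namespace HF

variable {W : Type} [Group W] {a q v h : W}

theorem ind_right {S : Set W} (hS : ∀ s ∈ S, s * s = 1) {p : W → Prop} (h1 : p 1)
    (hs : ∀ x ∈ closure S, ∀ s ∈ S, p x → p (x * s)) {x : W} (hx : x ∈ closure S) : p x := by
  induction hx using closure_induction_right with
  | one => exact h1
  | mul_right x hx y hy ih => exact hs x hx y hy ih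
  | mul_inv_cancel x hx y hy ih =>
    rw [inv_eq_of_mul_eq_one_right (hS y hy)]
    exact hs x hx y hy ih

theorem indW (H : Cox a q v h) {p : W → Prop} (h1 : p 1) (ha : ∀ x, p x → p (x * a))
    (hq : ∀ x, p x → p (x * q)) (hv : ∀ x, p x → p (x * v)) (hh : ∀ x, p x → p (x * h)) (x : W) :
    p x := by
  refine ind_right (S := {a, q, v, h}) ?_ h1 ?_ (H.gen ▸ mem_top x)
  · rintro s (rfl | rfl | rfl | rfl)
    exacts [H.rel.aa, H.rel.qq, H.rel.vv, H.rel.hh]
  · rintro x - s (rfl | rfl | rfl | rfl)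
    exacts [ha x, hq x, hv x, hh x]

theorem indC (H : Rel a q v h) {p : W → Prop} (h1 : p 1) (hq : ∀ x, p x → p (x * q))
    (hv : ∀ x, p x → p (x * v)) {x : W} (hx : x ∈ closure {q, v}) : p x := by
  refine ind_right ?_ h1 ?_ hx
  · rintro s (rfl | rfl)
    exacts [H.qq, H.vv]
  · rintro x - s (rfl | rfl)
    exacts [hq x, hv x]

theorem comm (H : Rel a q v h) {c : W} (hc : c ∈ closure {q, v}) : a * c = c * a :=
  indC H (p := fun c => a * c = c * a) (by simp)
    (fun x e => by rw [← mul_assoc, e, mul_assoc, H.aq, mul_assoc])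
    (fun x e => by rw [← mul_assoc, e, mul_assoc, H.av, mul_assoc]) hc

theorem aZ : a ∈ closure {a, q, v} := subset_closure (by simp)
theorem qZ : q ∈ closure {a, q, v} := subset_closure (by simp)
theorem vZ : v ∈ closure {a, q, v} := subset_closure (by simp)
theorem qC : q ∈ closure {q, v} := subset_closure (by simp)
theorem vC : v ∈ closure {q, v} := subset_closure (by simp)
theorem CZ : closure {q, v} ≤ closure {a, q, v} := closure_mono (Set.subset_insert _ _)
theorem CB : closure {q, v} ≤ closure {q, v, h} :=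
  closure_mono (Set.insert_subset_insert (by simp))

theorem memZ (H : Rel a q v h) {z : W} (hz : z ∈ closure {a, q, v}) :
    z ∈ closure {q, v} ∨ a * z ∈ closure {q, v} := by
  refine ind_right (p := fun z => z ∈ closure {q, v} ∨ a * z ∈ closure {q, v}) ?_
    (Or.inl (one_mem _)) ?_ hz
  · rintro s (rfl | rfl | rfl)
    exacts [H.aa, H.qq, H.vv]
  · rintro x - s (rfl | rfl | rfl) (e | e)
    · right
      rwa [← mul_assoc, comm H e, mul_assoc, H.aa, mul_one]
    · left
      have := comm H e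
      rw [← mul_assoc, H.aa, one_mul] at this
      rwa [this, mul_assoc, H.aa, mul_one]
    · exact Or.inl (mul_mem e qC)
    · exact Or.inr (mul_assoc a x s ▸ mul_mem e qC)
    · exact Or.inl (mul_mem e vC)
    · exact Or.inr (mul_assoc a x s ▸ mul_mem e vC)

omit [Group W] in
theorem ind_congr {H : Set W} {x y : W} (e : x ∈ H ↔ y ∈ H) : ind H x = ind H y := by
  unfold ind
  rw [propext e]

/-- the crossing number with the wall of `a` -/
structure Num (a q v h : W) (n : W → ZMod 2) : Prop where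
  one : n 1 = 0
  sa : ∀ w, n (w * a) = n w + ind (closure {a, q, v} : Subgroup W) w
  sq : ∀ w, n (w * q) = n w
  sv : ∀ w, n (w * v) = n w
  sh : ∀ w, n (w * h) = n w

/-- right multiplication by an involution, with a cocycle -/
def act (s : W) (hs : s * s = 1) (c : W → ZMod 2) (hc : ∀ x, c (x * s) = c x) :
    Equiv.Perm (W × ZMod 2) :=
  Function.Involutive.toPerm (fun p => (p.1 * s, p.2 + c p.1)) fun p => by
    simp only [mul_assoc, hs, mul_one, hc, add_assoc, CharTwo.add_self_eq_zero, add_zero]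

theorem act_apply (s : W) (hs : s * s = 1) (c : W → ZMod 2) (hc : ∀ x, c (x * s) = c x)
    (p : W × ZMod 2) : act s hs c hc p = (p.1 * s, p.2 + c p.1) := rfl

theorem exists_num (H : Cox a q v h) : ∃ n, Num a q v h n := by
  have R := H.rel
  have k : ∀ s ∈ closure {a, q, v}, ∀ x, ind (closure {a, q, v} : Subgroup W) (x * s) =
      ind (closure {a, q, v} : Subgroup W) x := fun s hs x =>
    ind_congr (Subgroup.mul_mem_cancel_right _ hs)
  obtain ⟨f, fa, fq, fv, fh⟩ := H.lift _ (act a R.aa _ (k a aZ)) (act q R.qq 0 fun _ => rfl)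
    (act v R.vv 0 fun _ => rfl) (act h R.hh 0 fun _ => rfl) (by
      constructor <;> refine Equiv.ext fun p => ?_ <;>
        simp [act_apply, mul_assoc, R.aa, R.qq, R.vv, R.hh, R.aq, R.av, R.qh, k a aZ, k q qZ,
          k v vZ, add_assoc, CharTwo.add_self_eq_zero]
      simpa only [mul_assoc] using R.vh)
  have st : ∀ s w, s * s = 1 → f (w * s)⁻¹ (1, 0) = f s (f w⁻¹ (1, 0)) := fun s w hs => by
    rw [mul_inv_rev, inv_eq_of_mul_eq_one_right hs, map_mul, Equiv.Perm.mul_apply]
  have e : ∀ w, (f w⁻¹ (1, 0)).1 = w := indW H (by simp)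
    (fun x e => by rw [st a x R.aa, fa, act_apply, e])
    (fun x e => by rw [st q x R.qq, fq, act_apply, e])
    (fun x e => by rw [st v x R.vv, fv, act_apply, e])
    fun x e => by rw [st h x R.hh, fh, act_apply, e]
  exact ⟨fun w => (f w⁻¹ (1, 0)).2, by simp, fun x => by rw [st a x R.aa, fa, act_apply, e],
    fun x => by rw [st q x R.qq, fq, act_apply]; simp,
    fun x => by rw [st v x R.vv, fv, act_apply]; simp,
    fun x => by rw [st h x R.hh, fh, act_apply]; simp⟩

theorem behC (H : Rel a q v h) {w c : W} (hw : Beh a q v h w) (hc : c ∈ closure {q, v}) :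
    Beh a q v h (w * c) :=
  indC H (p := fun c => Beh a q v h (w * c)) (by rwa [mul_one])
    (fun x e => mul_assoc w x q ▸ e.sq) (fun x e => mul_assoc w x v ▸ e.sv) hc

theorem beh_or (H : Cox a q v h) (w : W) : Beh a q v h w ∨ Beh a q v h (a * w) := by
  refine indW H (p := fun w => Beh a q v h w ∨ Beh a q v h (a * w))
    (Or.inr (by rw [mul_one]; exact .base)) (fun x e => ?_)
    (fun x e => e.imp .sq fun e => mul_assoc a x q ▸ e.sq)
    (fun x e => e.imp .sv fun e => mul_assoc a x v ▸ e.sv)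
    (fun x e => e.imp .sh fun e => mul_assoc a x h ▸ e.sh) w
  by_cases c : x ∈ closure {a, q, v}
  · rcases memZ H.rel (mul_mem c aZ) with k | k
    · exact Or.inr (behC H.rel .base k)
    · have := behC H.rel .base k
      rw [← mul_assoc, H.rel.aa, one_mul] at this
      exact Or.inl this
  · exact e.imp (fun e => e.sa c) fun e =>
      mul_assoc a x a ▸ e.sa fun k => c ((Subgroup.mul_mem_cancel_left _ aZ).1 k)

namespace Num

variable {n : W → ZMod 2} (N : Num a q v h n)
include N

theorem sa_in {w : W} (hw : w ∈ closure {a, q, v}) : n (w * a) = n w + 1 := by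
  rw [N.sa, ind, if_pos (by exact hw)]

theorem sa_out {w : W} (hw : w ∉ closure {a, q, v}) : n (w * a) = n w := by
  rw [N.sa, ind, if_neg (by exact hw), add_zero]

theorem left (H : Cox a q v h) {z : W} (hz : z ∈ closure {a, q, v}) (w : W) :
    n (z * w) = n w + n z :=
  indW H (p := fun w => n (z * w) = n w + n z) (by rw [mul_one, N.one, zero_add])
    (fun x e => by
      rw [← mul_assoc, N.sa, N.sa, e, ind_congr (Subgroup.mul_mem_cancel_left _ hz), add_right_comm])
    (fun x e => by rw [← mul_assoc, N.sq, N.sq, e])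
    (fun x e => by rw [← mul_assoc, N.sv, N.sv, e])
    (fun x e => by rw [← mul_assoc, N.sh, N.sh, e]) w

theorem at_a : n a = 1 := by
  have := N.sa_in (one_mem _)
  rwa [one_mul, N.one, zero_add] at this

theorem of_beh {w : W} (hw : Beh a q v h w) : n w = 1 := by
  induction hw with
  | base => exact N.at_a
  | sa _ c ih => rw [N.sa_out c, ih]
  | sq _ ih => rw [N.sq, ih]
  | sv _ ih => rw [N.sv, ih]
  | sh _ ih => rw [N.sh, ih]

theorem beh_iff (H : Cox a q v h) {w : W} : Beh a q v h w ↔ n w = 1 := by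
  refine ⟨N.of_beh, fun e => (beh_or H w).resolve_right fun c => ?_⟩
  have := N.of_beh c
  rw [N.left H aZ, e, N.at_a] at this
  exact absurd this (by decide)

theorem onB (H : Rel a q v h) {b : W} (hb : b ∈ closure {q, v, h}) : n b = 0 := by
  refine ind_right (p := fun b => n b = 0) ?_ N.one ?_ hb
  · rintro s (rfl | rfl | rfl)
    exacts [H.qq, H.vv, H.hh]
  · rintro x - s (rfl | rfl | rfl) e
    exacts [(N.sq x).trans e, (N.sv x).trans e, (N.sh x).trans e]

theorem memC (H : Cox a q v h) {z : W} (hz : z ∈ closure {a, q, v}) (e : n z ≠ 1) :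
    z ∈ closure {q, v} := by
  refine (memZ H.rel hz).resolve_right fun c => e ?_
  have := N.onB H.rel (CB c)
  rw [N.left H aZ, N.at_a] at this
  generalize n z = t at this
  revert t
  decide

end Num

theorem nfC (H : Rel a q v h) {c : W} (hc : c ∈ closure {q, v}) :
    ∃ n : ℤ, c = (q * v) ^ n ∨ c = (q * v) ^ n * q := by
  refine indC H (p := fun c => ∃ n : ℤ, c = (q * v) ^ n ∨ c = (q * v) ^ n * q)
    ⟨0, Or.inl (zpow_zero _).symm⟩ ?_ ?_ hc
  · rintro _ ⟨n, rfl | rfl⟩
    · exact ⟨n, Or.inr rfl⟩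
    · exact ⟨n, Or.inl (by rw [mul_assoc, H.qq, mul_one])⟩
  · rintro _ ⟨n, rfl | rfl⟩
    · refine ⟨n - 1, Or.inr ?_⟩
      rw [zpow_sub_one, mul_inv_rev, inv_eq_of_mul_eq_one_right H.vv,
        inv_eq_of_mul_eq_one_right H.qq, mul_assoc, mul_assoc, H.qq, mul_one]
    · exact ⟨n + 1, Or.inl (by rw [zpow_add_one, mul_assoc])⟩

theorem notC (H : Cox a q v h) : h ∉ closure {q, v} ∧ v * h ∉ closure {q, v} ∧
    h * v * h ∉ closure {q, v} := by
  obtain ⟨f, -, fq, fv, fh⟩ := H.lift (Equiv.Perm (Fin 3)) 1 1 (Equiv.swap 0 1) (Equiv.swap 1 2)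
    (by constructor <;> decide)
  have k : ∀ c ∈ closure {q, v}, f c 2 = 2 := fun c hc =>
    indC H.rel (p := fun c => f c 2 = 2) (by simp) (fun x e => by rwa [map_mul, fq, mul_one])
      (fun x e => by rwa [map_mul, fv, Equiv.Perm.mul_apply,
        Equiv.swap_apply_of_ne_of_ne (by decide) (by decide)]) hc
  refine ⟨fun c => ?_, fun c => ?_, fun c => ?_⟩ <;> have := k _ c <;>
    simp only [map_mul, fv, fh] at this <;> exact absurd this (by decide)

end HF

open HF in
theorem hf : HfStmt := by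
  intro W _ a q v h H
  classical
  obtain ⟨n, N⟩ := exists_num H
  have R := H.rel
  have notB : ∀ b ∈ closure {q, v, h}, ¬ Beh a q v h b := fun b hb c => by
    have := N.of_beh c
    rw [N.onB R hb] at this
    exact absurd this (by decide)
  have one : ∀ g, (∀ w, Beh a q v h w → Beh a q v h (g⁻¹ * w)) → Beh a q v h g⁻¹ →
      ∀ s ∈ ({a, q, v, h} : Set W), ∀ w, Beh a q v h (w * s) → Beh a q v h (g⁻¹ * w) := by
    intro g h1 h2 s hs w hw
    by_cases c : Beh a q v h w
    · exact h1 w c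
    rw [N.beh_iff H] at c hw
    rcases hs with rfl | rfl | rfl | rfl
    · exact behC R h2 (N.memC H (by_contra fun k => c ((N.sa_out k).symm.trans hw)) c)
    · exact absurd ((N.sq w).symm.trans hw) c
    · exact absurd ((N.sv w).symm.trans hw) c
    · exact absurd ((N.sh w).symm.trans hw) c
  refine ⟨fun w => ?_, fun c hc w => ?_, notB, fun b hb hc w hw => ?_, fun y => ?_, one,
    fun g h1 h2 y => ?_, (notC H).1, (notC H).2, fun c => nfC R⟩
  · rw [N.beh_iff H, N.beh_iff H, N.left H aZ, N.at_a]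
    generalize n w = t
    revert t
    decide
  · rw [N.beh_iff H, N.beh_iff H, N.left H (CZ hc), N.onB R (CB hc), add_zero]
  · rw [N.beh_iff H]
    induction hw with
    | base =>
      rw [N.sa_out fun k => hc (N.memC H k fun e => notB b hb ((N.beh_iff H).2 e)), N.onB R hb]
      decide
    | sa hw _ ih =>
      rw [← mul_assoc, N.sa_out fun k => notB _
        ((Subgroup.mul_mem_cancel_left _ hb).1 (CB (N.memC H k ih))) hw]
      exact ih
    | sq _ ih => rwa [← mul_assoc, N.sq]
    | sv _ ih => rwa [← mul_assoc, N.sv]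
    | sh _ ih => rwa [← mul_assoc, N.sh]
  · simp only [N.beh_iff H]
    refine indW H (p := fun y => ∃ F : Finset W, ∀ x, ¬ (n x = 1 ↔ n (x * y) = 1) →
      ∃ m : ℤ, ∃ f ∈ F, x = (q * v) ^ m * f) ⟨∅, fun x c => absurd (by rw [mul_one]) c⟩ ?_
      (fun y e => by simpa only [← mul_assoc, N.sq] using e)
      (fun y e => by simpa only [← mul_assoc, N.sv] using e)
      (fun y e => by simpa only [← mul_assoc, N.sh] using e) y
    rintro y ⟨F, hF⟩
    refine ⟨F ∪ {y⁻¹, q * y⁻¹, a * y⁻¹, q * a * y⁻¹}, fun x c => ?_⟩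
    by_cases k : x * y ∈ closure {a, q, v}
    · rcases memZ R k with e | e
      · obtain ⟨m, e | e⟩ := nfC R e
        · exact ⟨m, y⁻¹, by simp, eq_mul_inv_of_mul_eq e⟩
        · exact ⟨m, q * y⁻¹, by simp, by rw [← mul_assoc, ← e, mul_inv_cancel_right]⟩
      · have e1 := comm R e
        rw [← mul_assoc, R.aa, one_mul] at e1
        obtain ⟨m, e | e⟩ := nfC R e
        · exact ⟨m, a * y⁻¹, by simp, by rw [← mul_assoc, ← e, ← e1, mul_inv_cancel_right]⟩
        · exact ⟨m, q * a * y⁻¹, by simp, by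
            rw [← mul_assoc, ← mul_assoc, ← e, ← e1, mul_inv_cancel_right]⟩
    · rw [← mul_assoc, N.sa_out k] at c
      obtain ⟨m, f, hf, e⟩ := hF x c
      exact ⟨m, f, Finset.mem_union_left _ hf, e⟩
  · have st : ∀ s ∈ ({a, q, v, h} : Set W), s * s = 1 → ∀ y,
        (∀ᶠ m : ℕ in atTop, ¬ Beh a q v h (g ^ m * y) ∧ Beh a q v h ((g ^ m)⁻¹ * y)) →
        ∀ᶠ m : ℕ in atTop, ¬ Beh a q v h (g ^ m * (y * s)) ∧ Beh a q v h ((g ^ m)⁻¹ * (y * s)) := by
      intro s hs ss y e
      obtain ⟨M, hM⟩ := eventually_atTop.1 e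
      refine eventually_atTop.2 ⟨M + 1, fun m hm => ?_⟩
      obtain ⟨m, rfl⟩ : ∃ k, m = k + 1 := ⟨m - 1, by omega⟩
      obtain ⟨k1, k2⟩ := hM m (by omega)
      refine ⟨fun c => k1 ?_, ?_⟩
      · have := one g h1 h2 s hs _ (mul_assoc _ y s ▸ c)
        rwa [pow_succ', mul_assoc, inv_mul_cancel_left] at this
      · have := one g h1 h2 s hs ((g ^ m)⁻¹ * (y * s))
          (by rwa [mul_assoc, mul_assoc, ss, mul_one])
        rwa [pow_succ, mul_inv_rev, mul_assoc]
    refine indW H (p := fun y => ∀ᶠ m : ℕ in atTop, ¬ Beh a q v h (g ^ m * y) ∧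
      Beh a q v h ((g ^ m)⁻¹ * y)) ?_ (st a (by simp) R.aa) (st q (by simp) R.qq)
      (st v (by simp) R.vv) (st h (by simp) R.hh) y
    refine eventually_atTop.2 ⟨1, fun m hm => ?_⟩
    simp only [mul_one]
    induction m, hm using Nat.le_induction with
    | base =>
      rw [pow_one]
      exact ⟨fun c => notB 1 (one_mem _) (inv_mul_cancel g ▸ h1 g c), h2⟩
    | succ m _ ih =>
      refine ⟨fun c => ih.1 ?_, ?_⟩
      · have := h1 _ c
        rwa [pow_succ', inv_mul_cancel_left] at this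
      · rw [pow_succ, mul_inv_rev]
        exact h1 _ ih.2

end Pool.Agent.MP_7ebdba_gt.w
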