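import Pool.Agent.MP_7ebdba_gt.w.Spec

/-! The nested family along a periodic sequence of blocks. -/

namespace Pool.Agent.MP_7ebdba_gt.w

open ch ge Filter

namespace Ln

/-- a periodic path with steps in a list -/
theorem path {P : Type} [Group P] (γ : P) {l : List P} (hl : l ≠ []) :
    ∃ y : ℤ → P, (∀ n : ℤ, y (n * l.length) = γ * l.prod ^ n) ∧
      (∀ k, ∃ β ∈ l, y (k + 1) = y k * β) ∧
      ∀ k, y (k + l.length) = γ * l.prod * γ⁻¹ * y k := by
  have p0 : (0 : ℤ) < l.length := by exact_mod_cast List.length_pos_of_ne_nil hl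
  refine ⟨fun k => γ * l.prod ^ (k / l.length) * (l.take (k % l.length).toNat).prod,
    fun n => by simp [Int.mul_ediv_cancel _ p0.ne'], fun k => ?_, fun k => ?_⟩
  · obtain ⟨r, hr⟩ := Int.eq_ofNat_of_zero_le (Int.emod_nonneg k p0.ne')
    have h1 : r < l.length := by have := Int.emod_lt_of_pos k p0; omega
    have h2 := Int.mul_ediv_add_emod k l.length
    refine ⟨l[r], List.getElem_mem h1, ?_⟩
    simp only [hr, Int.toNat_natCast]
    rw [mul_assoc _ _ l[r], ← List.prod_take_succ _ _ h1]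
    rcases (Nat.succ_le_of_lt h1).eq_or_lt with e | e
    · have h3 := (Int.ediv_emod_unique (a := k + 1) (r := 0) (q := k / l.length + 1) p0).2
        ⟨by rw [mul_add]; omega, le_rfl, p0⟩
      rw [h3.1, h3.2, show r + 1 = l.length from e, List.take_length, zpow_add_one]
      simp [mul_assoc]
    · have h3 := (Int.ediv_emod_unique (a := k + 1) (r := (r + 1 : ℕ)) (q := k / l.length) p0).2
        ⟨by push_cast; omega, by omega, by exact_mod_cast e⟩
      rw [h3.1, h3.2, Int.toNat_natCast]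
  · simp only [Int.add_emod_right, Int.add_ediv_of_dvd_right (dvd_refl _), Int.ediv_self p0.ne']
    rw [add_comm, zpow_one_add]
    simp [mul_assoc]

/-- the half space moves backwards -/
def Pos (g : W) : Prop := ∀ w ∈ A, g⁻¹ * w ∈ A

theorem Pos.mul {g g' : W} (h : Pos g) (h' : Pos g') : Pos (g * g') := fun w hw => by
  rw [mul_inv_rev, mul_assoc]
  exact h' _ (h w hw)

theorem Pos.pow {g : W} (h : Pos g) : ∀ n : ℕ, Pos (g ^ n)
  | 0 => fun w hw => by simpa using hw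
  | n + 1 => pow_succ g n ▸ (h.pow n).mul h

theorem Pos.not {g w : W} (h : Pos g) (hw : w ∉ A) : g * w ∉ A := fun e =>
  hw (by simpa using h _ e)

theorem Uinv : wU⁻¹ = wa * wh := by
  rw [wU, mul_inv_rev, inv_eq_of_mul_eq_one_right relW_rel.aa,
    inv_eq_of_mul_eq_one_right relW_rel.hh]

theorem Rinv : wR⁻¹ = wv * wq := by
  rw [wR, mul_inv_rev, inv_eq_of_mul_eq_one_right relW_rel.qq,
    inv_eq_of_mul_eq_one_right relW_rel.vv]

theorem R_mem : wR ∈ Subgroup.closure {wq, wv} :=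
  mul_mem (Subgroup.subset_closure (by simp)) (Subgroup.subset_closure (by simp))

theorem h_mem : wh ∈ Subgroup.closure {wq, wv, wh} := Subgroup.subset_closure (by simp)

variable (hf : Hf wa wq wv wh)
include hf

theorem posR : Pos wR := fun w hw => (hf.cinv _ (inv_mem R_mem) w).2 hw

theorem stepU {w : W} (hw : w ∈ A ∨ w ∈ Subgroup.closure {wq, wv}) : wU⁻¹ * w ∈ A := by
  rw [Uinv, mul_assoc]
  exact (hf.flip _).2 (hw.elim (hf.dis _ h_mem hf.hC w) fun e =>
    hf.notB _ (mul_mem h_mem (Subgroup.closure_mono (by grind) e)))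

theorem posU : Pos wU := fun _ hw => stepU hf (.inl hw)

variable {j : G →* W} (m : Mod j)
include m

theorem pw_step : ∀ (l : List Bool) (w : W), (w ∈ A → (j (pw l))⁻¹ * w ∈ A) ∧
    (w ∈ Subgroup.closure {wq, wv} →
      (j (pw l))⁻¹ * w ∈ A ∨ (j (pw l))⁻¹ * w ∈ Subgroup.closure {wq, wv})
  | [], w => by simp [pw]; exact .inr
  | b :: l, w => by
    have e : (j (pw (b :: l)))⁻¹ * w = (j (pw l))⁻¹ * ((cond b wU wR)⁻¹ * w) := by
      cases b <;> simp [pw, m.U, m.R, mul_assoc]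
    rw [e]
    cases b
    · exact ⟨fun hw => (pw_step l _).1 (posR hf w hw),
        fun hw => (pw_step l _).2 (mul_mem (inv_mem R_mem) hw)⟩
    · exact ⟨fun hw => (pw_step l _).1 (posU hf w hw),
        fun hw => .inl ((pw_step l _).1 (stepU hf (.inr hw)))⟩

theorem posW (l : List Bool) : Pos (j (pw l)) := fun w => (pw_step hf m l w).1

theorem blk {β : G} (hβ : Blk β) : Pos (j β) ∧ (j β)⁻¹ ∈ A := by
  obtain ⟨p, r, e, rfl, -⟩ := hβ 1
  have k : Pos (wR * wU ^ (e + 1) * wR * wU * j (pw r)) :=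
    (((((posR hf).mul ((posU hf).pow _)).mul (posR hf)).mul (posU hf))).mul (posW hf m r)
  have e1 : j (pw p * gU * gR * gU ^ (e + 1) * gR * gU * pw r) =
      j (pw p) * wU * (wR * wU ^ (e + 1) * wR * wU * j (pw r)) := by
    simp only [map_mul, map_pow, m.U, m.R, mul_assoc]
  rw [e1]
  refine ⟨((posW hf m p).mul (posU hf)).mul k, ?_⟩
  simpa only [mul_inv_rev, mul_one] using k _ (stepU hf ((pw_step hf m p 1).2 (one_mem _)))

theorem prod : ∀ {l : List G}, (∀ β ∈ l, Blk β) → Pos (j l.prod) ∧ (l ≠ [] → (j l.prod)⁻¹ ∈ A)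
  | [], _ => ⟨fun w hw => by simpa using hw, fun e => (e rfl).elim⟩
  | β :: l, h => by
    obtain ⟨h1, h2⟩ := blk hf m (h β (by simp))
    have h3 := (prod (l := l) fun x hx => h x (by simp [hx])).1
    rw [List.prod_cons, map_mul]
    exact ⟨h1.mul h3, fun _ => by rw [mul_inv_rev]; exact h3 _ h2⟩

end Ln

open Ln in
theorem line (h1 : HfStmt) (h2 : NcStmt) : LineStmt := by
  intro j Ψ ι θ m em γ l hl hb
  have hf := h1 _ _ _ _ _ cox
  have hq := h1 _ _ _ _ _ cox.symm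
  have x1 : ∀ w ∈ A, wv * wh * w ∉ Q := fun w hw e =>
    hq.notB _ (mul_mem (Subgroup.subset_closure (by simp)) (Subgroup.subset_closure (by simp)))
      (((h2 _ _ _ _ _ cox _ (mul_mem (Subgroup.subset_closure (by simp)) h_mem) hf.vhC.1
        (mul_assoc wh wv wh ▸ hf.vhC.2)).2 w hw).1 e)
  have ha : wa ∈ Subgroup.closure {wa, wh} := Subgroup.subset_closure (by simp)
  have hU : wU ∈ Subgroup.closure {wa, wh} := mul_mem (Subgroup.subset_closure (by simp)) ha
  obtain ⟨y, y0, y1, y2⟩ := path γ hl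
  obtain ⟨p1, p2⟩ := prod hf m hb
  obtain ⟨n, n1, n2⟩ := (hf.exh _ p1 (p2 hl) (j γ⁻¹)).exists
  have st : ∀ k x, ∀ s ∈ ({wa, wq, wv, wh} : Set W), (j (y k))⁻¹ * (x * s) ∈ A →
      (j (y (k + 1)))⁻¹ * x ∈ A := fun k x s hs e => by
    obtain ⟨β, hβ, e1⟩ := y1 k
    obtain ⟨b1, b2⟩ := blk hf m (hb β hβ)
    rw [e1, map_mul, mul_inv_rev, mul_assoc]
    exact hf.one _ b1 b2 s hs _ (mul_assoc _ x s ▸ e)
  have su : ∀ k x, (j (y k))⁻¹ * (x * wU) ∈ A → (j (y (k + 2)))⁻¹ * x ∈ A := fun k x e => by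
    rw [wU, ← mul_assoc x] at e
    simpa only [add_assoc, one_add_one_eq_two] using
      st _ _ _ (by simp) (st _ _ _ (by simp) e)
  refine ⟨fun k => {x | (j (y k))⁻¹ * j (ι x) ∉ A}, ⟨antitone_int_of_succ_le fun k x hx e => hx ?_,
    ⟨-n * l.length, ?_⟩, ⟨n * l.length, fun e => e ?_⟩⟩, fun g ⟨γ0, hs⟩ => ⟨_, _, hs, fun k => ?_⟩,
    fun k x x' e => ?_, fun k x x' e hx e' => hx ?_⟩
  · obtain ⟨β, hβ, e1⟩ := y1 k
    rw [e1, map_mul, mul_inv_rev, mul_assoc]
    exact (blk hf m (hb β hβ)).1 _ e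
  · simpa [y0, A, -neg_mul] using n1
  · simpa [y0, A] using n2
  · obtain ⟨β, hβ, e1⟩ := y1 k
    obtain ⟨p, r, e, rfl, e2⟩ := hb β hβ ((chi (y k))⁻¹ * chi γ0)
    obtain ⟨h, hh⟩ := (em.ran (y k * (pw p * gU * gR * gU ^ (e + 1)) * γ0⁻¹)).1 (by
      rw [map_mul, map_mul, e2, map_inv]; group)
    have e3 : ∀ x, j (γ0⁻¹ * ι (h⁻¹ * x)) =
        (wU ^ (e + 1))⁻¹ * (wR⁻¹ * (wU⁻¹ * ((j (pw p))⁻¹ * ((j (y k))⁻¹ * j (ι x))))) := fun x => by
      rw [map_mul ι, map_inv ι, hh]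
      simp only [map_mul, map_inv, map_pow, m.U, m.R]
      group
    refine ⟨k, h, le_rfl, by simp, fun x hx => ?_, fun x hx => ?_⟩
    · have a1 := posW hf m p _ (not_not.1 hx)
      change _ ∈ Pa
      rw [e3]
      generalize (j (pw p))⁻¹ * ((j (y k))⁻¹ * j (ι x)) = w at a1
      refine ⟨?_, fun e4 => x1 _ ((hf.cinv wq (Subgroup.subset_closure (by simp)) w).2 a1) ?_⟩
      · have := (posU hf).pow e _ (posR hf _ (posU hf _ a1))
        rwa [pow_succ, mul_inv_rev, mul_assoc, mul_inv_cancel_left]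
      · have e5 := (hq.cinv _ (inv_mem (pow_mem hU _)) _).1 e4
        rw [Uinv, Rinv, show wv * wq * (wa * wh * w) = wv * (wq * wa) * wh * w by group,
          ← relW_rel.aq, show wv * (wa * wq) * wh * w = wv * wa * (wq * wh) * w by group,
          ← relW_rel.av, relW_rel.qh] at e5
        exact (hq.cinv _ ha _).1 (by simpa only [mul_assoc] using e5)
    · have a1 : (j (y (k + 1)))⁻¹ * j (ι x) ∉ A := hx
      have e4 : j (γ0⁻¹ * ι (h⁻¹ * x)) =
          wR * (wU * (j (pw r) * ((j (y (k + 1)))⁻¹ * j (ι x)))) := by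
        rw [e3, e1]
        simp only [map_mul, map_pow, m.U, m.R]
        group
      have a2 := (posW hf m r).not a1
      change _ ∈ Fu
      rw [e4]
      generalize j (pw r) * ((j (y (k + 1)))⁻¹ * j (ι x)) = w at a2
      refine ⟨(posR hf).not ((posU hf).not a2), ?_⟩
      rw [wR, wU, show wq * wv * (wh * wa * w) = wq * (wv * wh * (wa * w)) by group]
      exact (hq.flip _).2 (x1 _ ((hf.flip w).2 a2))
  · simp only [Set.mem_ofPred_eq, y2, e, map_mul, mul_inv_rev, map_inv]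
    rw [iff_eq_eq]
    congr 2
    group
  · have e1 : (j (y (k + l.length - 10)))⁻¹ * j (ι x') =
        (j (y (k - 10)))⁻¹ * (j (ι x) * wU * wU * wU * wU * wU) := by
      rw [add_sub_right_comm, y2, e]
      simp [m.U, pow_succ, mul_assoc]
    rw [e1] at e'
    have := su _ _ (su _ _ (su _ _ (su _ _ (su _ _ e'))))
    rwa [show k - 10 + 2 + 2 + 2 + 2 + 2 = k by ring] at this

end Pool.Agent.MP_7ebdba_gt.w
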