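import Pool.Agent.MP_7ebdba_gt.w.Spec

/-! Walls from side functions, the linking lemma, invariance of adjacency. -/

open Filter Set

namespace Pool.Agent.MP_7ebdba_gt.w

open ch ge

namespace Link

variable {P : Type} [Group P] {g c : P} {s : P → ZMod 2} {H N X Y : Set P}

theorem finMod_mono (h : FinMod g Y) (hs : X ⊆ Y) : FinMod g X :=
  let ⟨R, hR⟩ := h
  ⟨R, fun x hx => hR x (hs hx)⟩

theorem finMod_map (α : MulAut P) (h : FinMod g X) : FinMod (α g) {x | α.symm x ∈ X} := by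
  classical
  obtain ⟨R, hR⟩ := h
  refine ⟨R.image α, fun x hx => ?_⟩
  obtain ⟨n, r, hr, e⟩ := hR _ hx
  refine ⟨n, α r, Finset.mem_image_of_mem _ hr, ?_⟩
  rw [← map_zpow, ← map_mul, ← e, MulEquiv.apply_symm_apply]

theorem cob_map (α : MulAut P) (h : ∀ y, FinMod g {x | s (x * y) ≠ s x}) (y : P) :
    FinMod (α g) {x | s (α.symm (x * y)) ≠ s (α.symm x)} := by
  simpa only [mem_ofPred_eq, map_mul] using finMod_map α (h (α.symm y))

/-- a statement on both tails -/
theorem tails_of (h : ∀ y, ∀ᶠ n : ℕ in atTop, g ^ n * y ∉ X ∧ (g ^ n)⁻¹ * y ∉ X) :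
    Tails g 1 X := fun y => by
  obtain ⟨m, hm⟩ := eventually_atTop.1 (h y)
  refine (finite_Ioo (-(m : ℤ)) m).subset fun n hn => ?_
  rw [mem_ofPred_eq, one_mul] at hn
  by_contra hc
  obtain ⟨k, rfl | rfl⟩ := n.eq_nat_or_neg
  · exact (hm k (by simp only [mem_Ioo] at hc; omega)).1 (by simpa using hn)
  · exact (hm k (by simp only [mem_Ioo] at hc; omega)).2 (by simpa using hn)

omit [Group P] in
theorem ind_one {x : P} : ind H x = 1 ↔ x ∈ H := by
  unfold ind
  split_ifs with h <;> simp [h]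

omit [Group P] in
theorem ind_ne {x y : P} (h : ¬ (x ∈ H ↔ y ∈ H)) : ind H y ≠ ind H x := fun e =>
  h (by rw [← ind_one, ← ind_one, e])

theorem ev_out (hc : ¬ IsOfFinOrder c) (hX : X.Finite) : ∀ᶠ n : ℕ in atTop, c ^ n ∉ X := by
  rw [← Nat.cofinite_eq_atTop, eventually_cofinite]
  simp only [not_not]
  exact hX.preimage (injective_pow_iff_not_isOfFinOrder.2 hc).injOn

/-- `s` is constant on one end of all translates of a line -/
theorem evc (hD : ∀ y0 y, {x | x * y0 ∈ X ∧ s (x * y) ≠ s x}.Finite) (hc : ¬ IsOfFinOrder c)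
    {y0 : P} (h0 : ∀ᶠ n : ℕ in atTop, c ^ n * y0 ∈ X) :
    ∃ a, ∀ y, ∀ᶠ n : ℕ in atTop, s (c ^ n * y) = a := by
  have k : ∀ y, ∀ᶠ n : ℕ in atTop, s (c ^ n * y) = s (c ^ n) := fun y => by
    filter_upwards [h0, ev_out hc (hD y0 y)] with n h1 h2
    by_contra h3
    exact h2 ⟨h1, h3⟩
  obtain ⟨m, hm⟩ := eventually_atTop.1 (k c)
  refine ⟨s (c ^ m), fun y => ?_⟩
  filter_upwards [k y, eventually_ge_atTop m] with n h1 h2
  rw [h1]
  induction n, h2 using Nat.le_induction with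
  | base => rfl
  | succ n hn _ => rw [pow_succ, hm n hn]; exact Nat.le_induction rfl (fun k hk e => by
      rw [pow_succ, hm k hk, e]) n hn

theorem fin_of_ord (hc : IsOfFinOrder c) (h : FinMod c X) : X.Finite := by
  obtain ⟨R, hR⟩ := h
  refine ((finite_zpowers.2 hc).image2 (· * ·) R.finite_toSet).subset fun x hx => ?_
  obtain ⟨n, r, hr, rfl⟩ := hR x hx
  exact mem_image2_of_mem (Subgroup.zpow_mem_zpowers c n) hr

/-- `s` is almost constant on one side of a wall -/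
theorem side (hE : OneEnd P) (hD : ∀ y0 y, {x | x * y0 ∈ N ∧ s (x * y) ≠ s x}.Finite)
    (hW : Wl c N) (h0 : N.Nonempty) (h1 : Nᶜ.Infinite) : ∃ b, {y | y ∈ N ∧ s y ≠ b}.Finite := by
  obtain ⟨b, hb⟩ : ∃ b, ∀ y z, ({x | s (x * z) ≠ b} ∩ {x | ind N (x * y) ≠ ind N x}).Finite := by
    by_cases hc : IsOfFinOrder c
    · exact ⟨0, fun y z => (fin_of_ord hc (hW.1.2 y)).subset inter_subset_right⟩
    obtain ⟨y0, h0⟩ := h0
    have i1 : ∀ x, c * x ∈ N ↔ x ∈ N := fun x => by rw [← ind_one, hW.1.1, ind_one]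
    obtain ⟨b, hb⟩ := evc hD hc (y0 := y0) (Eventually.of_forall fun n => by
      induction n with
      | zero => simpa using h0
      | succ n ih => rwa [pow_succ', mul_assoc, i1])
    obtain ⟨b', hb'⟩ := evc hD (c := c⁻¹) (by simpa using hc) (y0 := y0)
      (Eventually.of_forall fun n => by
        induction n with
        | zero => simpa using h0
        | succ n ih => rwa [pow_succ', mul_assoc, ← i1, mul_inv_cancel_left])
    simp only [inv_pow] at hb'
    obtain rfl : b = b' := by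
      by_contra hne
      refine hW.2 {x | s x = b} 1 (fun y => ?_) fun y => (hD 1 y).subset fun x hx => ?_
      · filter_upwards [hb y, hb' y] with n e e'
        exact ⟨e, fun e2 => hne (e2.symm.trans e')⟩
      · exact ⟨by simpa using ind_one.1 hx.1, fun e => hx.2 (by simp [e])⟩
    refine ⟨b, fun y z => (tails_of fun γ => ?_).inter (hW.1.2 y)⟩
    filter_upwards [hb (γ * z), hb' (γ * z)] with n e e'
    simp only [mul_assoc, not_not]
    exact ⟨e, e'⟩
  refine ⟨b, (hE _ fun y => ?_).resolve_right fun h => h1 (h.subset fun x hx hx' => hx hx'.1)⟩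
  refine (((hb y 1).union (hb y y)).union (hD 1 y)).subset fun x hx => ?_
  have h2 := hx.2
  simp only [mem_union, mem_inter_iff, mem_ofPred_eq, mul_one] at h2 ⊢
  by_cases h3 : x ∈ N ↔ x * y ∈ N
  · refine Or.inr ⟨?_, fun e => h2 (by rw [e, h3])⟩
    by_contra h4
    exact h2 (iff_of_false (fun h => h4 h.1) fun h => h4 (h3.2 h.1))
  · refine Or.inl ?_
    by_contra h4
    rw [not_or] at h4
    exact h2 (iff_of_false (fun h => h4.1 ⟨h.2, ind_ne h3⟩) fun h => h4.2 ⟨h.2, ind_ne h3⟩)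

end Link

open Link

theorem mapS : MapStmt := by
  rintro P _ α g g' ⟨s, ⟨⟨h1, h2⟩, h3⟩, h4, h5⟩
  have k : ∀ h, h ∉ Subgroup.zpowers (α g) → α.symm h ∉ Subgroup.zpowers g := by
    rintro h hh ⟨n, e⟩
    exact hh ⟨n, by simpa using congrArg α e⟩
  refine ⟨fun x => s (α.symm x), ⟨⟨fun x => by simp [h1], cob_map α h2⟩, fun s1 ⟨⟨w, hw⟩, h6⟩ => ?_⟩,
    fun h hh => by simpa using h4 _ (k h hh),
    fun h hh hh' => by simpa using h5 _ (k h hh) (by simpa using k _ hh')⟩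
  obtain ⟨c, e, h7⟩ := h3 (fun x => s1 (α x)) ⟨⟨w, fun x => by simp [hw]⟩, fun y => by
    simpa using cob_map α.symm h6 y⟩
  exact ⟨c, e, by simpa using finMod_map α h7⟩

theorem wl : WlStmt := by
  intro P _ c s H hs hL hA h1 h2
  obtain ⟨c0, e, hX⟩ := hs.2 (ind H) ⟨⟨0, fun x => by rw [hA.1, add_zero]⟩, hA.2⟩
  obtain rfl : e = 1 := by
    rcases two 0 e with rfl | rfl
    · rcases two 0 c0 with rfl | rfl
      · exact absurd (finMod_mono hX fun x hx => by simp [ind_one.2 hx]) h1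
      · exact absurd (finMod_mono hX fun x (hx : x ∉ H) e => hx (ind_one.1 (by simpa using e))) h2
    · exact zero_add 1
  refine ⟨hA, fun H' a hT hB => hL H' (a + c0) hT fun y => ?_⟩
  have k : Tails c 1 {x | ¬ (x ∈ H' ↔ x * y ∈ H')} := tails_of fun γ => by
    filter_upwards [hT γ, hT (γ * y)] with n e e'
    simp only [not_not, mul_assoc]
    exact ⟨iff_of_true e.1 e'.1, iff_of_false e.2 e'.2⟩
  refine ((hB y).union (k.inter hX)).subset fun x hx => ?_
  by_cases h : ind H x = c0 + 1 * s x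
  · refine Or.inl ⟨?_, hx.2⟩
    rw [mem_ofPred_eq, h, show s x = a + c0 from hx.1]
    exact (by decide : ∀ a c0 : ZMod 2, c0 + 1 * (a + c0) = a) _ _
  · exact Or.inr ⟨hx.2, h⟩

theorem link : LinkStmt := by
  intro P _ g c cN cM s H N M hE hs hL wN wM hA hc hT hg
  have hD : ∀ y0 y, {x | x * y0 ∈ N ∪ M ∧ s (x * y) ≠ s x}.Finite := fun y0 y =>
    Tails.inter (X := {x | x * y0 ∈ N ∪ M})
      (fun γ => by simpa only [mem_ofPred_eq, mul_assoc] using hT (γ * y0)) (hs.2 y)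
  have ho : ¬ IsOfFinOrder c := fun ho => Tails.not_univ (hT.mono fun y _ => by
    obtain ⟨k, hk, e⟩ := isOfFinOrder_iff_pow_eq_one.1 ho
    obtain ⟨m, hm⟩ := eventually_atTop.1 (hc y)
    have := (hm (k * m) (Nat.le_mul_of_pos_left _ hk)).1
    rw [pow_mul, e, one_pow, one_mul] at this
    exact Or.inr this)
  have ho' : ¬ IsOfFinOrder c⁻¹ := by simpa using ho
  obtain ⟨a', ha'⟩ := evc hD ho (y0 := 1) ((hc 1).mono fun n h => Or.inr h.1)
  obtain ⟨a, ha⟩ := evc hD ho' (y0 := 1) ((hc 1).mono fun n h => Or.inl (by simpa using h.2))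
  simp only [inv_pow] at ha
  obtain rfl : a' = a + 1 := by
    refine (two a a').resolve_left ?_
    rintro rfl
    refine hL H (a' + 1) hg fun y => ((tails_of (X := {x | s x = a' + 1}) fun γ => ?_).inter
      (hA.2 y)).subset fun x hx => ⟨hx.1, ind_ne hx.2⟩
    filter_upwards [ha' γ, ha γ] with n e e'
    exact ⟨fun h => ne_succ _ (h.symm.trans e), fun h => ne_succ _ (h.symm.trans e')⟩
  obtain ⟨n, hn⟩ := (hc 1).exists
  have hI : (N ∪ M)ᶜ.Infinite := fun hf => infinite_univ (α := ℤ)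
    (((hT 1).union (fin_pre (hT.inj ⟨_, Or.inr hn.1⟩) hf 1 1)).subset fun n _ => em _)
  obtain ⟨b, hb⟩ := side hE (fun y0 y => (hD y0 y).subset fun x hx => ⟨Or.inl hx.1, hx.2⟩) wN
    ⟨_, hn.2⟩ (hI.mono (compl_subset_compl.2 subset_union_left))
  obtain ⟨b', hb'⟩ := side hE (fun y0 y => (hD y0 y).subset fun x hx => ⟨Or.inr hx.1, hx.2⟩) wM
    ⟨_, hn.1⟩ (hI.mono (compl_subset_compl.2 subset_union_right))
  obtain ⟨m, ⟨⟨⟨m1, m2⟩, m3⟩, m4⟩, m5⟩ :=
    (((((hc 1).and (ha 1)).and (ha' 1)).and (ev_out ho hb')).and (ev_out ho' hb)).exists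
  simp only [mul_one, inv_pow, mem_ofPred_eq, not_and, not_not] at m1 m2 m3 m4 m5
  refine ⟨a, _, hb.union hb', fun y hy h => ?_, fun y hy h => ?_⟩
  · rw [← m2, m5 m1.2]
    by_contra e
    exact h (Or.inl ⟨hy, e⟩)
  · rw [← m3, m4 m1.1]
    by_contra e
    exact h (Or.inr ⟨hy, e⟩)

end Pool.Agent.MP_7ebdba_gt.w
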