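import Pool.Agent.MP_7ebdba_gt.w.Spec
import Pool.Agent.MP_7ebdba_gt.ch.Lk

/-! Row LK: one end and linking side functions in the surface group. -/

namespace Pool.Agent.MP_7ebdba_gt.w

theorem lk : LkStmt := by
  refine ⟨fun V hV => ch.one_end_set V fun y => (hV y).subset fun x hx => ⟨trivial, hx⟩,
    fun g hg => ?_⟩
  obtain ⟨s, hs, hl⟩ := ch.exists_lk g (injective_zpow_iff_not_isOfFinOrder.2 hg)
  exact ⟨s, hs, hl⟩

end Pool.Agent.MP_7ebdba_gt.w
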