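import Pool.Agent.MP_7ebdba_gt.w.Spec

/-! The rotation subgroup and the two twists. -/

namespace Pool.Agent.MP_7ebdba_gt.w

namespace MdT

section
variable {M : Type} [Group M] {o R U : M}

theorem cub {x y : M} (c : M) (h : x ^ 3 = 1) (e : y = c * x * c⁻¹) : y ^ 3 = 1 := by
  rw [e, conj_pow, h, mul_one, mul_inv_cancel]

/-- rules that move an involution `o` inverting `R` to the left -/
theorem push (h : o * o = 1) (h' : o * R * o * R = 1) : o⁻¹ = o ∧ (∀ x, o * (o * x) = x) ∧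
    R * o = o * R⁻¹ ∧ R⁻¹ * o = o * R ∧
    (∀ x, R * (o * x) = o * (R⁻¹ * x)) ∧ ∀ x, R⁻¹ * (o * x) = o * (R * x) := by
  have i : o⁻¹ = o := inv_eq_of_mul_eq_one_right h
  have e : R * o = o * R⁻¹ :=
    calc R * o = o⁻¹ * (o * R * o * R) * R⁻¹ := by group
      _ = _ := by rw [h', i, mul_one]
  have e' : R⁻¹ * o = o * R :=
    calc R⁻¹ * o = o⁻¹ * (o * R⁻¹) * o := by group
      _ = _ := by rw [← e, i, mul_assoc, mul_assoc, h, mul_one]
  exact ⟨i, fun x => by rw [← mul_assoc, h, one_mul], e, e',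
    fun x => by rw [← mul_assoc, e, mul_assoc], fun x => by rw [← mul_assoc, e', mul_assoc]⟩

theorem relS (H : RelG o R U) : RelG o R⁻¹ U := by
  have a := push H.oo H.oR
  have b := push H.oo H.oU
  refine ⟨H.oo, by simp [mul_assoc, a], H.oU, ?_⟩
  refine cub R⁻¹ (x := (R * o * U)⁻¹) (by rw [inv_pow, H.tri, inv_one]) ?_
  simp [mul_assoc, a, b]

theorem relT (H : RelG o R U) : RelG (U⁻¹ * o) (R * U) U ∧ RelG (U * o) (R * U⁻¹) U := by
  have a := push H.oo H.oR
  have b := push H.oo H.oU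
  refine ⟨⟨?_, ?_, ?_, cub 1 H.tri (by group)⟩, ?_, ?_, ?_, cub 1 H.tri (by group)⟩ <;>
    simp [mul_assoc, a, b, H.oo]

theorem relH (H : RelG o R U) : RelG o R (R * U * R) ∧ RelG o R (R⁻¹ * U * R⁻¹) := by
  have a := push H.oo H.oR
  have b := push H.oo H.oU
  refine ⟨⟨H.oo, H.oR, ?_, cub R⁻¹ H.tri ?_⟩, H.oo, H.oR, ?_, cub R H.tri ?_⟩ <;>
    simp [mul_assoc, a, b]

theorem relJ {a q v h : M} (H : Rel a q v h) : RelG (a * q) (q * v) (h * a) := by
  have aa : ∀ x, a * (a * x) = x := fun x => by rw [← mul_assoc, H.aa, one_mul]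
  have qq : ∀ x, q * (q * x) = x := fun x => by rw [← mul_assoc, H.qq, one_mul]
  have hh : ∀ x, h * (h * x) = x := fun x => by rw [← mul_assoc, H.hh, one_mul]
  have qa : ∀ x, q * (a * x) = a * (q * x) := fun x => by rw [← mul_assoc, ← H.aq, mul_assoc]
  have va : ∀ x, v * (a * x) = a * (v * x) := fun x => by rw [← mul_assoc, ← H.av, mul_assoc]
  have hq : ∀ x, h * (q * x) = q * (h * x) := fun x => by rw [← mul_assoc, ← H.qh, mul_assoc]
  refine ⟨?_, ?_, ?_, cub (a * q) (x := v * h) ?_ ?_⟩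
  · simp only [mul_assoc, qa, aa, H.qq]
  · simp only [mul_assoc, qq, va, aa, H.vv]
  · simp only [mul_assoc, aa, hq, qq, hh, H.aa]
  · calc (v * h) ^ 3 = v * h * v * (h * v * h) := by simp only [pow_succ, pow_zero, one_mul, mul_assoc]
      _ = 1 := by rw [H.vh]; simp only [mul_assoc, hh, ← mul_assoc v v, H.vv, one_mul, H.hh]
  · rw [mul_inv_rev, inv_eq_of_mul_eq_one_right H.aa, inv_eq_of_mul_eq_one_right H.qq]
    simp only [mul_assoc, hq, va, qa]

end

/-- an automorphism from two pairs of values -/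
def aut {o R U o' R' U' : G} (H : RelG o R U) (H' : RelG o' R' U')
    (h1 : liftG H' o = go ∧ liftG H' R = gR ∧ liftG H' U = gU)
    (h2 : liftG H o' = go ∧ liftG H R' = gR ∧ liftG H U' = gU) : MulAut G :=
  MonoidHom.toMulEquiv (liftG H) (liftG H')
    (extG (by simpa [liftG_gen H] using h1.1) (by simpa [liftG_gen H] using h1.2.1)
      (by simpa [liftG_gen H] using h1.2.2))
    (extG (by simpa [liftG_gen H'] using h2.1) (by simpa [liftG_gen H'] using h2.2.1)
      (by simpa [liftG_gen H'] using h2.2.2))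

theorem ex_aut {o R U o' R' U' : G} (H : RelG o R U) (H' : RelG o' R' U')
    (h1 : liftG H' o = go ∧ liftG H' R = gR ∧ liftG H' U = gU)
    (h2 : liftG H o' = go ∧ liftG H R' = gR ∧ liftG H U' = gU) :
    ∃ t : MulAut G, t go = o ∧ t gR = R ∧ t gU = U := ⟨aut H H' h1 h2, liftG_gen H⟩

end MdT

open MdT

theorem tw : TwStmt := by
  obtain ⟨t2, h1, h2, h3⟩ := ex_aut (relT relG_rel).1 (relT relG_rel).2
    (by simp [liftG_gen (relT relG_rel).2]) (by simp [liftG_gen (relT relG_rel).1])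
  obtain ⟨th, h4, h5, h6⟩ := ex_aut (relH relG_rel).1 (relH relG_rel).2
    (by simp only [map_mul, liftG_gen (relH relG_rel).2]; simp [mul_assoc])
    (by simp only [map_mul, map_inv, liftG_gen (relH relG_rel).1]; simp [mul_assoc])
  exact ⟨t2, th, h1, h2, h3, h4, h5, h6⟩

theorem mod : ModStmt := by
  obtain ⟨σ, s1, s2, s3⟩ := ex_aut (relS relG_rel) (relS relG_rel)
    (by simp [liftG_gen (relS relG_rel)]) (by simp [liftG_gen (relS relG_rel)])
  have ss : σ * σ = 1 := MulEquiv.toMonoidHom_injective (extG (by simp [s1]) (by simp [s2])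
    (by simp [s3]))
  have H := relW_rel
  obtain ⟨j1, j2, j3⟩ := liftG_gen (relJ H)
  set j := liftG (relJ H)
  have a := push relG_rel.oo relG_rel.oR
  have b := push relG_rel.oo relG_rel.oU
  have oo := relG_rel.oo
  refine ⟨j, j1, j2, j3, ?_, fun w hw => ?_⟩
  · have t : (gR⁻¹ * gU * go) ^ 3 = 1 := cub go relG_rel.tri (by simp [mul_assoc, a, b])
    have K : Rel (W := G ⋊[MonoidHom.id (MulAut G)] MulAut G) ⟨go, σ⟩ ⟨1, σ⟩ ⟨gR⁻¹, σ⟩
        ⟨gU * go, σ⟩ := by
      refine ⟨?_, ?_, ?_, ?_, ?_, ?_, ?_, ?_⟩ <;> refine SemidirectProduct.ext ?_ (by simp [ss])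
      rotate_right
      · simp only [SemidirectProduct.mul_left, SemidirectProduct.mul_right, MonoidHom.id_apply, ss,
          map_mul, map_inv, s1, s2, s3, MulAut.one_apply]
        rw [← mul_inv_eq_one, ← t]
        simp [mul_assoc, a, b, pow_succ]
      all_goals simp [mul_assoc, a, b, oo, s1, s2, s3]
    obtain ⟨f, f1, f2, f3, f4⟩ := cox.lift _ _ _ _ _ K
    have e : f.comp j = SemidirectProduct.inl := by
      refine extG ?_ ?_ ?_ <;> refine SemidirectProduct.ext ?_ ?_ <;>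
        simp [j1, j2, j3, f1, f2, f3, f4, s1, s2, ss, oo, mul_assoc]
    exact Function.Injective.of_comp (f := f) (by
      rw [← MonoidHom.coe_comp, e]
      exact SemidirectProduct.inl_injective)
  · have qq : ∀ x, wq * (wq * x) = x := fun x => by rw [← mul_assoc, H.qq, one_mul]
    have iq : wq⁻¹ = wq := inv_eq_of_mul_eq_one_right H.qq
    have iv : wv⁻¹ = wv := inv_eq_of_mul_eq_one_right H.vv
    have e : (MulAut.conj wq).toMonoidHom.comp j = j.comp σ.toMonoidHom := by
      refine extG ?_ ?_ ?_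
      · simp [j1, s1, iq, qq, H.aq]
      · simp [j2, s2, iq, iv, qq]
      · simp [j3, s3, iq, mul_assoc, H.aq, ← mul_assoc wq wh, H.qh, qq]
    have c : ∀ x, wq * j x = j (σ x) * wq := fun x =>
      mul_inv_eq_iff_eq_mul.1 (DFunLike.congr_fun e x)
    have d : ∀ x, det (j x) = 1 := fun x => DFunLike.congr_fun
      (extG (f := det.comp j) (f' := 1) (by simp [j1]) (by simp [j2]) (by simp [j3])) x
    have k : ∀ w ∈ Subgroup.closure {wa, wq, wv, wh}, ∃ x, w = j x ∨ w = j x * wq := by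
      intro w hw
      induction hw using Subgroup.closure_induction with
      | mem x hx =>
        rcases hx with rfl | rfl | rfl | rfl
        · exact ⟨go, .inr (by rw [j1, mul_assoc, H.qq, mul_one])⟩
        · exact ⟨1, .inr (by rw [map_one, one_mul])⟩
        · exact ⟨gR⁻¹, .inr (by simp [j2, iv])⟩
        · exact ⟨gU * go, .inr (by simp [j1, j3, mul_assoc, H.qq, H.aa])⟩
      | one => exact ⟨1, .inl (map_one j).symm⟩
      | mul x y _ _ hx hy =>
        obtain ⟨x, rfl | rfl⟩ := hx <;> obtain ⟨y, rfl | rfl⟩ := hy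
        · exact ⟨x * y, .inl (map_mul j _ _).symm⟩
        · exact ⟨x * y, .inr (by rw [map_mul, mul_assoc])⟩
        · exact ⟨x * σ y, .inr (by rw [map_mul, mul_assoc, mul_assoc, c])⟩
        · exact ⟨x * σ y, .inl (by
            rw [map_mul, mul_assoc, ← mul_assoc wq, c, mul_assoc, H.qq, mul_one])⟩
      | inv x _ hx =>
        obtain ⟨x, rfl | rfl⟩ := hx
        · exact ⟨x⁻¹, .inl (map_inv j _).symm⟩
        · exact ⟨σ x⁻¹, .inr (by rw [mul_inv_rev, iq, ← map_inv, c])⟩
    obtain ⟨x, rfl | rfl⟩ := k w (by rw [cox.gen]; trivial)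
    · exact ⟨x, rfl⟩
    · rw [map_mul, d, det_q] at hw
      exact absurd hw (by decide)

end Pool.Agent.MP_7ebdba_gt.w
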