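import Pool.Agent.MP_7ebdba_gt.w.Spec

/-! Walls of the two families that do not cross. -/

namespace Pool.Agent.MP_7ebdba_gt.w

namespace NcP

open Subgroup

variable {W : Type} [Group W] {a q v h : W}

/-- Right induction over a closure of involutions. -/
theorem rind {S : Set W} (hS : ∀ s ∈ S, s * s = 1) {P : W → Prop} (h1 : P 1)
    (hs : ∀ x ∈ closure S, ∀ s ∈ S, P x → P (x * s)) {x : W} (hx : x ∈ closure S) : P x := by
  induction hx using closure_induction_right with
  | one => exact h1
  | mul_right x hx s hs' ih => exact hs x hx s hs' ih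
  | mul_inv_cancel x hx s hs' ih =>
    rw [inv_eq_of_mul_eq_one_right (hS s hs')]
    exact hs x hx s hs' ih

theorem back {P : W → Prop} {s w : W} (hs : s * s = 1) (f : P (w * s) → P (w * s * s))
    (g : P w → P (w * s)) : P (w * s) ↔ P w :=
  ⟨fun k => by simpa only [mul_assoc, hs, mul_one] using f k, g⟩

theorem stepq (H : Rel a q v h) (w : W) : Beh a q v h (w * q) ↔ Beh a q v h w :=
  back H.qq .sq .sq

theorem stepv (H : Rel a q v h) (w : W) : Beh a q v h (w * v) ↔ Beh a q v h w :=
  back H.vv .sv .sv

theorem steph (H : Rel a q v h) (w : W) : Beh a q v h (w * h) ↔ Beh a q v h w :=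
  back H.hh .sh .sh

theorem stepa (H : Rel a q v h) {w : W} (hw : w ∉ closure {a, q, v}) :
    Beh a q v h (w * a) ↔ Beh a q v h w :=
  back H.aa (fun k => k.sa fun m => hw ((mul_mem_cancel_right (subset_closure (by simp))).1 m))
    fun k => k.sa hw

/-- The translate of the wall of `a` does not meet the wall of `q`. -/
theorem off (H : Cox a q v h) {b c : W} (hb : b ∈ closure {q, v, h}) (h1 : b ∉ closure {q, v})
    (h2 : h * b ∉ closure {q, v}) (hc : c ∈ closure {a, q, v}) : b * c ∉ closure {q, a, h} := by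
  have R := H.rel
  obtain ⟨κ, ka, kq, kv, kh⟩ := H.lift W 1 q v h
    ⟨one_mul 1, R.qq, R.vv, R.hh, by simp, by simp, R.qh, R.vh⟩
  have mq : q ∈ closure {q, v} := subset_closure (by simp)
  have e1 : κ b = b := rind (P := fun x => κ x = x) (by simp [R.qq, R.vv, R.hh]) (map_one κ)
    (by rintro x - s (rfl | rfl | rfl) ih <;> simp [*]) hb
  have e2 : κ c ∈ closure {q, v} := rind (P := fun x => κ x ∈ closure {q, v})
    (by simp [R.aa, R.qq, R.vv]) (by simp) (by
      rintro x - s (rfl | rfl | rfl) ih
      · simpa [ka] using ih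
      · exact map_mul κ x s ▸ mul_mem ih (kq.symm ▸ mq)
      · exact map_mul κ x s ▸ mul_mem ih (kv.symm ▸ subset_closure (by simp))) hc
  intro hz
  have e3 := rind (P := fun x => κ x = 1 ∨ κ x = q ∨ κ x = h ∨ κ x = h * q)
    (by simp [R.aa, R.qq, R.hh]) (.inl (map_one κ)) (by
      rintro x - s (rfl | rfl | rfl) ih
      · rcases ih with e | e | e | e <;> simp [e, kq, R.qq, mul_assoc]
      · simpa [ka] using ih
      · rcases ih with e | e | e | e
        · simp [e, kh]
        · simp [e, kh, R.qh]
        · simp [e, kh, R.hh]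
        · simp [e, kh, ← R.qh, mul_assoc, R.hh]) hz
  rw [map_mul, e1] at e3
  have f1 : b * κ c ∉ closure {q, v} := fun k => h1 ((mul_mem_cancel_right e2).1 k)
  have f2 : h * (b * κ c) ∉ closure {q, v} := fun k =>
    h2 ((mul_mem_cancel_right e2).1 (mul_assoc h b _ ▸ k))
  rcases e3 with e | e | e | e
  · exact f1 (e ▸ one_mem _)
  · exact f1 (e ▸ mq)
  · exact f2 (by rw [e, R.hh]; exact one_mem _)
  · exact f2 (by rw [e, ← mul_assoc, R.hh, one_mul]; exact mq)

/-- A translate of the second half space that misses the wall of `a`. -/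
theorem key (H : Rel a q v h) (hf : Hf a q v h) {u : W} (hu : u ∈ closure {q, v, h})
    (K : ∀ y, Beh q a h v y → u * y ∉ closure {a, q, v}) {y : W} (hy : Beh q a h v y) :
    ¬ Beh a q v h (u * y) := by
  induction hy with
  | base => exact hf.notB _ (mul_mem hu (subset_closure (by simp)))
  | sa _ _ ih => rwa [← mul_assoc, stepq H]
  | sq hw ih => rwa [← mul_assoc, stepa H (K _ hw)]
  | sv _ ih => rwa [← mul_assoc, steph H]
  | sh _ ih => rwa [← mul_assoc, stepv H]

end NcP

open NcP Subgroup in
theorem nc (h : HfStmt) : NcStmt := by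
  intro W _ a q v s H b hb h1 h2
  have R := H.rel
  have fl := (h W _ _ _ _ H.symm).flip
  have Z : ∀ c ∈ closure {a, q, v}, Beh q a s v (b * c) ↔ Beh q a s v b := fun c hc =>
    rind (P := fun c => Beh q a s v (b * c) ↔ Beh q a s v b) (by simp [R.aa, R.qq, R.vv])
      (by rw [mul_one]) (by
        rintro x hx t (rfl | rfl | rfl) ih
        · rwa [← mul_assoc, stepq R.symm]
        · rwa [← mul_assoc, stepa R.symm (off H hb h1 h2 hx)]
        · rwa [← mul_assoc, steph R.symm]) hc
  refine ⟨fun c hc => Z c (closure_mono (by simp) hc), fun w hw => ?_⟩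
  by_cases hq : Beh q a s v b
  · refine iff_of_true (by_contra fun k => ?_) hq
    have := key R (h W _ _ _ _ H) (u := b⁻¹ * q)
      (mul_mem (inv_mem hb) (subset_closure (by simp))) (fun y hy m => by
        have := (Z _ m).2 hq
        rw [mul_assoc, mul_inv_cancel_left] at this
        exact (fl y).1 this hy) ((fl _).2 k)
    rw [mul_assoc, ← mul_assoc q, R.qq, one_mul, inv_mul_cancel_left] at this
    exact this hw
  · refine iff_of_false (fun k => ?_) hq
    have := key R (h W _ _ _ _ H) (inv_mem hb)
      (fun y hy m => hq ((Z _ m).1 (by rwa [mul_inv_cancel_left]))) k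
    rw [inv_mul_cancel_left] at this
    exact this hw

end Pool.Agent.MP_7ebdba_gt.w
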