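import Pool.Agent.MP_7ebdba_gt.w.Spec

/-! The twist `t2 * th * th` makes words positive. -/

namespace Pool.Agent.MP_7ebdba_gt.w

namespace Psi

theorem pw_cons (b : Bool) (l : List Bool) : pw (b :: l) = cond b gU gR * pw l := by
  simp [pw]

theorem pw_append (l l' : List Bool) : pw (l ++ l') = pw l * pw l' := by
  simp [pw]

/-- A product of non-empty positive words is a positive word. -/
theorem prod_pw {α : Type} (f : α → G) (n : ℕ) (l : List α)
    (h : ∀ x ∈ l, ∃ m : List Bool, n ≤ m.length ∧ true ∈ m ∧ f x = pw m) :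
    ∃ m : List Bool, n * l.length ≤ m.length ∧ (l ≠ [] → true ∈ m) ∧ (l.map f).prod = pw m := by
  induction l with
  | nil => exact ⟨[], by simp, fun h => absurd rfl h, rfl⟩
  | cons x l ih =>
    obtain ⟨m, h1, -, h3⟩ := ih fun y hy => h y (List.mem_cons_of_mem _ hy)
    obtain ⟨m', k1, k2, k3⟩ := h x List.mem_cons_self
    refine ⟨m' ++ m, ?_, fun _ => List.mem_append_left _ k2, ?_⟩
    · rw [List.length_append, List.length_cons, Nat.mul_succ]
      omega
    · rw [List.map_cons, List.prod_cons, h3, k3, pw_append]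

theorem pw_pow (n : ℕ) : ∃ m : List Bool, (gR * gU) ^ n = pw m := by
  induction n with
  | zero => exact ⟨[], pow_zero _⟩
  | succ n ih =>
    obtain ⟨m, h⟩ := ih
    exact ⟨false :: true :: m, by rw [pow_succ', h, pw_cons, pw_cons, mul_assoc]; rfl⟩

theorem oR : gR⁻¹ * go * gR⁻¹ = go := by
  have h : go * gR * go * gR = go * go := relG_rel.oR.trans relG_rel.oo.symm
  have h2 : gR * go * gR = go := mul_left_cancel (a := go) (by simpa only [mul_assoc] using h)
  conv_lhs => rw [← h2]
  group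

theorem oU : gU * go * gU = go := by
  have h : go * gU * go * gU = go * go := relG_rel.oU.trans relG_rel.oo.symm
  exact mul_left_cancel (a := go) (by simpa only [mul_assoc] using h)

theorem o_eq : gR * gU * gR⁻¹ * gU⁻¹ * go = gU * gR := by
  have h1 : go * gU = gU⁻¹ * go := by
    conv_rhs => rw [← oU]
    group
  have h2 : go * gR = gR⁻¹ * go := by
    conv_lhs => rw [← oR]
    group
  have h3 : gR * gU⁻¹ * gR⁻¹ * gU * gR * gU⁻¹ * go = 1 :=
    calc _ = gR * gU⁻¹ * gR⁻¹ * (go * go) * gU * gR * (gU⁻¹ * go) := by rw [relG_rel.oo]; group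
      _ = gR * gU⁻¹ * (gR⁻¹ * go) * go * gU * gR * (gU⁻¹ * go) := by simp only [mul_assoc]
      _ = gR * (gU⁻¹ * go) * gR * go * gU * gR * (gU⁻¹ * go) := by
        rw [← h2]
        simp only [mul_assoc]
      _ = (gR * go * gU) ^ 3 := by
        rw [← h1, pow_three]
        simp only [mul_assoc]
      _ = 1 := relG_rel.tri
  have h4 : go = gR * gU⁻¹ * gR⁻¹ * gU * gR * gU⁻¹ :=
    (inv_eq_of_mul_eq_one_right relG_rel.oo).symm.trans (eq_inv_of_mul_eq_one_left h3).symm
  rw [← oU, h4]
  group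

theorem hRh {j : G →* W} (hj : Mod j) : j (gR * gU * gR⁻¹ * go) = wh * wR * wh := by
  obtain ⟨aa, qq, vv, hh, aq, av, qh, vh⟩ := relW_rel
  have e : wR⁻¹ = wv * wq := by
    rw [wR, mul_inv_rev, inv_eq_of_mul_eq_one_right qq, inv_eq_of_mul_eq_one_right vv]
  simp only [map_mul, map_inv, hj.o, hj.R, hj.U, e]
  unfold wR wU
  calc wq * wv * (wh * wa) * (wv * wq) * (wa * wq)
      = wq * wv * wh * (wa * wv) * (wq * wa) * wq := by simp only [mul_assoc]
    _ = wq * (wv * wh * wv) * (wa * wa) * (wq * wq) := by rw [av, ← aq]; simp only [mul_assoc]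
    _ = wh * (wq * wv) * wh := by
      rw [aa, qq, vh, mul_one, mul_one, ← mul_assoc, ← mul_assoc, qh]
      simp only [mul_assoc]

theorem conj_eq {j : G →* W} (hj : Mod j) {x y : G} {γ : W} (hγ : det γ = 1)
    (h : γ⁻¹ * j x * γ = j y) : ∃ γ', x = γ' * y * γ'⁻¹ := by
  obtain ⟨γ', rfl⟩ := hj.ran γ hγ
  rw [← map_inv, ← map_mul, ← map_mul] at h
  exact ⟨γ', by rw [← hj.inj h]; group⟩

section
variable {t2 th : MulAut G}

theorem psi_R (ht : Tw t2 th) : (t2 * th * th) gR = gR * gU := by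
  simp only [MulAut.mul_apply, ht.thR, ht.t2R]

theorem psi_U (ht : Tw t2 th) : (t2 * th * th) gU = (gR * gU) ^ 2 * gU * (gR * gU) ^ 2 := by
  simp only [MulAut.mul_apply, ht.thU, map_mul, ht.thR, ht.t2R, ht.t2U, pow_two, mul_assoc]

theorem psi_pw (ht : Tw t2 th) (l : List Bool) : ∃ m : List Bool, 2 * l.length ≤ m.length ∧
    (l ≠ [] → true ∈ m) ∧ (t2 * th * th) (pw l) = pw m := by
  rw [pw, map_list_prod, List.map_map]
  refine prod_pw _ 2 l fun b _ => ?_
  cases b
  · exact ⟨[false, true], by simp, by simp, (psi_R ht).trans (by simp [pw])⟩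
  · exact ⟨[false, true, false, true, true, false, true, false, true], by simp, by simp,
      (psi_U ht).trans (by simp [pw, pow_two, mul_assoc])⟩

theorem inC_conj (Ψ : MulAut G) (γ : G) {y : G} (h : InC 1 (Ψ y)) : InC 1 (Ψ (γ * y * γ⁻¹)) := by
  obtain ⟨δ, l, h1, h2⟩ := h
  exact ⟨Ψ γ * δ, l, h1, by rw [map_mul, map_mul, map_inv, h2]; group⟩

theorem p1 (ht : Tw t2 th) (l : List ℤ) (hl : l ≠ []) (hd : ∀ d ∈ l, -1 ≤ d) :
    InC 1 ((t2 * th * th) (l.map fun d => gR ^ d * gU).prod) := by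
  rw [map_list_prod, List.map_map]
  obtain ⟨m, -, h2, h3⟩ := prod_pw ((t2 * th * th) ∘ fun d : ℤ => gR ^ d * gU) 0 l fun d hd' => by
    obtain ⟨n, hn⟩ := Int.eq_ofNat_of_zero_le (a := d + 2) (by have := hd d hd'; omega)
    obtain ⟨m, hm⟩ := pw_pow n
    refine ⟨m ++ [true, false, true, false, true], Nat.zero_le _, by simp, ?_⟩
    rw [pw_append, ← hm, ← zpow_natCast, ← hn, Function.comp_apply, map_mul, map_zpow, psi_R ht,
      psi_U ht, zpow_add, zpow_two]
    simp [pw, pow_two, mul_assoc]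
  exact ⟨1, m, List.length_pos_of_mem (h2 hl), by rw [h3]; group⟩

theorem p2 (ht : Tw t2 th) (l : List Bool) (hl : l ≠ []) :
    InC 1 ((t2 * th * th) (l.map fun b => cond b (gR * gU * gR⁻¹ * go) gR).prod) := by
  have h1 : ∀ l : List Bool, th (l.map fun b => cond b (gR * gU * gR⁻¹ * go) gR).prod =
      gR * (l.map fun b => cond b (gR * gU * gR⁻¹ * go) gR).prod * gR⁻¹ := by
    intro l
    induction l with
    | nil => simp
    | cons b l ih =>
      have : th (cond b (gR * gU * gR⁻¹ * go) gR) = gR * cond b (gR * gU * gR⁻¹ * go) gR * gR⁻¹ := by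
        cases b
        · simp [ht.thR]
        · simp only [cond_true, map_mul, map_inv, ht.thR, ht.thU, ht.tho]
          conv_lhs => rw [← oR]
          group
      rw [List.map_cons, List.prod_cons, map_mul, ih, this]
      group
  obtain ⟨m, -, h2, h3⟩ := prod_pw (t2 ∘ fun b => cond b (gR * gU * gR⁻¹ * go) gR) 0 l
    fun b _ => by
      cases b
      · exact ⟨[false, true], by simp, by simp, ht.t2R.trans (by simp [pw])⟩
      · refine ⟨[true, false], by simp, by simp, ?_⟩
        simp only [Function.comp_apply, cond_true, map_mul, map_inv, ht.t2R, ht.t2U, ht.t2o]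
        rw [show pw [true, false] = gU * gR by simp [pw], ← o_eq]
        group
  refine ⟨t2 (gR * gR), m, List.length_pos_of_mem (h2 hl), ?_⟩
  rw [MulAut.mul_apply, MulAut.mul_apply, h1, map_mul th, map_mul th, map_inv th, h1, ht.thR, ← h3,
    ← List.map_map, ← map_list_prod, ← map_inv, ← map_mul, ← map_mul]
  congr 1
  group

end

theorem step (hf : Hf wa wq wv wh) (l : List Bool) :
    (∀ w, Beh wa wq wv wh w → Beh wa wq wv wh ((l.map fun b => cond b wU wv).prod⁻¹ * w)) ∧
      (true ∈ l → Beh wa wq wv wh (l.map fun b => cond b wU wv).prod⁻¹) := by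
  have eU : wU⁻¹ = wa * wh := by
    rw [wU, mul_inv_rev, inv_eq_of_mul_eq_one_right relW_rel.aa,
      inv_eq_of_mul_eq_one_right relW_rel.hh]
  have ev : wv⁻¹ = wv := inv_eq_of_mul_eq_one_right relW_rel.vv
  have hB : wh ∈ Subgroup.closure {wq, wv, wh} := Subgroup.subset_closure (by simp)
  have hC : wv ∈ Subgroup.closure {wq, wv} := Subgroup.subset_closure (by simp)
  induction l with
  | nil => exact ⟨fun w hw => by simpa using hw, fun h => absurd h List.not_mem_nil⟩
  | cons b l ih =>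
    rw [List.map_cons, List.prod_cons, mul_inv_rev]
    cases b
    · rw [cond_false, ev]
      refine ⟨fun w hw => ?_, fun h => Beh.sv (ih.2 (by simpa using h))⟩
      rw [mul_assoc]
      exact ih.1 _ ((hf.cinv _ hC w).2 hw)
    · rw [cond_true, eU]
      refine ⟨fun w hw => ?_, fun _ => ih.1 _ ((hf.flip _).2 (hf.notB _ hB))⟩
      rw [mul_assoc, mul_assoc]
      exact ih.1 _ ((hf.flip _).2 (hf.dis _ hB hf.hC w hw))

end Psi

open Psi in
theorem psi (h : HfStmt) : PsiStmt := by
  intro j t2 th hj ht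
  have hf := h _ _ _ _ _ cox
  refine ⟨fun x hx => ?_, fun l => (psi_pw ht l).imp fun m hm => ⟨hm.1, hm.2.2⟩, ?_⟩
  · rcases hx with ⟨γ, hγ, l, hl, hd, e⟩ | ⟨γ, hγ, l, hl, e⟩
    · obtain ⟨γ', rfl⟩ := conj_eq hj (y := (l.map fun d => gR ^ d * gU).prod) hγ (by
        rw [e, map_list_prod, List.map_map]
        congr 2
        funext d
        simp [hj.R, hj.U])
      exact inC_conj _ _ (p1 ht l hl hd)
    · obtain ⟨γ', rfl⟩ := conj_eq hj
        (y := (l.map fun b => cond b (gR * gU * gR⁻¹ * go) gR).prod) hγ (by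
        rw [e, map_list_prod, List.map_map]
        congr 2
        funext b
        cases b
        · exact hj.R.symm
        · exact (hRh hj).symm)
      exact inC_conj _ _ (p2 ht l hl)
  · obtain ⟨κ, ka, kq, kv, kh⟩ := cox.lift W wa 1 wv wh ⟨relW_rel.aa, mul_one 1, relW_rel.vv,
      relW_rel.hh, by simp, relW_rel.av, by simp, relW_rel.vh⟩
    refine ⟨κ, ka, kq, kv, kh, ?_⟩
    rintro x ⟨γ, l, hl, rfl⟩ e
    obtain ⟨m, -, h2, h3⟩ := psi_pw ht l
    have e2 : κ (j (pw m)) = 1 := by
      simp only [map_mul, map_inv, h3] at e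
      simpa using e
    have e3 : κ (j (pw m)) = (m.map fun b => cond b wU wv).prod := by
      rw [pw, map_list_prod, map_list_prod, List.map_map, List.map_map]
      congr 2
      funext b
      cases b
      · simp [hj.R, wR, kq, kv]
      · simp [hj.U, wU, ka, kh]
    have := (step hf m).2 (h2 (List.ne_nil_of_length_pos hl))
    rw [← e3, e2, inv_one] at this
    exact hf.notB 1 (Subgroup.one_mem _) this

end Pool.Agent.MP_7ebdba_gt.w
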