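import Pool.Agent.MP_7ebdba_gt.w.Spec

/-! A line that crosses two crossing walls at their corner separates the other two quadrants. -/

open Filter

namespace Pool.Agent.MP_7ebdba_gt.w

open ch ge

namespace QuadP

variable {P : Type} [Group P] {g c d d' : P} {s : P → ZMod 2} {X Y Z K K' V : Set P} {a : ZMod 2}

theorem tails_of (H : ∀ r, ∀ᶠ n : ℕ in atTop, g ^ n * r ∉ Z ∧ (g ^ n)⁻¹ * r ∉ Z) :
    Tails g 1 Z := fun r => by
  obtain ⟨N, hN⟩ := eventually_atTop.1 (H r)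
  refine (Set.finite_Ioo (-(N : ℤ)) N).subset fun n hn => ?_
  rw [Set.mem_ofPred_eq, one_mul] at hn
  by_contra hh
  rw [Set.mem_Ioo, not_and_or, not_lt, not_lt] at hh
  rcases hh with hh | hh
  · obtain ⟨m, rfl⟩ : ∃ m : ℕ, n = -(m : ℤ) := ⟨(-n).toNat, by omega⟩
    exact (hN m (by omega)).2 (by simpa using hn)
  · obtain ⟨m, rfl⟩ : ∃ m : ℕ, n = (m : ℤ) := ⟨n.toNat, by omega⟩
    exact (hN m (by omega)).1 (by simpa using hn)

theorem inj_of (H : To c X Xᶜ) : Function.Injective fun n : ℤ => c ^ n := by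
  rw [injective_zpow_iff_not_isOfFinOrder]
  intro hf
  obtain ⟨k, hk, e⟩ := isOfFinOrder_iff_pow_eq_one.1 hf
  obtain ⟨N, hN⟩ := eventually_atTop.1 (H 1)
  have := hN (k * N) (Nat.le_mul_of_pos_left N hk)
  rw [pow_mul, e, one_pow, inv_one] at this
  exact this.2 this.1

theorem ind_eq (x y : P) : ind K x = ind K y ↔ (x ∈ K ↔ y ∈ K) := by
  unfold ind
  by_cases h1 : x ∈ K <;> by_cases h2 : y ∈ K <;> simp [h1, h2]

theorem ind_one (x : P) : ind K x = 1 ↔ x ∈ K := by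
  unfold ind
  by_cases h1 : x ∈ K <;> simp [h1]

theorem zinv (H : AI c (ind K)) (n : ℤ) (x : P) : c ^ n * x ∈ K ↔ x ∈ K := by
  have k : ∀ x, c * x ∈ K ↔ x ∈ K := fun x => (ind_eq _ _).1 (H.1 x)
  induction n using Int.induction_on with
  | zero => simp
  | succ n ih =>
    rw [add_comm, zpow_one_add, mul_assoc]
    exact (k _).trans ih
  | pred n ih =>
    refine (k _).symm.trans ?_
    rw [← mul_assoc, ← zpow_one_add]
    simpa using ih

theorem bd (H : AI c (ind K)) (y : P) : FinMod c {x | ¬ (x ∈ K ↔ x * y ∈ K)} := by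
  obtain ⟨R, hR⟩ := H.2 y
  exact ⟨R, fun x hx => hR x fun e => hx ((ind_eq _ _).1 e).symm⟩

theorem bdc (H : AI c (ind K)) (y : P) : FinMod c {x | ¬ (x ∈ Kᶜ ↔ x * y ∈ Kᶜ)} := by
  obtain ⟨R, hR⟩ := bd H y
  exact ⟨R, fun x hx => hR x fun e => hx (not_congr e)⟩

theorem ev_const (f : ℕ → ZMod 2) (H : {n | f (n + 1) ≠ f n}.Finite) :
    ∃ a, ∀ᶠ n in atTop, f n = a := by
  obtain ⟨N, hN⟩ := H.bddAbove
  refine ⟨f (N + 1), eventually_atTop.2 ⟨N + 1, fun n hn => ?_⟩⟩
  induction n, hn using Nat.le_induction with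
  | base => rfl
  | succ n hn ih =>
    rw [← ih]
    by_contra hh
    have := hN hh
    omega

/-- A function with few jumps near a wall has a value at each end of the wall. -/
theorem ends (hc : Function.Injective fun n : ℤ => c ^ n) (H : AI c (ind K)) {y1 y2 : P}
    (h1 : y1 ∈ K) (h2 : y2 ∉ K)
    (hs : ∀ y, {x | s (x * y) ≠ s x ∧ x * y1 ∈ K ∧ x * y2 ∉ K}.Finite) :
    ∃ a b, To c {x | s x = a} {x | s x = b} := by
  have k : ∀ y, {n : ℤ | s (c ^ n * y) ≠ s (c ^ n)}.Finite := fun y =>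
    ((hs y).preimage hc.injOn).subset fun n hn =>
      ⟨hn, (zinv H n y1).2 h1, fun hh => h2 ((zinv H n y2).1 hh)⟩
  have i1 : Function.Injective fun n : ℕ => (n : ℤ) := Nat.cast_injective
  have i2 : Function.Injective fun n : ℕ => -(n : ℤ) := neg_injective.comp i1
  obtain ⟨a, ha⟩ := ev_const (fun n => s (c ^ n)) (((k c).preimage i1.injOn).subset
    fun n hn => by simpa [pow_succ] using hn)
  obtain ⟨b, hb⟩ := ev_const (fun n => s (c ^ n)⁻¹) (((k c⁻¹).preimage i2.injOn).subset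
    fun n hn => by simpa [pow_succ'] using hn)
  refine ⟨a, b, fun y => ?_⟩
  have e1 := ((k y).preimage i1.injOn).eventually_cofinite_notMem
  have e2 := ((k y).preimage i2.injOn).eventually_cofinite_notMem
  rw [Nat.cofinite_eq_atTop] at e1 e2
  filter_upwards [ha, hb, e1, e2] with n a1 a2 a3 a4
  exact ⟨Eq.trans (by simpa using a3) a1, Eq.trans (by simpa using a4) a2⟩

/-- The two values differ when the wall is crossed by the line. -/
theorem ends_ne (hL : Lk g s) (H : AI c (ind K)) (hg : To g Kᶜ K) {a b : ZMod 2}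
    (h : To c {x | s x = a} {x | s x = b}) : a = b + 1 := by
  rcases two b a with e | e
  · subst e
    refine absurd (fun y => ?_) (hL Kᶜ (a + 1) (by rwa [compl_compl]))
    refine (tails_of (Z := {x | s x = a + 1}) fun r => ?_).inter (bdc H y)
    filter_upwards [h r] with n hn
    exact ⟨fun e => ne_succ a (e.symm.trans hn.1), fun e => ne_succ a (e.symm.trans hn.2)⟩
  · exact e

theorem finB_of (H : ∀ y, {x | x ∈ V ∧ x * y ∉ V}.Finite) : FinB Set.univ V := fun y => by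
  refine ((H y).union ((H y⁻¹).preimage (mul_left_injective y).injOn)).subset fun x hx => ?_
  by_cases h : x ∈ V
  · exact Or.inl ⟨h, fun h' => hx.2 (iff_of_true h h')⟩
  · refine Or.inr ⟨by_contra fun h' => hx.2 (iff_of_false h h'), ?_⟩
    simpa using h

/-- A function that has one value on both boundaries of a quadrant has it almost everywhere. -/
theorem quadr (hP : OneEnd P) (h1 : ∀ y, FinMod d {x | ¬ (x ∈ K ↔ x * y ∈ K)})
    (h2 : ∀ y, FinMod d' {x | ¬ (x ∈ K' ↔ x * y ∈ K')}) (t1 : Tails d 1 (K' ∩ {x | s x ≠ a}))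
    (t2 : Tails d' 1 (K ∩ {x | s x ≠ a})) (hs : ∀ y, (K ∩ K' ∩ {x | s (x * y) ≠ s x}).Finite)
    (hi : K'ᶜ.Infinite) : (K ∩ K' ∩ {x | s x ≠ a}).Finite := by
  refine (hP _ (finB_of fun y => ?_)).resolve_right fun hf => hi (hf.subset fun x hx h => hx h.1.2)
  refine (((t1.inter (h1 y)).union (t2.inter (h2 y))).union (hs y)).subset ?_
  rintro x ⟨⟨⟨x1, x2⟩, x3⟩, hx⟩
  by_cases c1 : x * y ∈ K
  · by_cases c2 : x * y ∈ K'
    · exact Or.inr ⟨⟨x1, x2⟩, fun e => hx ⟨⟨c1, c2⟩, fun e' => x3 (e.symm.trans e')⟩⟩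
    · exact Or.inl (Or.inr ⟨⟨x1, x3⟩, fun e => c2 (e.1 x2)⟩)
  · exact Or.inl (Or.inl ⟨⟨x2, x3⟩, fun e => c1 (e.1 x1)⟩)

theorem inf_of (hc : Function.Injective fun n : ℤ => c ^ n) (H : AI c (ind K)) {y : P} :
    (y ∈ K → K.Infinite) ∧ (y ∉ K → Kᶜ.Infinite) :=
  ⟨fun h => Set.infinite_of_injective_forall_mem (f := fun n : ℤ => c ^ n * y)
      (fun _ _ e => hc (mul_right_cancel e)) fun n => (zinv H n y).2 h,
    fun h => Set.infinite_of_injective_forall_mem (f := fun n : ℤ => c ^ n * y)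
      (fun _ _ e => hc (mul_right_cancel e)) fun n hn => h ((zinv H n y).1 hn)⟩

end QuadP

open QuadP in
theorem quad : QuadStmt := by
  intro P _ g c c' s H H' hP hs hL hc hc' t1 t2 tg
  have j1 := inj_of t1
  have j2 := inj_of (X := Hᶜ) (by rwa [compl_compl])
  -- jumps of `s` are deep in the two quadrants of the line
  have deep : ∀ (K K' : Set P), (K = H ∨ K = H') → (K' = H ∨ K' = H') → ∀ y y1 y2,
      {x | s (x * y) ≠ s x ∧ x * y1 ∈ K ∧ x * y2 ∉ K'}.Finite := by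
    intro K K' hK hK' y y1 y2
    refine ((tails_of (Z := {x | x * y1 ∈ K ∧ x * y2 ∉ K'}) fun r => ?_).inter
      (hs.2 y)).subset fun x hx => ⟨hx.2, hx.1⟩
    filter_upwards [tg (r * y1), tg (r * y2)] with n a1 a2
    rw [← mul_assoc, ← mul_assoc] at a1 a2
    refine ⟨fun h => ?_, fun h => ?_⟩
    · rcases hK with rfl | rfl
      exacts [a1.1.1 h.1, a1.1.2 h.1]
    · rcases hK' with rfl | rfl
      exacts [h.2 a2.2.1, h.2 a2.2.2]
  obtain ⟨m, ⟨m1, m2⟩, m3, m4⟩ := (tg 1).exists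
  obtain ⟨ap, am, ha⟩ := ends j1 hc.1 m3 m1 fun y => deep H H (Or.inl rfl) (Or.inl rfl) y _ _
  obtain ⟨bp, bm, hb⟩ := ends j2 hc'.1 m4 m2 fun y => deep H' H' (Or.inr rfl) (Or.inr rfl) y _ _
  have ea := ends_ne hL hc.1 (fun y => (tg y).mono fun n h => ⟨h.1.1, h.2.1⟩) ha
  have eb := ends_ne hL hc'.1 (fun y => (tg y).mono fun n h => ⟨h.1.2, h.2.2⟩) hb
  have e : am = bm := by
    by_contra hne
    refine hc.2 ({x | s x = am} ∩ H'ᶜ)ᶜ 1 (fun y => ?_) fun y => ?_
    · filter_upwards [t1 y, ha y] with n a1 a2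
      exact ⟨fun h => h.2 a1.1, fun h => h ⟨a2.2, a1.2⟩⟩
    · have f := (tails_of (g := c') (Z := H ∩ {x | s x = am}) fun r => by
        filter_upwards [t2 r, hb r] with n a1 a2
        exact ⟨fun h => a1.1 h.1, fun h => hne (Eq.trans h.2.symm a2.2)⟩).inter (bd hc'.1 y)
      refine ((f.union (deep H H' (Or.inl rfl) (Or.inr rfl) y 1 1)).union
        (deep H H' (Or.inl rfl) (Or.inr rfl) y 1 y)).subset ?_
      rintro x ⟨x1, x2⟩
      have x1 : x ∈ H := (ind_one x).1 x1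
      simp only [Set.mem_union, Set.mem_inter_iff, Set.mem_ofPred_eq, Set.mem_compl_iff,
        mul_one] at x2 ⊢
      by_cases c1 : s (x * y) = s x
      · rw [c1] at x2
        tauto
      · tauto
  subst e
  subst ea
  subst eb
  have f1 := quadr (K := H) (K' := H'ᶜ) (s := s) (a := am) hP (bd hc.1) (bdc hc'.1)
    (tails_of fun r => by
      filter_upwards [t1 r, ha r] with n a1 a2
      exact ⟨fun h => h.1 a1.1, fun h => h.2 a2.2⟩)
    (tails_of fun r => by
      filter_upwards [t2 r, hb r] with n a1 a2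
      exact ⟨fun h => a1.1 h.1, fun h => h.2 a2.2⟩)
    (fun y => (deep H H' (Or.inl rfl) (Or.inr rfl) y 1 1).subset fun x hx =>
      ⟨hx.2, by simpa using hx.1.1, by simpa using hx.1.2⟩)
    (by rw [compl_compl]; exact (inf_of j2 hc'.1).1 m4)
  have f2 := quadr (K := Hᶜ) (K' := H') (s := s) (a := am + 1) hP (bdc hc.1) (bd hc'.1)
    (tails_of fun r => by
      filter_upwards [t1 r, ha r] with n a1 a2
      exact ⟨fun h => h.2 a2.1, fun h => a1.2 h.1⟩)
    (tails_of fun r => by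
      filter_upwards [t2 r, hb r] with n a1 a2
      exact ⟨fun h => h.2 a2.1, fun h => h.1 a1.2⟩)
    (fun y => (deep H' H (Or.inr rfl) (Or.inl rfl) y 1 1).subset fun x hx =>
      ⟨hx.2, by simpa using hx.1.2, by simpa using hx.1.1⟩)
    ((inf_of j2 hc'.1).2 m2)
  exact ⟨am, _, f1.union f2, fun y hy hn => by_contra fun h => hn (Or.inl ⟨hy, h⟩),
    fun y hy hn => by_contra fun h => hn (Or.inr ⟨hy, h⟩)⟩

end Pool.Agent.MP_7ebdba_gt.w
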