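import Pool.Agent.MP_7ebdba_gt.w.Spec

/-! Row WALL: the traces of the half spaces on the surface group are walls. -/

open Filter

namespace Pool.Agent.MP_7ebdba_gt.w

open ch ge

namespace WallP

section Gen

variable {P M : Type} [Group P] [Group M] {g c c' : P} {X Y : Set P} {φ : P →* M} {w0 : M}

theorem to_inv (h : To g⁻¹ X Y) : To g Y X := fun y =>
  (h y).mono fun n hn => by simpa using hn.symm

theorem not_fin (h : To g X Xᶜ) : ¬ IsOfFinOrder g := fun hf => by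
  obtain ⟨k, hk, e⟩ := isOfFinOrder_iff_pow_eq_one.1 hf
  obtain ⟨n, hn⟩ := eventually_atTop.1 (h 1)
  have := hn (k * n) (Nat.le_mul_of_pos_left n hk)
  rw [pow_mul, e, one_pow, inv_one] at this
  exact this.2 this.1

theorem inf_of (h : To g X Xᶜ) : X.Infinite := by
  obtain ⟨n, hn⟩ := eventually_atTop.1 (h 1)
  refine Set.infinite_of_injective_forall_mem (f := fun k : ℕ => g ^ (n + k))
    (fun k k' e => add_left_cancel (injective_pow_iff_not_isOfFinOrder.2 (not_fin h) e)) fun k => ?_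
  simpa using (hn _ (Nat.le_add_right n k)).1

theorem pigeon (h : To g X Y) (hf : FinMod c X) : ∃ m k : ℤ, m ≠ 0 ∧ g ^ m = c ^ k := by
  obtain ⟨n, hn⟩ := eventually_atTop.1 (h 1)
  obtain ⟨R, hR⟩ := hf
  choose k r hr e using fun i : ℕ => hR _ (hn _ (Nat.le_add_right n i)).1
  obtain ⟨i, i', hi, e'⟩ := Finite.exists_ne_map_eq_of_infinite fun i => (⟨r i, hr i⟩ : R)
  refine ⟨(n + i : ℕ) - (n + i' : ℕ), k i - k i', by omega, ?_⟩
  rw [zpow_sub, zpow_sub, zpow_natCast, zpow_natCast, ← mul_one (g ^ (n + i)),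
    ← mul_one (g ^ (n + i')), e, e, show r i = r i' from congrArg Subtype.val e']
  group

theorem to_pull {u t : M} {X Y : Set M} (h : To t X Y) {p : ℕ} (hp : 0 < p) (e : φ g = t ^ p)
    (hu : Commute u t) (w0 : M) : To g {y | φ y * w0 ∈ X} {y | u * (φ y * w0) ∈ Y} := fun y => by
  have k := tendsto_id.const_mul_atTop' hp
  filter_upwards [k.eventually (h (φ y * w0)), k.eventually (h (u * (φ y * w0)))] with n h1 h2
  simp only [map_mul, map_inv, map_pow, e, ← pow_mul, mul_assoc]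
  refine ⟨h1.1, ?_⟩
  rw [← mul_assoc u, (hu.pow_right _).inv_right.eq, mul_assoc]
  exact h2.2

theorem ai_ind (h1 : ∀ x, c * x ∈ X ↔ x ∈ X) (h2 : ∀ y, FinMod c {x | ¬ (x ∈ X ↔ x * y ∈ X)}) :
    AI c (ind X) := by
  classical
  refine ⟨fun x => by simp only [ind, h1], fun y => ?_⟩
  obtain ⟨R, hR⟩ := h2 y
  exact ⟨R, fun x hx => hR x fun e => hx (by simp only [ind, e])⟩

variable {a q v h : M}

theorem mem2 : q ∈ Subgroup.closure {q, v} ∧ v ∈ Subgroup.closure {q, v} :=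
  ⟨Subgroup.subset_closure (by simp), Subgroup.subset_closure (by simp)⟩

theorem mem3 : v ∈ Subgroup.closure {q, v, h} ∧ h ∈ Subgroup.closure {q, v, h} :=
  ⟨Subgroup.subset_closure (by simp), Subgroup.subset_closure (by simp)⟩

theorem inv_mul (r : Rel a q v h) : (h * a)⁻¹ = a * h := by
  rw [mul_inv_rev, inv_eq_of_mul_eq_one_right r.aa, inv_eq_of_mul_eq_one_right r.hh]

theorem step (r : Rel a q v h) (H : Hf a q v h) {w : M} (hw : Beh a q v h w) :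
    Beh a q v h ((h * a)⁻¹ * w) := by
  rw [inv_mul r, mul_assoc, H.flip]
  exact H.dis h mem3.2 H.hC w hw

theorem toU (r : Rel a q v h) (H : Hf a q v h) :
    To (h * a) {w | ¬ Beh a q v h w} {w | Beh a q v h w} :=
  H.exh _ (fun _ => step r H) (by rw [inv_mul r, H.flip]; exact H.notB h mem3.2)

theorem indep (r : Rel a q v h) (H : Hf a q v h) {m k : ℤ} (hm : m ≠ 0) :
    (h * a) ^ m ≠ (q * v) ^ k := fun e => by
  obtain ⟨n, hn⟩ := eventually_atTop.1 (toU r H 1)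
  have h1 : (h * a) ^ m ∈ Subgroup.closure {q, v, h} :=
    e ▸ zpow_mem (mul_mem (Subgroup.subset_closure (by simp)) mem3.1) k
  have h2 : (h * a) ^ m.natAbs ∈ Subgroup.closure {q, v, h} := by
    rw [← zpow_natCast, Int.natCast_natAbs]
    rcases abs_choice m with e | e <;> rw [e]
    · exact h1
    · exact zpow_neg (h * a) m ▸ inv_mem h1
  refine H.notB _ ?_ (hn (m.natAbs * n) (Nat.le_mul_of_pos_left n (Int.natAbs_pos.2 hm))).2
  rw [mul_one, pow_mul]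
  exact inv_mem (pow_mem h2 n)

/-- one family of walls -/
theorem gen (r : Rel a q v h) (H : Hf a q v h) (inj : Function.Injective φ) (w0 : M) {m : ℤ}
    (hm : m ≠ 0) (e : φ c = (q * v) ^ m) {p : ℕ} (hp : 0 < p) (e' : φ c' = (h * a) ^ p) {X : Set P}
    (hX : X = {y | Beh a q v h (φ y * w0)}) : To c' Xᶜ X ∧ AI c (ind X) ∧ AI c (ind Xᶜ) ∧
      ¬ FinMod c X ∧ ¬ FinMod c Xᶜ := by
  classical
  have t : To c' Xᶜ X := by
    have := to_pull (toU r H) hp e' (Commute.one_left _) w0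
    simp only [one_mul] at this
    exact hX ▸ this
  have h1 : ∀ x, c * x ∈ X ↔ x ∈ X := fun x => by
    simp only [hX, Set.mem_ofPred_eq, map_mul, e, mul_assoc]
    exact H.cinv _ (zpow_mem (mul_mem mem2.1 mem2.2) m) _
  have h2 : ∀ y, FinMod c {x | ¬ (x ∈ X ↔ x * y ∈ X)} := fun y => by
    obtain ⟨F, hF⟩ := H.edge (w0⁻¹ * φ y * w0)
    refine ⟨(((Finset.Ico 0 |m|) ×ˢ F).image fun z => (q * v) ^ z.1 * z.2 * w0⁻¹).preimage φ
      inj.injOn, fun x hx => ?_⟩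
    obtain ⟨n, f, hf, e1⟩ := hF (φ x * w0) (by simpa [hX, mul_assoc] using hx)
    refine ⟨n / m, (c ^ (n / m))⁻¹ * x, ?_, by simp⟩
    simp only [Finset.mem_preimage, Finset.mem_image, Finset.mem_product, Finset.mem_Ico]
    refine ⟨(n % m, f), ⟨⟨Int.emod_nonneg _ hm, Int.emod_lt_abs _ hm⟩, hf⟩, ?_⟩
    rw [map_mul, map_inv, map_zpow, e, eq_mul_inv_of_mul_eq e1, ← zpow_mul, eq_inv_mul_iff_mul_eq,
      ← mul_assoc, ← mul_assoc, ← zpow_add, Int.mul_ediv_add_emod]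
  have h3 : ∀ i k : ℤ, i ≠ 0 → c' ^ i ≠ c ^ k := fun i k hi e1 => by
    have := congrArg φ e1
    rw [map_zpow, map_zpow, e, e', ← zpow_natCast, ← zpow_mul, ← zpow_mul] at this
    exact indep r H (mul_ne_zero (by omega) hi) this
  refine ⟨t, ai_ind h1 h2, ai_ind (fun x => (h1 x).not) fun y => ?_, fun hf => ?_, fun hf => ?_⟩
  · simpa only [Set.mem_compl_iff, not_iff_not] using h2 y
  · obtain ⟨i, k, hi, e1⟩ := pigeon (to_inv (g := c'⁻¹) (by rwa [inv_inv])) hf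
    exact h3 (-i) k (by omega) (by rwa [zpow_neg, ← inv_zpow])
  · obtain ⟨i, k, hi, e1⟩ := pigeon t hf
    exact h3 i k hi e1

end Gen

/-- the conjugated embedding -/
def emb (j : G →* W) (ι : S 2 →* G) (γ : G) : S 2 →* W :=
  j.comp ((MulAut.conj γ⁻¹).toMonoidHom.comp ι)

theorem pull_eq (j : G →* W) (ι : S 2 →* G) (γ : G) (X : Set W) :
    pull j ι γ X = {y | emb j ι γ y * j γ⁻¹ ∈ X} := by
  ext y
  simp [pull, emb]

end WallP

open WallP

theorem wall (h1 : HfStmt) (h2 : NcStmt) (h3 : LkStmt) (h4 : WlStmt) : WallStmt := by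
  intro j Ψ ι θ hj he γ c c' hc hc'
  have r := cox.rel
  have fa := h1 _ _ _ _ _ cox
  have fq := h1 _ _ _ _ _ cox.symm
  have inj : ∀ γ, Function.Injective (emb j ι γ) := fun γ =>
    hj.inj.comp ((MulAut.conj γ⁻¹).injective.comp he.inj)
  have eU : ∀ γ c', ι c' = γ * gU ^ 6 * γ⁻¹ → emb j ι γ c' = (wh * wa) ^ 6 := fun γ c' h => by
    simp [emb, h, hj.U, wU, mul_assoc]
  have eR : emb j ι γ c = (wq * wv) ^ 2 := by simp [emb, hc, hj.R, wR, mul_assoc]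
  obtain ⟨a1, a2, a3, a4, a5⟩ := gen r fa (inj γ) (j γ⁻¹) (m := 2) two_ne_zero
    (eR.trans (zpow_ofNat _ 2).symm) (by norm_num) (eU γ c' hc') (pull_eq j ι γ A)
  obtain ⟨q1, q2, -, q4, q5⟩ := gen (c' := c⁻¹) r.symm fq (inj γ) (j γ⁻¹) (m := -6) (by norm_num)
    (by rw [eU γ c' hc', ← inv_mul r, inv_zpow', neg_neg, zpow_ofNat]) two_pos
    (by rw [map_inv, eR, ← inv_mul r.symm, inv_pow, inv_inv]) (pull_eq j ι γ Q)
  obtain ⟨s, s1, s2⟩ := h3.2 c (not_fin (to_inv q1))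
  obtain ⟨s', s1', s2'⟩ := h3.2 c' (not_fin (by rwa [compl_compl]))
  have x1 : ∀ w ∈ A, wv * (wh * w) ∉ Q := fun w hw hq =>
    fq.notB _ (mul_mem mem3.2 mem3.1) (((h2 _ _ _ _ _ cox _ (mul_mem mem3.1 mem3.2) fa.vhC.1
      (mul_assoc wh wv wh ▸ fa.vhC.2)).2 w hw).1 (by rwa [mul_assoc]))
  have inf : ∀ γ, (pull j ι γ A).Infinite ∧ (pull j ι γ Aᶜ).Infinite := fun γ => by
    obtain ⟨d, hd⟩ := (he.ran (γ * gU ^ 6 * γ⁻¹)).1 (by
      rw [map_mul, map_mul, map_pow, chi_U, show DihedralGroup.r (1 : ZMod 6) ^ 6 = 1 by decide]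
      simp)
    have t := to_pull (toU r fa) (by norm_num) (eU γ d hd) (Commute.one_left _) (j γ⁻¹)
    simp only [one_mul] at t
    rw [pull_eq, pull_eq]
    have t' : To d {y | _ ∈ A}ᶜ {y | _ ∈ A} := t
    exact ⟨inf_of (to_inv (g := d⁻¹) (by rwa [inv_inv])),
      inf_of (g := d) (X := {y | _ ∈ A}ᶜ) (by rwa [compl_compl])⟩
  refine ⟨h4 _ c s _ s1 s2 a2 a4 a5, h4 _ c s (pull j ι γ A)ᶜ s1 s2 a3 a5 (by rwa [compl_compl]),
    h4 _ c' s' _ s1' s2' q2 q4 q5, to_inv q1, ?_,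
    (inf (γ * (gU⁻¹ * gR⁻¹ * gU⁻¹))).1.mono fun y hy => ?_,
    (inf (γ * (gR * gU))).2.mono fun y hy => ?_⟩
  · have t := to_pull (toU r fa) (by norm_num) (eU γ c' hc') (Commute.refl _) (j γ⁻¹)
    convert t using 1
    · exact pull_eq _ _ _ _
    · ext y
      simp [pull, emb, hj.U, wU, A, mul_assoc]
  · obtain ⟨w, hw, e⟩ : ∃ w ∈ A, j (γ⁻¹ * ι y) = wU⁻¹ * (wR⁻¹ * (wU⁻¹ * w)) :=
      ⟨_, hy, by simp [hj.U, hj.R, mul_assoc]⟩
    have k : wR⁻¹ * (wU⁻¹ * w) = wa * (wv * (wh * (wq * w))) := by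
      rw [wR, wU, inv_mul r, ← inv_inv (wq * wv), ← inv_mul r.symm]
      simp only [inv_inv, ← mul_assoc]
      rw [r.av, mul_assoc _ wh wq, ← r.qh, mul_assoc wv wq, ← r.aq]
      simp only [mul_assoc]
    change _ ∧ _
    rw [e, mul_inv_cancel_left]
    refine ⟨(fa.cinv _ (inv_mem (mul_mem mem2.1 mem2.2)) _).2 (step r fa hw), fun hq => ?_⟩
    have := (fq.cinv _ (inv_mem (mul_mem mem2.2 mem2.1)) _).1 hq
    rw [k, fq.cinv _ mem2.1] at this
    exact x1 _ ((fa.cinv _ mem2.1 _).2 hw) this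
  · obtain ⟨w, hw, e⟩ : ∃ w ∉ A, j (γ⁻¹ * ι y) = wq * (wv * (wh * (wa * w))) :=
      ⟨_, hy, by simp [hj.U, hj.R, wU, wR, mul_assoc]⟩
    have k := (fa.flip w).2 hw
    change _ ∧ _
    rw [e]
    exact ⟨fun h => fa.dis _ mem3.2 fa.hC _ k ((fa.cinv _ mem2.2 _).1 ((fa.cinv _ mem2.1 _).1 h)),
      (fq.flip _).2 (x1 _ k)⟩

end Pool.Agent.MP_7ebdba_gt.w
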