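import Pool.Agent.MP_7ebdba_gt.w.Top
import Pool.Agent.MP_7ebdba_gt.w.Hf
import Pool.Agent.MP_7ebdba_gt.w.Nc
import Pool.Agent.MP_7ebdba_gt.w.Cyc
import Pool.Agent.MP_7ebdba_gt.w.Bridge
import Pool.Agent.MP_7ebdba_gt.w.Mod
import Pool.Agent.MP_7ebdba_gt.w.Emb
import Pool.Agent.MP_7ebdba_gt.w.D1
import Pool.Agent.MP_7ebdba_gt.w.D2
import Pool.Agent.MP_7ebdba_gt.w.D3
import Pool.Agent.MP_7ebdba_gt.w.Blk
import Pool.Agent.MP_7ebdba_gt.w.Psi
import Pool.Agent.MP_7ebdba_gt.w.Lk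
import Pool.Agent.MP_7ebdba_gt.w.Link
import Pool.Agent.MP_7ebdba_gt.w.Quad
import Pool.Agent.MP_7ebdba_gt.w.Wall
import Pool.Agent.MP_7ebdba_gt.w.Cert
import Pool.Agent.MP_7ebdba_gt.w.Line
import Pool.Agent.MP_7ebdba_gt.ch.Main
import Pool.Agent.MP_7ebdba_gt.ss.Main

/-! Assembly of the geometric half, of Part I and of the main statement. -/

namespace Pool.Agent.MP_7ebdba_gt.w

theorem geoAll : GeoStmt :=
  geo mod tw emb blk (psi hf)
    (kS cyc (d1 hf (nc hf)) (d2 hf (nc hf) (bridge hf (nc hf))) (d3 hf cyc) (psi hf)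
      (cert hf lk link quad (wall hf (nc hf) lk wl)))
    (line hf (nc hf)) mapS

theorem partI : PartI := ch.partI_of_no_chain geoAll

theorem mainAll : MainStmt := main_of partI SS.partII

end Pool.Agent.MP_7ebdba_gt.w
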