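import Pool.Agent.MP_7ebdba_gt.ge.End

/-! The geometric half of Part I: the Coxeter group of the quadrilateral (2,2,2,3). -/

open Filter

namespace Pool.Agent.MP_7ebdba_gt.w

open ch ge

/-! ### Walls in an arbitrary group -/

section Gen

variable {P : Type} [Group P]

/-- The two tails of all translates of the line of `g`. -/
def To (g : P) (X Y : Set P) : Prop :=
  ∀ y, ∀ᶠ n : ℕ in atTop, g ^ n * y ∈ X ∧ (g ^ n)⁻¹ * y ∈ Y

/-- The coboundary of `H` has finitely many edges that start in `X`. -/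
def FinB (X H : Set P) : Prop := ∀ y, {x | x ∈ X ∧ ¬ (x ∈ H ↔ x * y ∈ H)}.Finite

/-- Linking is symmetric. -/
def Lk (g : P) (s : P → ZMod 2) : Prop := ∀ H a, To g H Hᶜ → ¬ FinB {x | s x = a} H

open Classical in
/-- Indicator. -/
noncomputable def ind (H : Set P) (x : P) : ZMod 2 := if x ∈ H then 1 else 0

/-- `H` is a side of the line of `c`. -/
def Wl (c : P) (H : Set P) : Prop := AI c (ind H) ∧ Lk c (ind H)

end Gen

def OneEnd (P : Type) [Group P] : Prop := ∀ V : Set P, FinB Set.univ V → V.Finite ∨ Vᶜ.Finite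

/-- Duality in the surface group. -/
def LkStmt : Prop :=
  OneEnd (S 2) ∧ ∀ g : S 2, ¬ IsOfFinOrder g → ∃ s, Side g s ∧ Lk g s

def WlStmt : Prop :=
  ∀ (P : Type) [Group P] (c : P) (s : P → ZMod 2) (H : Set P), Side c s → Lk c s →
    AI c (ind H) → ¬ FinMod c H → ¬ FinMod c Hᶜ → Wl c H

def LinkStmt : Prop :=
  ∀ (P : Type) [Group P] (g c cN cM : P) (s : P → ZMod 2) (H N M : Set P), OneEnd P → AI0 g s →
    Lk g s → Wl cN N → Wl cM M → AI c (ind H) → To c M N → Tails g 1 (N ∪ M) → To g H Hᶜ →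
    ∃ (a : ZMod 2) (F : Set P), F.Finite ∧ (∀ y ∈ N, y ∉ F → s y = a) ∧
      ∀ y ∈ M, y ∉ F → s y = a + 1

def QuadStmt : Prop :=
  ∀ (P : Type) [Group P] (g c c' : P) (s : P → ZMod 2) (H H' : Set P), OneEnd P → AI0 g s →
    Lk g s → Wl c H → Wl c' H' → To c H' H'ᶜ → To c' Hᶜ H → To g (Hᶜ ∩ H'ᶜ) (H ∩ H') →
    ∃ (a : ZMod 2) (F : Set P), F.Finite ∧ (∀ y ∈ H ∩ H'ᶜ, y ∉ F → s y = a) ∧
      ∀ y ∈ Hᶜ ∩ H', y ∉ F → s y = a + 1

/-! ### The Coxeter group -/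

section Cox

variable {W : Type} [Group W]

structure Rel (a q v h : W) : Prop where
  aa : a * a = 1
  qq : q * q = 1
  vv : v * v = 1
  hh : h * h = 1
  aq : a * q = q * a
  av : a * v = v * a
  qh : q * h = h * q
  vh : v * h * v = h * v * h

structure Cox (a q v h : W) : Prop where
  rel : Rel a q v h
  gen : Subgroup.closure {a, q, v, h} = ⊤
  lift : ∀ (M : Type) [Group M] (a' q' v' h' : M), Rel a' q' v' h' →
    ∃ f : W →* M, f a = a' ∧ f q = q' ∧ f v = v' ∧ f h = h'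

/-- The half space behind the wall of `a`. -/
inductive Beh (a q v h : W) : W → Prop
  | base : Beh a q v h a
  | sa {w : W} : Beh a q v h w → w ∉ Subgroup.closure {a, q, v} → Beh a q v h (w * a)
  | sq {w : W} : Beh a q v h w → Beh a q v h (w * q)
  | sv {w : W} : Beh a q v h w → Beh a q v h (w * v)
  | sh {w : W} : Beh a q v h w → Beh a q v h (w * h)

/-- Facts on one family of half spaces. -/
structure Hf (a q v h : W) : Prop where
  flip : ∀ w, Beh a q v h (a * w) ↔ ¬ Beh a q v h w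
  cinv : ∀ c ∈ Subgroup.closure {q, v}, ∀ w, Beh a q v h (c * w) ↔ Beh a q v h w
  notB : ∀ b ∈ Subgroup.closure {q, v, h}, ¬ Beh a q v h b
  dis : ∀ b ∈ Subgroup.closure {q, v, h}, b ∉ Subgroup.closure {q, v} → ∀ w, Beh a q v h w →
    ¬ Beh a q v h (b * w)
  edge : ∀ y, ∃ F : Finset W, ∀ x, ¬ (Beh a q v h x ↔ Beh a q v h (x * y)) →
    ∃ n : ℤ, ∃ f ∈ F, x = (q * v) ^ n * f
  one : ∀ g, (∀ w, Beh a q v h w → Beh a q v h (g⁻¹ * w)) → Beh a q v h g⁻¹ →
    ∀ s ∈ ({a, q, v, h} : Set W), ∀ w, Beh a q v h (w * s) → Beh a q v h (g⁻¹ * w)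
  exh : ∀ g, (∀ w, Beh a q v h w → Beh a q v h (g⁻¹ * w)) → Beh a q v h g⁻¹ →
    To g {w | ¬ Beh a q v h w} {w | Beh a q v h w}
  hC : h ∉ Subgroup.closure {q, v}
  vhC : v * h ∉ Subgroup.closure {q, v} ∧ h * v * h ∉ Subgroup.closure {q, v}
  nfC : ∀ c ∈ Subgroup.closure {q, v}, ∃ n : ℤ, c = (q * v) ^ n ∨ c = (q * v) ^ n * q

end Cox

def HfStmt : Prop := ∀ (W : Type) [Group W] (a q v h : W), Cox a q v h → Hf a q v h

/-- Walls of the two families that do not cross. -/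
def NcStmt : Prop :=
  ∀ (W : Type) [Group W] (a q v h : W), Cox a q v h →
    ∀ b ∈ Subgroup.closure {q, v, h}, b ∉ Subgroup.closure {q, v} →
      h * b ∉ Subgroup.closure {q, v} →
      (∀ c ∈ Subgroup.closure {q, v}, Beh q a h v (b * c) ↔ Beh q a h v b) ∧
        ∀ w, Beh a q v h w → (Beh q a h v (b * w) ↔ Beh q a h v b)

/-- Cyclic reduction. -/
def CycStmt : Prop :=
  ∀ (W : Type) [Group W] (a : W) (B C : Subgroup W), a * a = 1 → (∀ c ∈ C, a * c = c * a) →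
    ∀ g ∈ B ⊔ Subgroup.zpowers a, ∃ γ ∈ B ⊔ Subgroup.zpowers a,
      γ⁻¹ * g * γ ∈ B ∨ (∃ c ∈ B, c ∈ C ∧ γ⁻¹ * g * γ = c * a) ∨
        ∃ l : List W, l ≠ [] ∧ (∀ b ∈ l, b ∈ B ∧ b ∉ C) ∧ γ⁻¹ * g * γ = (l.map (· * a)).prod

/-- A wall of the second family between two regions that are not adjacent. -/
def BridgeStmt : Prop :=
  ∀ (W : Type) [Group W] (a q v h : W), Cox a q v h →
    ∀ b ∈ Subgroup.closure {q, v, h}, b ∉ Subgroup.closure {q, v} →
      (∀ c ∈ Subgroup.closure {q, v}, ∀ c' ∈ Subgroup.closure {q, v}, b ≠ c * h * c') →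
      ∃ u ∈ Subgroup.closure {q, v, h}, u ∉ Subgroup.closure {q, v} ∧
        h * u ∉ Subgroup.closure {q, v} ∧ u * b ∉ Subgroup.closure {q, v} ∧
        h * (u * b) ∉ Subgroup.closure {q, v} ∧ ¬ Beh q a h v u ∧ Beh q a h v (u * b)

/-! ### The concrete groups -/

def relW : Set (FreeGroup (Fin 4)) :=
  {FreeGroup.of 0 * FreeGroup.of 0, FreeGroup.of 1 * FreeGroup.of 1,
    FreeGroup.of 2 * FreeGroup.of 2, FreeGroup.of 3 * FreeGroup.of 3,
    FreeGroup.of 0 * FreeGroup.of 1 * (FreeGroup.of 1 * FreeGroup.of 0)⁻¹,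
    FreeGroup.of 0 * FreeGroup.of 2 * (FreeGroup.of 2 * FreeGroup.of 0)⁻¹,
    FreeGroup.of 1 * FreeGroup.of 3 * (FreeGroup.of 3 * FreeGroup.of 1)⁻¹,
    FreeGroup.of 2 * FreeGroup.of 3 * FreeGroup.of 2 *
      (FreeGroup.of 3 * FreeGroup.of 2 * FreeGroup.of 3)⁻¹}

abbrev W : Type := PresentedGroup relW

def wa : W := PresentedGroup.of 0
def wq : W := PresentedGroup.of 1
def wv : W := PresentedGroup.of 2
def wh : W := PresentedGroup.of 3

theorem relW_rel : Rel wa wq wv wh := by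
  have k : ∀ r ∈ relW, PresentedGroup.mk relW r = 1 := fun r hr => PresentedGroup.one_of_mem hr
  refine ⟨k _ (by simp [relW]), k _ (by simp [relW]), k _ (by simp [relW]), k _ (by simp [relW]),
    ?_, ?_, ?_, ?_⟩ <;> rw [← mul_inv_eq_one]
  · exact k (FreeGroup.of 0 * FreeGroup.of 1 * (FreeGroup.of 1 * FreeGroup.of 0)⁻¹) (by simp [relW])
  · exact k (FreeGroup.of 0 * FreeGroup.of 2 * (FreeGroup.of 2 * FreeGroup.of 0)⁻¹) (by simp [relW])
  · exact k (FreeGroup.of 1 * FreeGroup.of 3 * (FreeGroup.of 3 * FreeGroup.of 1)⁻¹) (by simp [relW])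
  · exact k (FreeGroup.of 2 * FreeGroup.of 3 * FreeGroup.of 2 *
      (FreeGroup.of 3 * FreeGroup.of 2 * FreeGroup.of 3)⁻¹) (by simp [relW])

/-- The universal property of `W`. -/
def liftW {M : Type} [Group M] {a q v h : M} (H : Rel a q v h) : W →* M :=
  PresentedGroup.toGroup (f := ![a, q, v, h]) (by
    intro r hr
    simp only [relW, Set.mem_insert_iff, Set.mem_singleton_iff] at hr
    rcases hr with rfl | rfl | rfl | rfl | rfl | rfl | rfl | rfl <;>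
      simp [H.aa, H.qq, H.vv, H.hh, H.aq, H.av, H.qh, H.vh, -mul_inv_rev])

def relG : Set (FreeGroup (Fin 3)) :=
  {FreeGroup.of 0 * FreeGroup.of 0,
    FreeGroup.of 0 * FreeGroup.of 1 * FreeGroup.of 0 * FreeGroup.of 1,
    FreeGroup.of 0 * FreeGroup.of 2 * FreeGroup.of 0 * FreeGroup.of 2,
    (FreeGroup.of 1 * FreeGroup.of 0 * FreeGroup.of 2) ^ 3}

/-- The rotation subgroup. -/
abbrev G : Type := PresentedGroup relG

def go : G := PresentedGroup.of 0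
def gR : G := PresentedGroup.of 1
def gU : G := PresentedGroup.of 2

structure RelG {M : Type} [Group M] (o R U : M) : Prop where
  oo : o * o = 1
  oR : o * R * o * R = 1
  oU : o * U * o * U = 1
  tri : (R * o * U) ^ 3 = 1

theorem relG_rel : RelG go gR gU := by
  have k : ∀ r ∈ relG, PresentedGroup.mk relG r = 1 := fun r hr => PresentedGroup.one_of_mem hr
  exact ⟨k _ (by simp [relG]),
    k (FreeGroup.of 0 * FreeGroup.of 1 * FreeGroup.of 0 * FreeGroup.of 1) (by simp [relG]),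
    k (FreeGroup.of 0 * FreeGroup.of 2 * FreeGroup.of 0 * FreeGroup.of 2) (by simp [relG]),
    k ((FreeGroup.of 1 * FreeGroup.of 0 * FreeGroup.of 2) ^ 3) (by simp [relG])⟩

/-- The universal property of `G`. -/
def liftG {M : Type} [Group M] {o R U : M} (H : RelG o R U) : G →* M :=
  PresentedGroup.toGroup (f := ![o, R, U]) (by
    intro r hr
    simp only [relG, Set.mem_insert_iff, Set.mem_singleton_iff] at hr
    rcases hr with rfl | rfl | rfl | rfl <;> simp [H.oo, H.oR, H.oU, H.tri])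

/-- Orientation character. -/
def det : W →* ℤˣ := liftW (a := -1) (q := -1) (v := -1) (h := -1) (by constructor <;> decide)

/-- The class in the finite quotient. -/
def chi : G →* DihedralGroup 6 :=
  liftG (o := DihedralGroup.sr 0) (R := DihedralGroup.sr 3) (U := DihedralGroup.r 1)
    (by constructor <;> decide)

def A : Set W := {w | Beh wa wq wv wh w}
def Q : Set W := {w | Beh wq wa wh wv w}
def wR : W := wq * wv
def wU : W := wh * wa

/-- `j` embeds `G` as the rotation subgroup. -/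
structure Mod (j : G →* W) : Prop where
  o : j go = wa * wq
  R : j gR = wR
  U : j gU = wU
  inj : Function.Injective j
  ran : ∀ w, det w = 1 → w ∈ j.range

def ModStmt : Prop := ∃ j, Mod j

/-- The twists: `t2` fixes `U`, `th` fixes `R`. -/
structure Tw (t2 th : MulAut G) : Prop where
  t2o : t2 go = gU⁻¹ * go
  t2R : t2 gR = gR * gU
  t2U : t2 gU = gU
  tho : th go = go
  thR : th gR = gR
  thU : th gU = gR * gU * gR

def TwStmt : Prop := ∃ t2 th, Tw t2 th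

/-- The surface group inside `G`; `κ` kills `q`. -/
structure Emb (j : G →* W) (Ψ : MulAut G) (ι : S 2 →* G) (θ : MulAut (S 2)) : Prop where
  inj : Function.Injective ι
  ran : ∀ x, chi x = 1 ↔ x ∈ ι.range
  phi : ∀ g, ι (Phi g) = gU * ι g * gU⁻¹
  mem : θ ∈ slopeGrp
  psi : ∀ g, ι (θ g) = Ψ (ι g)
  r0 : ∀ κ : W →* W, κ wa = wa → κ wq = 1 → κ wv = wv → κ wh = wh →
    ∀ g, r0 g = 1 → κ (j (ι g)) = 1

def EmbStmt : Prop :=
  ∀ j t2 th, Mod j → Tw t2 th → ∃ ι θ, Emb j (t2 * th * th) ι θ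

/-! ### The dichotomy -/

def T0 (g : W) : Prop :=
  ∃ γ, det γ = 1 ∧ γ⁻¹ * g * γ ∈ [1, wa * wq, wa * wv, wq * wh, wv * wh, wh * wv]

def P1 (g : W) : Prop :=
  ∃ γ, det γ = 1 ∧ ∃ l : List ℤ, l ≠ [] ∧ (∀ d ∈ l, -1 ≤ d) ∧
    γ⁻¹ * g * γ = (l.map fun d => wR ^ d * wU).prod

def P2 (g : W) : Prop :=
  ∃ γ, det γ = 1 ∧ ∃ l : List Bool, l ≠ [] ∧
    γ⁻¹ * g * γ = (l.map fun b => cond b (wh * wR * wh) wR).prod

/-- Between the two walls next to a gate. -/
def Mid : Set W := {w | wU * w ∉ A ∧ w ∈ A}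

def K1 (g : W) : Prop :=
  ∃ γ, det γ = 1 ∧ (To (γ⁻¹ * g * γ) (Mid ∩ Q) (Mid ∩ Qᶜ) ∨ To (γ⁻¹ * g * γ) (Mid ∩ Qᶜ) (Mid ∩ Q))

def K2 (g : W) : Prop := ∃ γ, det γ = 1 ∧ To (γ⁻¹ * g * γ) (Aᶜ ∩ Qᶜ) (A ∩ Q)

/-- All passages are through gates. -/
def D1Stmt : Prop :=
  ∀ (g γ : W) (l : List W), det g = 1 → l ≠ [] →
    (∀ b ∈ l, ∃ c ∈ Subgroup.closure {wq, wv}, ∃ c' ∈ Subgroup.closure {wq, wv},
      b = c * wh * c') → γ⁻¹ * g * γ = (l.map (· * wa)).prod → P1 g ∨ K2 g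

/-- One passage is not through a gate. -/
def D2Stmt : Prop :=
  ∀ (g γ : W) (l : List W) (b : W),
    (∀ b ∈ l, b ∈ Subgroup.closure {wq, wv, wh} ∧ b ∉ Subgroup.closure {wq, wv}) → b ∈ l →
    (∀ c ∈ Subgroup.closure {wq, wv}, ∀ c' ∈ Subgroup.closure {wq, wv}, b ≠ c * wh * c') →
    γ⁻¹ * g * γ = (l.map (· * wa)).prod → K1 g

/-- Elliptic elements. -/
def D3Stmt : Prop :=
  ∀ g γ : W, det g = 1 → (γ⁻¹ * g * γ ∈ Subgroup.closure {wq, wv, wh} ∨
    ∃ c ∈ Subgroup.closure {wq, wv}, γ⁻¹ * g * γ = c * wa) → T0 g ∨ P2 g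

/-! ### Positive words and lines -/

/-- A positive word: `true` is `U`, `false` is `R`. -/
def pw (l : List Bool) : G := (l.map fun b => cond b gU gR).prod

/-- Conjugate to a positive word of length at least `n`. -/
def InC (n : ℕ) (x : G) : Prop := ∃ (γ : G) (l : List Bool), n ≤ l.length ∧ x = γ * pw l * γ⁻¹

/-- A positive word with corners of all classes. -/
def Blk (β : G) : Prop :=
  ∀ κ, ∃ (p r : List Bool) (e : ℕ), β = pw p * gU * gR * gU ^ (e + 1) * gR * gU * pw r ∧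
    chi (pw p * gU * gR * gU ^ (e + 1)) = κ

def BlkStmt : Prop :=
  ∀ t2 th, Tw t2 th → (∃ e : ℕ, Blk (((t2 * th * th) ^ e) gR) ∧ Blk (((t2 * th * th) ^ e) gU)) ∧
    ∀ n : ℕ, chi (((t2 * th * th) ^ n) gU) = DihedralGroup.r 1

def PsiStmt : Prop :=
  ∀ j t2 th, Mod j → Tw t2 th →
    (∀ x, P1 (j x) ∨ P2 (j x) → InC 1 ((t2 * th * th) x)) ∧
    (∀ l, ∃ l', 2 * l.length ≤ l'.length ∧ (t2 * th * th) (pw l) = pw l') ∧
    ∃ κ : W →* W, κ wa = wa ∧ κ wq = 1 ∧ κ wv = wv ∧ κ wh = wh ∧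
      ∀ x, InC 1 x → κ (j ((t2 * th * th) x)) ≠ 1

/-- The trace on the surface group of a translate. -/
def pull (j : G →* W) (ι : S 2 →* G) (γ : G) (X : Set W) : Set (S 2) :=
  {y | j (γ⁻¹ * ι y) ∈ X}

def Pa : Set W := {w | wU * w ∈ A ∧ w ∉ Q}
def Fu : Set W := {w | w ∉ A ∧ w ∈ Q}

/-- The line of `g` crosses at a corner. -/
def Cert (j : G →* W) (ι : S 2 →* G) (g : S 2) : Prop :=
  ∃ γ, Sep g (pull j ι γ Pa) (pull j ι γ Fu)

/-- The half spaces are walls. -/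
def WallStmt : Prop :=
  ∀ j Ψ ι θ, Mod j → Emb j Ψ ι θ → ∀ (γ : G) (c c' : S 2), ι c = γ * gR ^ 2 * γ⁻¹ →
    ι c' = γ * gU ^ 6 * γ⁻¹ → Wl c (pull j ι γ A) ∧ Wl c (pull j ι γ Aᶜ) ∧ Wl c' (pull j ι γ Q) ∧
      To c (pull j ι γ Q) (pull j ι γ Qᶜ) ∧
      To c' (pull j ι γ Aᶜ) (pull j ι (γ * gU⁻¹) A) ∧
      (pull j ι γ Pa).Infinite ∧ (pull j ι γ Fu).Infinite

def CertStmt : Prop :=
  ∀ j Ψ ι θ, Mod j → Emb j Ψ ι θ → ∀ g, K1 (j (ι g)) ∨ K2 (j (ι g)) → Cert j ι g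

def KStmt : Prop :=
  ∀ j t2 th ι θ, Mod j → Tw t2 th → Emb j (t2 * th * th) ι θ →
    ∀ g, g ≠ 1 → InC 1 (ι (θ g)) ∨ Cert j ι g

def LineStmt : Prop :=
  ∀ j Ψ ι θ, Mod j → Emb j Ψ ι θ → ∀ (γ : G) (l : List G), l ≠ [] → (∀ β ∈ l, Blk β) →
    ∃ S : ℤ → Set (S 2), Sys S ∧ (∀ g, Cert j ι g → Dense g S 1 1) ∧
      (∀ k y y', ι y' = γ * l.prod * γ⁻¹ * ι y → (y' ∈ S (k + l.length) ↔ y ∈ S k)) ∧
      ∀ k y y', ι y' = γ * l.prod * γ⁻¹ * ι y * gU ^ 5 → y ∈ S k → y' ∈ S (k + l.length - 10)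

/-- Adjacency is invariant under automorphisms. -/
def MapStmt : Prop :=
  ∀ (P : Type) [Group P] (α : MulAut P) (g g' : P), Adj g g' → Adj (α g) (α g')

def GeoStmt : Prop := ∃ θ ∈ slopeGrp, ¬ Chain (r0.comp (θ⁻¹ : MulAut (S 2)).toMonoidHom)

theorem cox : Cox wa wq wv wh := by
  refine ⟨relW_rel, ?_, fun M _ a q v h H => ⟨liftW H, ?_, ?_, ?_, ?_⟩⟩
  · rw [← PresentedGroup.closure_range_of]
    congr 1
    ext x
    simp only [Set.mem_insert_iff, Set.mem_singleton_iff, Set.mem_range]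
    constructor
    · rintro (rfl | rfl | rfl | rfl) <;> exact ⟨_, rfl⟩
    · rintro ⟨i, rfl⟩
      fin_cases i <;> simp [wa, wq, wv, wh]
  all_goals simp [liftW, wa, wq, wv, wh]

theorem Rel.symm {M : Type} [Group M] {a q v h : M} (H : Rel a q v h) : Rel q a h v :=
  ⟨H.qq, H.aa, H.hh, H.vv, H.aq.symm, H.qh, H.av, H.vh.symm⟩

theorem Cox.symm {M : Type} [Group M] {a q v h : M} (H : Cox a q v h) : Cox q a h v := by
  refine ⟨H.rel.symm, ?_, fun N _ a' q' v' h' K => ?_⟩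
  · rw [← H.gen]
    congr 1
    ext x
    simp only [Set.mem_insert_iff, Set.mem_singleton_iff]
    tauto
  · obtain ⟨f, h1, h2, h3, h4⟩ := H.lift N _ _ _ _ K.symm
    exact ⟨f, h2, h1, h4, h3⟩

@[simp] theorem det_a : det wa = -1 := by simp [det, liftW, wa]
@[simp] theorem det_q : det wq = -1 := by simp [det, liftW, wq]
@[simp] theorem det_v : det wv = -1 := by simp [det, liftW, wv]
@[simp] theorem det_h : det wh = -1 := by simp [det, liftW, wh]
@[simp] theorem chi_o : chi go = DihedralGroup.sr 0 := by simp [chi, liftG, go]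
@[simp] theorem chi_R : chi gR = DihedralGroup.sr 3 := by simp [chi, liftG, gR]
@[simp] theorem chi_U : chi gU = DihedralGroup.r 1 := by simp [chi, liftG, gU]

theorem liftG_gen {M : Type} [Group M] {o R U : M} (H : RelG o R U) :
    liftG H go = o ∧ liftG H gR = R ∧ liftG H gU = U := by simp [liftG, go, gR, gU]

theorem extG {M : Type} [Group M] {f f' : G →* M} (h1 : f go = f' go) (h2 : f gR = f' gR)
    (h3 : f gU = f' gU) : f = f' :=
  PresentedGroup.ext fun i => by fin_cases i <;> assumption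

end Pool.Agent.MP_7ebdba_gt.w
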