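import Pool.Agent.MP_7ebdba_gt.w.Spec

/-! The levels: no chain exists for a deep slope. -/

namespace Pool.Agent.MP_7ebdba_gt.w

open ch ge

namespace TopP

theorem pw_map (Ψ : MulAut G) (l : List Bool) :
    Ψ (pw l) = (l.map fun b => cond b (Ψ gU) (Ψ gR)).prod := by
  rw [pw, map_list_prod, List.map_map]
  congr 2
  funext b
  cases b <;> rfl

theorem inC_map {Ψ : MulAut G} (h : ∀ l, ∃ l', 2 * l.length ≤ l'.length ∧ Ψ (pw l) = pw l')
    {n : ℕ} {x : G} (hx : InC n x) : InC (2 * n) (Ψ x) := by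
  obtain ⟨γ, l, hl, rfl⟩ := hx
  obtain ⟨l', h1, h2⟩ := h l
  exact ⟨Ψ γ, l', by omega, by simp [h2]⟩

theorem inC_mono {m n : ℕ} {x : G} (h : m ≤ n) (hx : InC n x) : InC m x := by
  obtain ⟨γ, l, hl, e⟩ := hx
  exact ⟨γ, l, h.trans hl, e⟩

theorem blocks {Ψ : MulAut G} (hR : Blk (Ψ gR)) (hU : Blk (Ψ gU)) (l : List Bool) :
    ∃ L : List G, L.length = l.length ∧ (∀ β ∈ L, Blk β) ∧ Ψ (pw l) = L.prod := by
  refine ⟨_, by simp, fun β hβ => ?_, pw_map Ψ l⟩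
  obtain ⟨b, -, rfl⟩ := List.mem_map.1 hβ
  cases b
  · exact hR
  · exact hU

theorem pow_pw {Ψ : MulAut G} (h : ∀ l, ∃ l', 2 * l.length ≤ l'.length ∧ Ψ (pw l) = pw l')
    (n : ℕ) (l : List Bool) : ∃ l', 2 ^ n * l.length ≤ l'.length ∧ (Ψ ^ n) (pw l) = pw l' := by
  induction n with
  | zero => exact ⟨l, by simp, rfl⟩
  | succ n ih =>
    obtain ⟨l₁, h1, h2⟩ := ih
    obtain ⟨l₂, h3, h4⟩ := h l₁
    exact ⟨l₂, by rw [pow_succ]; nlinarith, by rw [pow_succ', MulAut.mul_apply, h2, h4]⟩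

end TopP

open TopP in
theorem geo (h1 : ModStmt) (h2 : TwStmt) (h3 : EmbStmt) (h4 : BlkStmt) (h5 : PsiStmt)
    (h6 : KStmt) (h7 : LineStmt) (h8 : MapStmt) : GeoStmt := by
  obtain ⟨j, hj⟩ := h1
  obtain ⟨t2, th, ht⟩ := h2
  obtain ⟨ι, θ, he⟩ := h3 j t2 th hj ht
  obtain ⟨⟨e, bR, bU⟩, hchi⟩ := h4 t2 th ht
  obtain ⟨-, p2, κ, k1, k2, k3, k4, p3⟩ := h5 j t2 th hj ht
  have K := h6 j t2 th ι θ hj ht he
  have L := h7 j _ ι θ hj he
  set Ψ := t2 * th * th with hΨ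
  have hp : ∀ (n : ℕ) g, ι ((θ ^ n) g) = (Ψ ^ n) (ι g) := by
    intro n
    induction n with
    | zero => intro g; rfl
    | succ n ih => intro g; rw [pow_succ', pow_succ', MulAut.mul_apply, MulAut.mul_apply, he.psi, ih]
  have add : ∀ (m n : ℕ) g, (θ ^ (m + n)) g = (θ ^ m) ((θ ^ n) g) := fun m n g => by
    rw [pow_add, MulAut.mul_apply]
  -- `B n g`: the image at level `n` is positive
  let B : ℕ → S 2 → Prop := fun n g => InC 1 (ι ((θ ^ n) g))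
  have up : ∀ n g, B n g → B (n + 1) g := fun n g h => by
    have := inC_map p2 h
    rw [← he.psi] at this
    show InC 1 _
    rw [pow_succ', MulAut.mul_apply]
    exact inC_mono (by norm_num) this
  have ups : ∀ n m g, B n g → B (n + m) g := fun n m g h => by
    induction m with
    | zero => exact h
    | succ m ih => exact up _ _ ih
  have cert : ∀ n g, g ≠ 1 → ¬ B (n + 1) g → Cert j ι ((θ ^ n) g) := fun n g hg hb =>
    (K _ (by simpa using hg)).resolve_left fun h => hb (by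
      show InC 1 _
      rw [pow_succ', MulAut.mul_apply]
      exact h)
  have dep : ∀ n g g', g ≠ 1 → Adj g g' → ¬ B (n + (e + 3)) g → ¬ B n g' := by
    intro n g g' hg ha hb hb'
    obtain ⟨γ, l, hl, e1⟩ := hb'
    obtain ⟨l', l1, l2⟩ := pow_pw p2 2 l
    obtain ⟨M, m1, m2, m3⟩ := blocks bR bU l'
    obtain ⟨Sy, s1, s2, s3, -⟩ := L ((Ψ ^ (e + 2)) γ) M
      (by rintro rfl; simp at m1; omega) m2
    refine depth (p := M.length) s1 (h8 _ (θ ^ (n + (e + 2))) g g' ha)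
      (s2 _ (cert (n + (e + 2)) g hg hb)) (fun k y => s3 k y _ ?_) (by omega) one_pos
    rw [map_mul, add_comm n, add, hp, e1, map_mul, map_mul, map_inv, ← m3, ← l2, pow_add,
      MulAut.mul_apply _ (Ψ ^ e) (Ψ ^ 2) (pw l)]
  refine ⟨(θ ^ (5 * e + 19))⁻¹, inv_mem (pow_mem he.mem _), ?_⟩
  rintro ⟨g0, g1, g2, g3, x, n0, n1, n2, n3, nx, hx, a0, a1, a2, a3, ax⟩
  have n4 : Phi g0 ≠ 1 := by simpa using n0
  have bx : ¬ B (5 * e + 18) x := fun h => p3 _ h (by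
    rw [← he.psi]
    refine he.r0 κ k1 k2 k3 k4 _ ?_
    rw [inv_inv, pow_succ'] at hx
    exact hx)
  have lv : ∀ g, ∀ i ≤ 4, ¬ B (5 * e + 18 - i * (e + 3)) g → ¬ B (e + 5 + 1) g :=
    fun g i hi hb h => hb (by
      have := ups _ (5 * e + 18 - i * (e + 3) - (e + 5 + 1)) g h
      have k : i * (e + 3) ≤ 4 * (e + 3) := Nat.mul_le_mul_right _ hi
      rwa [show e + 5 + 1 + (5 * e + 18 - i * (e + 3) - (e + 5 + 1)) = 5 * e + 18 - i * (e + 3) by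
        omega] at this)
  have st : ∀ i < 4, ∀ g g', g ≠ 1 → Adj g g' → ¬ B (5 * e + 18 - i * (e + 3)) g →
      ¬ B (5 * e + 18 - (i + 1) * (e + 3)) g' := fun i hi g g' hg ha hb =>
    dep _ g g' hg ha (by
      have k : (i + 1) * (e + 3) ≤ 4 * (e + 3) := Nat.mul_le_mul_right _ hi
      rwa [show 5 * e + 18 - (i + 1) * (e + 3) + (e + 3) = 5 * e + 18 - i * (e + 3) by
        rw [add_mul] at k ⊢
        omega])
  have b0 : ¬ B (5 * e + 18 - 0 * (e + 3)) x := by simpa using bx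
  have all : ¬ B (e + 5 + 1) g0 ∧ ¬ B (e + 5 + 1) g1 ∧ ¬ B (e + 5 + 1) g2 ∧ ¬ B (e + 5 + 1) g3 ∧
      ¬ B (e + 5 + 1) (Phi g0) := by
    rcases ax with ⟨x0, x1⟩ | ⟨x2, x3⟩
    · have c1 := st 0 (by norm_num) _ _ nx x1.1 b0
      have c2 := st 1 (by norm_num) _ _ n1 a1.1 c1
      have c3 := st 2 (by norm_num) _ _ n2 a2.1 c2
      exact ⟨lv _ 1 (by norm_num) (st 0 (by norm_num) _ _ nx x0.1 b0), lv _ 1 (by norm_num) c1,
        lv _ 2 (by norm_num) c2, lv _ 3 (by norm_num) c3,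
        lv _ 4 (by norm_num) (st 3 (by norm_num) _ _ n3 a3.1 c3)⟩
    · have c2 := st 0 (by norm_num) _ _ nx x2.1 b0
      have c3 := st 0 (by norm_num) _ _ nx x3.1 b0
      have c1 := st 1 (by norm_num) _ _ n2 a1.2 c2
      exact ⟨lv _ 3 (by norm_num) (st 2 (by norm_num) _ _ n1 a0.2 c1), lv _ 2 (by norm_num) c1,
        lv _ 1 (by norm_num) c2, lv _ 1 (by norm_num) c3,
        lv _ 2 (by norm_num) (st 1 (by norm_num) _ _ n3 a3.1 c3)⟩
  obtain ⟨c0, c1, c2, c3, c4⟩ := all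
  obtain ⟨l', l1, l2⟩ := pow_pw p2 5 [true]
  obtain ⟨M, m1, m2, m3⟩ := blocks bR bU l'
  have hd : M.prod = (Ψ ^ (e + 5)) gU := by
    rw [← m3, ← l2, pow_add, MulAut.mul_apply]
    simp [pw]
  have hl : 32 ≤ M.length := by simpa [m1] using l1
  obtain ⟨Sy, s1, s2, -, s4⟩ := L 1 M (by rintro rfl; simp at hl) m2
  obtain ⟨γ, hγ⟩ := (he.ran (M.prod * gU ^ 5)).1 (by
    rw [map_mul, hd, hchi, map_pow, chi_U]
    decide)
  let α := θ ^ (e + 5)
  let Φ : S 2 →* S 2 := (α * Phi * α⁻¹ : MulAut (S 2)).toMonoidHom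
  have hΦ : Φ (α g0) = α (Phi g0) := by simp [Φ]
  refine endgame (Φ := Φ) (γ := γ) (p := M.length - 10) (W := 1) (w := 1) s1 (h8 _ α _ _ a0.1)
    (h8 _ α _ _ a1.1) (h8 _ α _ _ a2.1) (hΦ ▸ ⟨h8 _ α _ _ a3.1, h8 _ α _ _ a3.2⟩)
    (s2 _ (cert _ _ n0 c0)) (s2 _ (cert _ _ n1 c1)) (s2 _ (cert _ _ n2 c2))
    (s2 _ (cert _ _ n3 c3)) (hΦ ▸ s2 _ (cert _ _ n4 c4)) (fun k y hy => ?_) (by omega)
  have := s4 k y (Φ y * γ) (by
    have e1 : ι (Φ y) = M.prod * ι y * M.prod⁻¹ := by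
      obtain ⟨y, rfl⟩ := α.surjective y
      have : Φ (α y) = α (Phi y) := by simp [Φ]
      rw [this, hp, hp, he.phi, map_mul, map_mul, map_inv, hd]
    rw [map_mul, e1, hγ]
    group) hy
  rwa [show k + ((M.length - 10 : ℕ) : ℤ) = k + M.length - 10 by omega]

end Pool.Agent.MP_7ebdba_gt.w
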